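import Pool.Agent.R125.ZS.Stm2

/-! Invariant, fold, low, sel. -/

namespace Pool.Agent.R125.ZS

open Multiset

theorem mE_spec : ∀ p, Nat.testBit mE p = true → (p / 81) % 2 = 0 := by
  intro p hp
  by_cases hlt : p < 2754
  · have h2 : ∀ b < 34, ∀ q < 81, Nat.testBit mE (81 * b + q) = true → b % 2 = 0 := by
      decide +kernel
    have : 81 * (p / 81) + p % 81 = p := by omega
    exact h2 (p / 81) (by omega) (p % 81) (by omega) (by rw [this]; exact hp)
  · exfalso
    have h1 : mE < 2 ^ 2754 := by decide +kernel
    have h3 : mE < 2 ^ p := lt_of_lt_of_le h1 (Nat.pow_le_pow_right (by norm_num) (by omega))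
    rw [Nat.testBit_lt_two_pow h3] at hp
    exact absurd hp (by decide)

theorem mO_spec : ∀ p, Nat.testBit mO p = true → (p / 81) % 2 = 1 := by
  intro p hp
  by_cases hlt : p < 2754
  · have h2 : ∀ b < 34, ∀ q < 81, Nat.testBit mO (81 * b + q) = true → b % 2 = 1 := by
      decide +kernel
    have : 81 * (p / 81) + p % 81 = p := by omega
    exact h2 (p / 81) (by omega) (p % 81) (by omega) (by rw [this]; exact hp)
  · exfalso
    have h1 : mO < 2 ^ 2754 := by decide +kernel
    have h3 : mO < 2 ^ p := lt_of_lt_of_le h1 (Nat.pow_le_pow_right (by norm_num) (by omega))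
    rw [Nat.testBit_lt_two_pow h3] at hp
    exact absurd hp (by decide)

theorem dec_zero' : dec 0 = 0 := by decide +kernel

theorem stmtInv (h1 : StmtCode) (h2 : StmtTrSound) : StmtInv := by
  refine ⟨?_, ?_, ?_⟩
  · intro st A B x hI j c q hc hq hb
    change Nat.testBit (st ||| (tr (2 ^ code x) st) <<< 162) _ = true at hb
    rw [Nat.testBit_or, Nat.testBit_shiftLeft] at hb
    simp only [Bool.or_eq_true, Bool.and_eq_true, decide_eq_true_eq] at hb
    rcases hb with hb | ⟨hge, hb⟩
    · obtain ⟨A', hA, B', hB, e1, e2, e3⟩ := hI j c q hc hq hb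
      exact ⟨A', hA.trans (Multiset.le_cons_self _ _), B', hB, e1, e2, e3⟩
    · obtain ⟨p', t1, t2, t3⟩ := h2 _ (h1.1 x) _ _ hb
      rw [h1.2.1] at t3
      have hj : 1 ≤ j := by omega
      have e0 : (81 * (2 * j + c) + q - 162) % 81 = q := by omega
      have e1 : p' = 81 * (2 * (j - 1) + c) + p' % 81 := by omega
      rw [e1] at t1
      obtain ⟨A', hA, B', hB, g1, g2, g3⟩ :=
        hI (j - 1) c (p' % 81) hc (Nat.mod_lt _ (by norm_num)) t1
      refine ⟨x ::ₘ A', Multiset.cons_le_cons _ hA, B', hB, ?_, g2, ?_⟩
      · rw [Multiset.card_cons]; omega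
      · rw [Multiset.sum_cons, add_assoc, g3, t3, e0]
        abel
  · intro st A B x hI j c q hc hq hb
    change Nat.testBit (st ||| ((((tr (2 ^ code x) st) &&& mE) <<< 243) |||
      (((tr (2 ^ code x) st) &&& mO) <<< 81))) _ = true at hb
    rw [Nat.testBit_or, Nat.testBit_or, Nat.testBit_shiftLeft, Nat.testBit_shiftLeft,
      Nat.testBit_and, Nat.testBit_and] at hb
    simp only [Bool.or_eq_true, Bool.and_eq_true, decide_eq_true_eq] at hb
    rcases hb with hb | ⟨hge, hb, hm⟩ | ⟨hge, hb, hm⟩
    · obtain ⟨A', hA, B', hB, e1, e2, e3⟩ := hI j c q hc hq hb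
      exact ⟨A', hA, B', hB.trans (Multiset.le_cons_self _ _), e1, e2, e3⟩
    · obtain ⟨p', t1, t2, t3⟩ := h2 _ (h1.1 x) _ _ hb
      rw [h1.2.1] at t3
      have hm' := mE_spec _ hm
      have hc1 : c = 1 := by omega
      have hj : 1 ≤ j := by omega
      have e0 : (81 * (2 * j + c) + q - 243) % 81 = q := by omega
      have e1 : p' = 81 * (2 * (j - 1) + 0) + p' % 81 := by omega
      rw [e1] at t1
      obtain ⟨A', hA, B', hB, g1, g2, g3⟩ :=
        hI (j - 1) 0 (p' % 81) (by norm_num) (Nat.mod_lt _ (by norm_num)) t1
      refine ⟨A', hA, x ::ₘ B', Multiset.cons_le_cons _ hB, ?_, ?_, ?_⟩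
      · rw [Multiset.card_cons]; omega
      · rw [Multiset.card_cons]; omega
      · rw [Multiset.sum_cons, add_left_comm, g3, t3, e0]
        abel
    · obtain ⟨p', t1, t2, t3⟩ := h2 _ (h1.1 x) _ _ hb
      rw [h1.2.1] at t3
      have hm' := mO_spec _ hm
      have hc1 : c = 0 := by omega
      have hj : 1 ≤ j := by omega
      have e0 : (81 * (2 * j + c) + q - 81) % 81 = q := by omega
      have e1 : p' = 81 * (2 * (j - 1) + 1) + p' % 81 := by omega
      rw [e1] at t1
      obtain ⟨A', hA, B', hB, g1, g2, g3⟩ :=
        hI (j - 1) 1 (p' % 81) (by norm_num) (Nat.mod_lt _ (by norm_num)) t1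
      refine ⟨A', hA, x ::ₘ B', Multiset.cons_le_cons _ hB, ?_, ?_, ?_⟩
      · rw [Multiset.card_cons]; omega
      · rw [Multiset.card_cons]; omega
      · rw [Multiset.sum_cons, add_left_comm, g3, t3, e0]
        abel
  · intro j c q hc hq hb
    have h0 : 81 * (2 * j + c) + q = 0 := by
      by_contra hne
      have : Nat.testBit 1 (81 * (2 * j + c) + q) = false := by
        apply Nat.testBit_lt_two_pow
        exact Nat.one_lt_two_pow hne
      rw [this] at hb
      exact absurd hb (by decide)
    have hj : j = 0 := by omega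
    have hc0 : c = 0 := by omega
    have hq0 : q = 0 := by omega
    subst hj hc0 hq0
    refine ⟨0, le_refl _, 0, le_refl _, ?_, ?_, ?_⟩
    · simp
    · simp
    · simp [dec_zero']

theorem fs_spec (s y p : ℕ) (h : Nat.testBit (fs s y) p = true) :
    Nat.testBit y p = true ∨ Nat.testBit y (s + p) = true := by
  change Nat.testBit (y ||| (y >>> s)) p = true at h
  rw [Nat.testBit_or, Nat.testBit_shiftRight, Bool.or_eq_true] at h
  exact h

theorem stmtFold : StmtFold := by
  intro y p h
  unfold fold at h
  have key : ∀ (k z : ℕ), (∀ p, Nat.testBit z p = true → ∃ b, Nat.testBit y (81 * b + p) = true) →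
      ∀ p, Nat.testBit (fs (81 * k) z) p = true → ∃ b, Nat.testBit y (81 * b + p) = true := by
    intro k z hz p hp
    rcases fs_spec _ _ _ hp with h | h
    · exact hz p h
    · obtain ⟨b, hb⟩ := hz _ h
      refine ⟨b + k, ?_⟩
      have : 81 * (b + k) + p = 81 * b + (81 * k + p) := by ring
      rw [this]; exact hb
  have k0 : ∀ p, Nat.testBit y p = true → ∃ b, Nat.testBit y (81 * b + p) = true :=
    fun p hp => ⟨0, by simpa using hp⟩
  exact key 1 _ (key 2 _ (key 4 _ (key 8 _ (key 16 _ (key 32 _ k0))))) p h

theorem stmtLow : StmtLow := by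
  intro b
  induction b using Nat.strong_induction_on with
  | _ b ih =>
    intro hb
    rcases Nat.even_or_odd' b with ⟨m, rfl | rfl⟩
    · obtain ⟨k, hk, hk'⟩ := ih m (by omega) (by omega)
      refine ⟨k + 1, ?_, ?_⟩
      · change (2 * m) &&& ((2 * m) ^^^ (2 * m - 1)) = 2 ^ (k + 1)
        change m &&& (m ^^^ (m - 1)) = 2 ^ k at hk
        apply Nat.eq_of_testBit_eq
        intro i
        cases i with
        | zero =>
          rw [Nat.testBit_and, Nat.testBit_zero]
          rw [Nat.testBit_two_pow]
          simp
        | succ i =>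
          rw [Nat.testBit_and, Nat.testBit_xor, Nat.testBit_succ, Nat.testBit_succ]
          have e1 : 2 * m / 2 = m := by omega
          have e2 : (2 * m - 1) / 2 = m - 1 := by omega
          rw [e1, e2, ← Nat.testBit_xor, ← Nat.testBit_and, hk, Nat.testBit_two_pow,
            Nat.testBit_two_pow]
          simp
      · rw [Nat.testBit_succ]
        have e1 : 2 * m / 2 = m := by omega
        rw [e1]; exact hk'
    · refine ⟨0, ?_, ?_⟩
      · change (2 * m + 1) &&& ((2 * m + 1) ^^^ (2 * m + 1 - 1)) = 2 ^ 0
        apply Nat.eq_of_testBit_eq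
        intro i
        cases i with
        | zero =>
          rw [Nat.testBit_and, Nat.testBit_xor, Nat.testBit_zero, Nat.testBit_zero]
          simp
        | succ i =>
          rw [Nat.testBit_and, Nat.testBit_xor, Nat.testBit_succ, Nat.testBit_succ,
            Nat.testBit_two_pow]
          have e1 : (2 * m + 1) / 2 = m := by omega
          have e2 : (2 * m + 1 - 1) / 2 = m := by omega
          rw [e1, e2]
          simp
      · rw [Nat.testBit_zero]
        simp

theorem sub_land (i : ℕ) : ∀ c p : ℕ,
    Nat.testBit (c - (p &&& c)) i = (Nat.testBit c i && !Nat.testBit p i) := by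
  have hle : ∀ c p : ℕ, p &&& c ≤ c := fun c p => Nat.and_le_right
  have hdiv : ∀ c p : ℕ, (p &&& c) / 2 = (p / 2) &&& (c / 2) := by
    intro c p
    apply Nat.eq_of_testBit_eq
    intro j
    rw [← Nat.testBit_succ, Nat.testBit_and, Nat.testBit_and, Nat.testBit_succ, Nat.testBit_succ]
  have hmod : ∀ c p : ℕ, (p &&& c) % 2 = 1 ↔ (p % 2 = 1 ∧ c % 2 = 1) := by
    intro c p
    have h := Nat.testBit_and p c 0
    rw [Nat.testBit_zero, Nat.testBit_zero, Nat.testBit_zero] at h
    constructor
    · intro h1
      rw [decide_eq_true h1] at h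
      simpa using h.symm
    · rintro ⟨h1, h2⟩
      rw [decide_eq_true h1, decide_eq_true h2] at h
      simpa using h
  induction i with
  | zero =>
    intro c p
    rw [Nat.testBit_zero, Nat.testBit_zero, Nat.testBit_zero]
    have h1 := hle c p
    have h2 := hmod c p
    by_cases hp : p % 2 = 1 <;> by_cases hc : c % 2 = 1
    · have h3 := h2.2 ⟨hp, hc⟩
      have : ¬ ((c - (p &&& c)) % 2 = 1) := by omega
      simp [this, hp, hc]
    · have h3 : ¬ ((p &&& c) % 2 = 1) := fun h => hc (h2.1 h).2
      have : ¬ ((c - (p &&& c)) % 2 = 1) := by omega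
      simp [this, hp, hc]
    · have h3 : ¬ ((p &&& c) % 2 = 1) := fun h => hp (h2.1 h).1
      have : ((c - (p &&& c)) % 2 = 1) := by omega
      simp [this, hp, hc]
    · have h3 : ¬ ((p &&& c) % 2 = 1) := fun h => hp (h2.1 h).1
      have : ¬ ((c - (p &&& c)) % 2 = 1) := by omega
      simp [this, hp, hc]
  | succ i ih =>
    intro c p
    rw [Nat.testBit_succ, Nat.testBit_succ, Nat.testBit_succ, ← ih]
    congr 1
    have h1 := hle c p
    have h2 := hmod c p
    have h3 := hdiv c p
    have h4 := hle (c / 2) (p / 2)
    rw [← h3]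
    by_cases hc : c % 2 = 1
    · omega
    · have h5 : ¬ ((p &&& c) % 2 = 1) := fun h => hc (h2.1 h).2
      omega

theorem stmtSel : StmtSel := by
  intro cl
  induction cl with
  | nil =>
    intro W c D h1 h2 h3
    have : D ≠ 0 := by
      rintro rfl
      simp at h3
    obtain ⟨z, hz⟩ := Multiset.exists_mem_of_ne_zero this
    exact ⟨z, hz, h1 z hz⟩
  | cons p L ih =>
    intro W c D h1 h2 h3
    have hne : D ≠ 0 := by
      rintro rfl
      simp at h3
    obtain ⟨z, hz⟩ := Multiset.exists_mem_of_ne_zero hne
    unfold sel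
    cases e0 : Nat.beq W 0 with
    | true => exact ⟨z, hz, h1 z hz⟩
    | false =>
      cases e1 : Nat.beq c 0 with
      | true => exact ⟨z, hz, h1 z hz⟩
      | false =>
        cases e2 : Nat.ble p.2 W with
        | false => exact ih W c D h1 (fun q hq => h2 q (List.mem_cons_of_mem _ hq)) h3
        | true =>
          have hle : p.2 ≤ W := Nat.le_of_ble_eq_true e2
          cases e3 : Nat.beq (Nat.land p.1 c) 0 with
          | true => exact ih W c D h1 (fun q hq => h2 q (List.mem_cons_of_mem _ hq)) h3
          | false =>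
            simp only [cond_true, cond_false]
            have hcard : card (D.filter (fun z => Nat.testBit p.1 (code z) = true)) +
                card (D.filter (fun z => ¬ Nat.testBit p.1 (code z) = true)) = card D := by
              rw [← Multiset.card_add, Multiset.filter_add_not]
            have h4 := h2 p (List.mem_cons_self)
            obtain ⟨y, hy, hy'⟩ := ih (Nat.sub W p.2) (Nat.sub c (Nat.land p.1 c))
              (D.filter (fun z => ¬ Nat.testBit p.1 (code z) = true)) (by
                intro z hz
                rw [Multiset.mem_filter] at hz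
                change Nat.testBit (c - (p.1 &&& c)) (code z) = true
                rw [sub_land, h1 z hz.1]
                have := hz.2
                simpa using this) (by
                intro q hq
                refine le_trans ?_ (h2 q (List.mem_cons_of_mem _ hq))
                apply Multiset.card_le_card
                apply Multiset.filter_le_filter
                exact Multiset.filter_le _ _) (by
                change W - p.2 < _
                omega)
            exact ⟨y, (Multiset.mem_filter.1 hy).1, hy'⟩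

end Pool.Agent.R125.ZS
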