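import Pool.Agent.R125.ZS.Stm2

namespace Pool.Agent.R125.ZS

open Multiset

namespace Orb

/-- the vector of the digits in base 256 -/
def dg (m : ℕ) : V := ![((m % 256 : ℕ) : ZMod 3), ((m / 256 % 256 : ℕ) : ZMod 3),
  ((m / 65536 % 256 : ℕ) : ZMod 3), ((m / 16777216 : ℕ) : ZMod 3)]

/-- the linear map of a matrix -/
def psi (M : ℕ × ℕ × ℕ × ℕ) : V →+ V where
  toFun v := v 0 • dg M.1 + v 1 • dg M.2.1 + v 2 • dg M.2.2.1 + v 3 • dg M.2.2.2
  map_zero' := by simp
  map_add' := by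
    intro u v
    simp only [Pi.add_apply, add_smul]
    abel

theorem dec_mk (a b c d : ℕ) :
    dec (a % 3 + 3 * (b % 3) + 9 * (c % 3) + 27 * (d % 3)) =
      ![(a : ZMod 3), (b : ZMod 3), (c : ZMod 3), (d : ZMod 3)] := by
  have h0 : (a % 3 + 3 * (b % 3) + 9 * (c % 3) + 27 * (d % 3)) % 3 = a % 3 := by omega
  have h1 : (a % 3 + 3 * (b % 3) + 9 * (c % 3) + 27 * (d % 3)) / 3 % 3 = b % 3 := by omega
  have h2 : (a % 3 + 3 * (b % 3) + 9 * (c % 3) + 27 * (d % 3)) / 9 % 3 = c % 3 := by omega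
  have h3 : (a % 3 + 3 * (b % 3) + 9 * (c % 3) + 27 * (d % 3)) / 27 % 3 = d % 3 := by omega
  rw [dec, h0, h1, h2, h3]
  simp only [ZMod.natCast_mod]

theorem wide {m : ℕ} (h : wideOK m = true) : m % 256 ≤ 2 ∧ m / 256 % 256 ≤ 2 ∧
    m / 65536 % 256 ≤ 2 ∧ m / 16777216 ≤ 2 := by
  simp only [wideOK, Bool.and_eq_true, Nat.ble_eq] at h
  exact ⟨h.1.1.1, h.1.1.2, h.1.2, h.2⟩

theorem mulM {m x : ℕ} (h : wideOK m = true) (hx : x ≤ 2) :
    ∃ p0 p1 p2 p3 : ℕ, p0 ≤ 4 ∧ p1 ≤ 4 ∧ p2 ≤ 4 ∧ p3 ≤ 4 ∧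
      p0 = x * (m % 256) ∧ p1 = x * (m / 256 % 256) ∧ p2 = x * (m / 65536 % 256) ∧
      p3 = x * (m / 16777216) ∧ x * m = p0 + 256 * p1 + 65536 * p2 + 16777216 * p3 := by
  obtain ⟨h0, h1, h2, h3⟩ := wide h
  refine ⟨_, _, _, _, ?_, ?_, ?_, ?_, rfl, rfl, rfl, rfl, ?_⟩
  · exact Nat.mul_le_mul hx h0
  · exact Nat.mul_le_mul hx h1
  · exact Nat.mul_le_mul hx h2
  · exact Nat.mul_le_mul hx h3
  · have e : m = m % 256 + 256 * (m / 256 % 256) + 65536 * (m / 65536 % 256) +
        16777216 * (m / 16777216) := by omega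
    nth_rewrite 1 [e]
    ring

theorem dig {s A0 A1 A2 A3 : ℕ} (h0 : A0 < 256) (h1 : A1 < 256) (h2 : A2 < 256) (h3 : A3 < 256)
    (e : s = A0 + 256 * A1 + 65536 * A2 + 16777216 * A3) :
    s % 256 = A0 ∧ s / 256 % 256 = A1 ∧ s / 65536 % 256 = A2 ∧ s / 16777216 % 256 = A3 := by
  subst e
  refine ⟨by omega, by omega, by omega, by omega⟩

theorem dec_app {M : ℕ × ℕ × ℕ × ℕ} (h0 : wideOK M.1 = true) (h1 : wideOK M.2.1 = true)
    (h2 : wideOK M.2.2.1 = true) (h3 : wideOK M.2.2.2 = true) (x : ℕ) :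
    dec (app M x) = psi M (dec x) := by
  obtain ⟨a0, a1, a2, a3, la0, la1, la2, la3, ea0, ea1, ea2, ea3, ea⟩ :=
    mulM h0 (show x % 3 ≤ 2 by omega)
  obtain ⟨b0, b1, b2, b3, lb0, lb1, lb2, lb3, eb0, eb1, eb2, eb3, eb⟩ :=
    mulM h1 (show x / 3 % 3 ≤ 2 by omega)
  obtain ⟨c0, c1, c2, c3, lc0, lc1, lc2, lc3, ec0, ec1, ec2, ec3, ec⟩ :=
    mulM h2 (show x / 9 % 3 ≤ 2 by omega)
  obtain ⟨d0, d1, d2, d3, ld0, ld1, ld2, ld3, ed0, ed1, ed2, ed3, ed⟩ :=
    mulM h3 (show x / 27 % 3 ≤ 2 by omega)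
  have es : (x % 3) * M.1 + (x / 3 % 3) * M.2.1 + (x / 9 % 3) * M.2.2.1 +
      (x / 27 % 3) * M.2.2.2 = (a0 + b0 + c0 + d0) + 256 * (a1 + b1 + c1 + d1) +
        65536 * (a2 + b2 + c2 + d2) + 16777216 * (a3 + b3 + c3 + d3) := by
    rw [ea, eb, ec, ed]; ring
  have l0 : a0 + b0 + c0 + d0 < 256 := by clear * - la0 lb0 lc0 ld0; omega
  have l1 : a1 + b1 + c1 + d1 < 256 := by clear * - la1 lb1 lc1 ld1; omega
  have l2 : a2 + b2 + c2 + d2 < 256 := by clear * - la2 lb2 lc2 ld2; omega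
  have l3 : a3 + b3 + c3 + d3 < 256 := by clear * - la3 lb3 lc3 ld3; omega
  obtain ⟨g0, g1, g2, g3⟩ := dig l0 l1 l2 l3 es
  have hs : app M x = (a0 + b0 + c0 + d0) % 3 + 3 * ((a1 + b1 + c1 + d1) % 3) +
      9 * ((a2 + b2 + c2 + d2) % 3) + 27 * ((a3 + b3 + c3 + d3) % 3) := by
    simp only [app]
    rw [g0, g1, g2, g3]
  rw [hs, dec_mk, ea0, ea1, ea2, ea3, eb0, eb1, eb2, eb3, ec0, ec1, ec2, ec3, ed0, ed1, ed2, ed3]
  funext j
  simp only [psi, AddMonoidHom.coe_mk, ZeroHom.coe_mk]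
  fin_cases j <;> simp [dec, dg]

theorem basis_eq {f g : V →+ V} (h0 : f (dec 1) = g (dec 1)) (h1 : f (dec 3) = g (dec 3))
    (h2 : f (dec 9) = g (dec 9)) (h3 : f (dec 27) = g (dec 27)) : f = g := by
  refine DFunLike.ext _ _ fun v => ?_
  have e : v = (v 0).val • dec 1 + (v 1).val • dec 3 + (v 2).val • dec 9 + (v 3).val • dec 27 := by
    funext i
    fin_cases i <;> simp [dec]
  rw [e]
  simp only [_root_.map_add, _root_.map_nsmul, h0, h1, h2, h3]

theorem psi_inj {M N : ℕ × ℕ × ℕ × ℕ} (h0 : wideOK M.1 = true) (h1 : wideOK M.2.1 = true)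
    (h2 : wideOK M.2.2.1 = true) (h3 : wideOK M.2.2.2 = true) (k0 : wideOK N.1 = true)
    (k1 : wideOK N.2.1 = true) (k2 : wideOK N.2.2.1 = true) (k3 : wideOK N.2.2.2 = true)
    (e0 : app N (app M 1) = 1) (e1 : app N (app M 3) = 3) (e2 : app N (app M 9) = 9)
    (e3 : app N (app M 27) = 27) : Function.Injective (psi M) := by
  have h : (psi N).comp (psi M) = AddMonoidHom.id V := by
    apply basis_eq
    · rw [AddMonoidHom.comp_apply, ← dec_app h0 h1 h2 h3, ← dec_app k0 k1 k2 k3, e0]; rfl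
    · rw [AddMonoidHom.comp_apply, ← dec_app h0 h1 h2 h3, ← dec_app k0 k1 k2 k3, e1]; rfl
    · rw [AddMonoidHom.comp_apply, ← dec_app h0 h1 h2 h3, ← dec_app k0 k1 k2 k3, e2]; rfl
    · rw [AddMonoidHom.comp_apply, ← dec_app h0 h1 h2 h3, ← dec_app k0 k1 k2 k3, e3]; rfl
  intro u v huv
  have := DFunLike.congr_fun h u
  have h' := DFunLike.congr_fun h v
  simp only [AddMonoidHom.comp_apply, AddMonoidHom.id_apply] at this h'
  rw [← this, huv, h']

theorem exists_le_map {f : V → V} {A T : Multiset V} (h : T ≤ A.map f) :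
    ∃ S ≤ A, S.map f = T := by
  induction A using Quotient.inductionOn with
  | h l =>
    induction T using Quotient.inductionOn with
    | h t =>
      simp only [quot_mk_to_coe, map_coe, coe_le] at h ⊢
      obtain ⟨l', hp, hs⟩ := h
      obtain ⟨l'', hs', rfl⟩ := List.sublist_map_iff.1 hs
      exact ⟨(l'' : Multiset V), coe_le.2 hs'.subperm, by simpa using coe_eq_coe.2 hp⟩

theorem bit_eq (x : ℕ) : bit x = 2 ^ x := by
  simp [bit, Nat.shiftLeft_eq]

theorem ybits_mem {cs : List Cert} {y : ℕ} (h : Nat.testBit (ybits cs) y = true) :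
    ∃ e ∈ cs, e.1 = y := by
  induction cs with
  | nil => simp [ybits] at h
  | cons e L ih =>
    have h' : (Nat.testBit (bit e.1) y || Nat.testBit (ybits L) y) = true := by
      rw [← Nat.testBit_or]; exact h
    rw [Bool.or_eq_true] at h'
    rcases h' with h' | h'
    · rw [bit_eq, Nat.testBit_two_pow] at h'
      exact ⟨e, by simp, by simpa using h'⟩
    · obtain ⟨e', h1, h2⟩ := ih h'
      exact ⟨e', by simp [h1], h2⟩

theorem level {nxt : List (List ℕ)} {cur : List (List ℕ)} {css : List (List Cert)}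
    (h : chkLevel nxt cur css = true) {v : List ℕ} (hv : v ∈ cur) :
    ∃ cs, chkRep nxt v cs = true := by
  induction cur generalizing css with
  | nil => simp at hv
  | cons w cur ih =>
    cases css with
    | nil => simp [chkLevel] at h
    | cons cs css =>
      simp only [chkLevel, Bool.and_eq_true] at h
      rcases List.mem_cons.1 hv with rfl | hv
      · exact ⟨cs, h.1⟩
      · exact ih h.2 hv

theorem inv_foldl (hC : StmtCode) (hI : StmtInv) (v : List ℕ) (hv : ∀ x ∈ v, x < 81)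
    (A : Multiset V) (st : ℕ) (h : Inv A 0 st) :
    Inv (A + Multiset.map dec (v : Multiset ℕ)) 0 (List.foldl addE st (v.map bit)) := by
  induction v generalizing A st with
  | nil => simpa using h
  | cons x v ih =>
    have hx := hv x (by simp)
    have h1 := hI.1 st A 0 (dec x) h
    rw [hC.2.2 x hx, ← bit_eq] at h1
    have h2 := ih (fun y hy => hv y (by simp [hy])) _ _ h1
    simpa [← Multiset.cons_coe] using h2

theorem F6_spec {p : ℕ} (h : Nat.testBit F6 p = true) : p < 891 ∧ p / 81 % 2 = 0 := by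
  have h1 : p < 891 := by
    by_contra hp
    have : F6 < 2 ^ p := lt_of_lt_of_le (show F6 < 2 ^ 891 by decide +kernel)
      (Nat.pow_le_pow_right (by norm_num) (not_lt.1 hp))
    rw [Nat.testBit_lt_two_pow this] at h
    exact absurd h (by simp)
  have h2 : (List.range 891).all (fun p => !(Nat.testBit F6 p) || decide (p / 81 % 2 = 0)) = true := by
    decide +kernel
  rw [List.all_eq_true] at h2
  have := h2 p (List.mem_range.2 h1)
  rw [h] at this
  exact ⟨h1, by simpa using this⟩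

theorem cand_spec {F st y : ℕ} (hy : y < 81) (h : Nat.testBit (cand F full st) y = false) :
    Nat.testBit (fold (Nat.land st F)) y = true := by
  have e : cand F full st = 2 ^ 81 - ((full &&& fold (Nat.land st F)) + 1) := by
    have hf : full = 2 ^ 81 - 1 := by decide +kernel
    show full - (full &&& fold (Nat.land st F)) = _
    nth_rewrite 1 [hf]
    omega
  have hlt : (full &&& fold (Nat.land st F)) < 2 ^ 81 :=
    lt_of_le_of_lt Nat.and_le_left (by decide +kernel)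
  rw [e, Nat.testBit_two_pow_sub_succ hlt] at h
  simp only [hy, decide_true, Bool.true_and, Bool.not_eq_false', Nat.testBit_and,
    Bool.and_eq_true] at h
  exact h.2

end Orb

open Orb in
theorem stmtOrb : StmtOrb := by
  intro hC hF hI k cur nxt css hlev hcov A hA hav
  obtain ⟨a, ha⟩ : ∃ a, a ∈ A := by
    rw [← card_pos_iff_exists_mem]; omega
  obtain ⟨A', rfl⟩ := exists_cons_of_mem ha
  have hA' : card A' = k := by simpa using hA
  have hav' : Av6 A' := fun T hT h0 hs => hav T (hT.trans (le_cons_self _ _)) h0 hs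
  obtain ⟨φ, hφ, v, hv, hφv⟩ := hcov A' hA' hav'
  obtain ⟨cs, hcs⟩ := level hlev hv
  simp only [chkRep, Bool.and_eq_true] at hcs
  obtain ⟨⟨c1, c2⟩, c3⟩ := hcs
  have hv81 : ∀ x ∈ v, x < 81 := by
    intro x hx
    have := (List.all_eq_true.1 c1) x hx
    simpa [Nat.blt_eq] using this
  have hinv := inv_foldl hC hI v hv81 0 1 hI.2.2
  rw [zero_add] at hinv
  have hy81 := hC.1 (φ a)
  have hbit : Nat.testBit (cand F6 full (List.foldl addE 1 (v.map bit))) (code (φ a)) = true := by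
    by_contra hne
    rw [Bool.not_eq_true] at hne
    obtain ⟨b, hb⟩ := hF _ _ (cand_spec hy81 hne)
    have hb' : Nat.testBit ((List.foldl addE 1 (v.map bit)) &&& F6) (81 * b + code (φ a)) = true :=
      hb
    rw [Nat.testBit_and, Bool.and_eq_true] at hb'
    obtain ⟨f1, f2⟩ := F6_spec hb'.2
    have hb2 : b % 2 = 0 := by omega
    have hb3 : b ≤ 10 := by omega
    have e1 : 81 * b + code (φ a) = 81 * (2 * (b / 2) + 0) + code (φ a) := by omega
    rw [e1] at hb'
    obtain ⟨T, hT, B', hB', q1, q2, q3⟩ := hinv (b / 2) 0 (code (φ a)) (by norm_num) hy81 hb'.1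
    have hB0 : B' = 0 := Multiset.le_zero.1 hB'
    subst hB0
    rw [← hφv] at hT
    obtain ⟨S, hS, rfl⟩ := exists_le_map hT
    rw [hC.2.1, sum_zero, add_zero] at q3
    have hsum : (a ::ₘ S).sum = 0 := by
      apply hφ
      rw [sum_cons, _root_.map_add, _root_.map_multiset_sum, q3, _root_.map_zero]
      exact add_neg_cancel _
    have h7 := hav (a ::ₘ S) ((cons_le_cons_iff a).2 hS) (by simp) hsum
    simp only [card_zero, add_zero, card_map] at q1
    rw [card_cons, q1] at h7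
    omega
  have hy : Nat.testBit (ybits cs) (code (φ a)) = true := by
    have h1 := Nat.eq_of_beq_eq_true c2
    have h2 : Nat.testBit ((cand F6 full (List.foldl addE 1 (v.map bit))) &&& (ybits cs))
        (code (φ a)) = true := by
      have : (cand F6 full (List.foldl addE 1 (v.map bit))) &&& (ybits cs) =
        cand F6 full (List.foldl addE 1 (v.map bit)) := h1
      rw [this]; exact hbit
    rw [Nat.testBit_and, Bool.and_eq_true] at h2
    exact h2.2
  obtain ⟨e, he, hey⟩ := ybits_mem hy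
  have hedge := (List.all_eq_true.1 c3) e he
  simp only [chkEdge, Bool.and_eq_true] at hedge
  obtain ⟨⟨⟨⟨g1, g2⟩, ⟨⟨w0, w1⟩, w2⟩, w3⟩, ⟨⟨u0, u1⟩, u2⟩, u3⟩, ⟨⟨i0, i1⟩, i2⟩, i3⟩ := hedge
  have hinj : Function.Injective (psi e.2.1) := psi_inj w0 w1 w2 w3 u0 u1 u2 u3
    (Nat.eq_of_beq_eq_true i0) (Nat.eq_of_beq_eq_true i1) (Nat.eq_of_beq_eq_true i2)
    (Nat.eq_of_beq_eq_true i3)
  refine ⟨(psi e.2.1).comp φ, hinj.comp hφ, nxt.getD e.2.2.2 [], ?_, ?_⟩
  · have hlt : e.2.2.2 < nxt.length := by simpa [Nat.blt_eq] using g2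
    rw [List.getD_eq_getElem _ _ hlt]
    exact List.getElem_mem hlt
  · have hperm := List.isPerm_iff.1 g1
    rw [← coe_eq_coe.2 hperm, ← Multiset.map_coe, Multiset.map_map, ← Multiset.cons_coe,
      map_cons, map_cons]
    congr 1
    · rw [Function.comp_apply, dec_app w0 w1 w2 w3, hey, hC.2.1]; rfl
    · have : A'.map ((psi e.2.1).comp φ) = (A'.map φ).map (psi e.2.1) := by
        rw [Multiset.map_map]; rfl
      rw [this, hφv, Multiset.map_map]
      exact Multiset.map_congr rfl fun x _ => (dec_app w0 w1 w2 w3 x).symm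

end Pool.Agent.R125.ZS
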