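import Pool.Agent.R125.ZS.Stm2

/-! Bit-level translation lemmas. -/

namespace Pool.Agent.R125.ZS

open Multiset

theorem stmtCode : StmtCode := by
  refine ⟨?_, ?_, ?_⟩
  · intro v
    unfold code
    have h0 := ZMod.val_lt (v 0)
    have h1 := ZMod.val_lt (v 1)
    have h2 := ZMod.val_lt (v 2)
    have h3 := ZMod.val_lt (v 3)
    omega
  · decide +kernel
  · decide +kernel

theorem down81 {w p : ℕ} (h : w ≤ p % 81) : (p - w) / 81 = p / 81 ∧ (p - w) % 81 = p % 81 - w := by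
  omega

theorem up81 {w p : ℕ} (h : p % 81 + w < 81) :
    (p + w) / 81 = p / 81 ∧ (p + w) % 81 = p % 81 + w := by
  omega

theorem mask_spec (m : ℕ) (P : ℕ → Prop) (h1 : m < 2 ^ 2754)
    (h2 : ∀ b < 34, ∀ q < 81, Nat.testBit m (81 * b + q) = true → P q) :
    ∀ p, Nat.testBit m p = true → P (p % 81) := by
  intro p hp
  by_cases hlt : p < 2754
  · have : 81 * (p / 81) + p % 81 = p := by omega
    exact h2 (p / 81) (by omega) (p % 81) (by omega) (by rw [this]; exact hp)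
  · exfalso
    have h3 : m < 2 ^ p := lt_of_lt_of_le h1 (Nat.pow_le_pow_right (by norm_num) (by omega))
    rw [Nat.testBit_lt_two_pow h3] at hp
    exact absurd hp (by decide)

theorem mm12_0 : ∀ p, Nat.testBit m12_0 p = true → (p % 81) / 1 % 3 ≠ 0 :=
  mask_spec _ (fun q => q / 1 % 3 ≠ 0) (by decide +kernel) (by decide +kernel)
theorem mm12_1 : ∀ p, Nat.testBit m12_1 p = true → (p % 81) / 3 % 3 ≠ 0 :=
  mask_spec _ (fun q => q / 3 % 3 ≠ 0) (by decide +kernel) (by decide +kernel)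
theorem mm12_2 : ∀ p, Nat.testBit m12_2 p = true → (p % 81) / 9 % 3 ≠ 0 :=
  mask_spec _ (fun q => q / 9 % 3 ≠ 0) (by decide +kernel) (by decide +kernel)
theorem mm12_3 : ∀ p, Nat.testBit m12_3 p = true → (p % 81) / 27 % 3 ≠ 0 :=
  mask_spec _ (fun q => q / 27 % 3 ≠ 0) (by decide +kernel) (by decide +kernel)
theorem mm0_0 : ∀ p, Nat.testBit m0_0 p = true → (p % 81) / 1 % 3 = 0 :=
  mask_spec _ (fun q => q / 1 % 3 = 0) (by decide +kernel) (by decide +kernel)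
theorem mm0_1 : ∀ p, Nat.testBit m0_1 p = true → (p % 81) / 3 % 3 = 0 :=
  mask_spec _ (fun q => q / 3 % 3 = 0) (by decide +kernel) (by decide +kernel)
theorem mm0_2 : ∀ p, Nat.testBit m0_2 p = true → (p % 81) / 9 % 3 = 0 :=
  mask_spec _ (fun q => q / 9 % 3 = 0) (by decide +kernel) (by decide +kernel)
theorem mm0_3 : ∀ p, Nat.testBit m0_3 p = true → (p % 81) / 27 % 3 = 0 :=
  mask_spec _ (fun q => q / 27 % 3 = 0) (by decide +kernel) (by decide +kernel)
theorem mm01_0 : ∀ p, Nat.testBit m01_0 p = true → (p % 81) / 1 % 3 ≠ 2 :=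
  mask_spec _ (fun q => q / 1 % 3 ≠ 2) (by decide +kernel) (by decide +kernel)
theorem mm01_1 : ∀ p, Nat.testBit m01_1 p = true → (p % 81) / 3 % 3 ≠ 2 :=
  mask_spec _ (fun q => q / 3 % 3 ≠ 2) (by decide +kernel) (by decide +kernel)
theorem mm01_2 : ∀ p, Nat.testBit m01_2 p = true → (p % 81) / 9 % 3 ≠ 2 :=
  mask_spec _ (fun q => q / 9 % 3 ≠ 2) (by decide +kernel) (by decide +kernel)
theorem mm01_3 : ∀ p, Nat.testBit m01_3 p = true → (p % 81) / 27 % 3 ≠ 2 :=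
  mask_spec _ (fun q => q / 27 % 3 ≠ 2) (by decide +kernel) (by decide +kernel)
theorem mm2_0 : ∀ p, Nat.testBit m2_0 p = true → (p % 81) / 1 % 3 = 2 :=
  mask_spec _ (fun q => q / 1 % 3 = 2) (by decide +kernel) (by decide +kernel)
theorem mm2_1 : ∀ p, Nat.testBit m2_1 p = true → (p % 81) / 3 % 3 = 2 :=
  mask_spec _ (fun q => q / 3 % 3 = 2) (by decide +kernel) (by decide +kernel)
theorem mm2_2 : ∀ p, Nat.testBit m2_2 p = true → (p % 81) / 9 % 3 = 2 :=
  mask_spec _ (fun q => q / 9 % 3 = 2) (by decide +kernel) (by decide +kernel)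
theorem mm2_3 : ∀ p, Nat.testBit m2_3 p = true → (p % 81) / 27 % 3 = 2 :=
  mask_spec _ (fun q => q / 27 % 3 = 2) (by decide +kernel) (by decide +kernel)

/-- finite facts on `dec` -/
def Fin1 (w : ℕ) : Prop :=
  (∀ q < 81, q / w % 3 ≠ 0 → w ≤ q ∧ dec q = dec (q - w) + dec w) ∧
  (∀ q < 81, q / w % 3 = 0 → q + 2 * w < 81 ∧ dec q = dec (q + 2 * w) + dec w) ∧
  (∀ q < 81, q / w % 3 ≠ 2 → q + w < 81 ∧ dec q = dec (q + w) + dec (2 * w)) ∧
  (∀ q < 81, q / w % 3 = 2 → 2 * w ≤ q ∧ dec q = dec (q - 2 * w) + dec (2 * w))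

theorem fin1_1 : Fin1 1 := by
  unfold Fin1; decide +kernel
theorem fin1_3 : Fin1 3 := by
  unfold Fin1; decide +kernel
theorem fin1_9 : Fin1 9 := by
  unfold Fin1; decide +kernel
theorem fin1_27 : Fin1 27 := by
  unfold Fin1; decide +kernel

/-- generic translation down -/
theorem gen_rm (w m12 m0 : ℕ) (hF : Fin1 w)
    (h12 : ∀ p, Nat.testBit m12 p = true → (p % 81) / w % 3 ≠ 0)
    (h0 : ∀ p, Nat.testBit m0 p = true → (p % 81) / w % 3 = 0) (A p : ℕ)
    (h : Nat.testBit (Nat.lor (Nat.shiftRight (Nat.land A m12) w)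
      (Nat.shiftLeft (Nat.land A m0) (2 * w))) p = true) :
    ∃ p', Nat.testBit A p' = true ∧ p' / 81 = p / 81 ∧ dec (p' % 81) = dec (p % 81) + dec w := by
  change Nat.testBit (((A &&& m12) >>> w) ||| ((A &&& m0) <<< (2 * w))) p = true at h
  rw [Nat.testBit_or, Nat.testBit_shiftRight, Nat.testBit_shiftLeft, Nat.testBit_and,
    Nat.testBit_and] at h
  simp only [Bool.or_eq_true, Bool.and_eq_true, decide_eq_true_eq] at h
  rcases h with ⟨h1, h2⟩ | ⟨h1, h2, h3⟩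
  · have h4 := hF.1 ((w + p) % 81) (Nat.mod_lt _ (by norm_num)) (h12 _ h2)
    have h5 := down81 h4.1
    have h6 : w + p - w = p := by omega
    rw [h6] at h5
    exact ⟨w + p, h1, h5.1.symm, by rw [h5.2]; exact h4.2⟩
  · have h4 := hF.2.1 ((p - 2 * w) % 81) (Nat.mod_lt _ (by norm_num)) (h0 _ h3)
    have h5 := up81 h4.1
    have h6 : p - 2 * w + 2 * w = p := by omega
    rw [h6] at h5
    exact ⟨p - 2 * w, h2, h5.1.symm, by rw [h5.2]; exact h4.2⟩

/-- generic translation up -/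
theorem gen_rp (w m01 m2 : ℕ) (hF : Fin1 w)
    (h01 : ∀ p, Nat.testBit m01 p = true → (p % 81) / w % 3 ≠ 2)
    (h2' : ∀ p, Nat.testBit m2 p = true → (p % 81) / w % 3 = 2) (A p : ℕ)
    (h : Nat.testBit (Nat.lor (Nat.shiftLeft (Nat.land A m01) w)
      (Nat.shiftRight (Nat.land A m2) (2 * w))) p = true) :
    ∃ p', Nat.testBit A p' = true ∧ p' / 81 = p / 81 ∧
      dec (p' % 81) = dec (p % 81) + dec (2 * w) := by
  change Nat.testBit (((A &&& m01) <<< w) ||| ((A &&& m2) >>> (2 * w))) p = true at h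
  rw [Nat.testBit_or, Nat.testBit_shiftRight, Nat.testBit_shiftLeft, Nat.testBit_and,
    Nat.testBit_and] at h
  simp only [Bool.or_eq_true, Bool.and_eq_true, decide_eq_true_eq] at h
  rcases h with ⟨h1, h2, h3⟩ | ⟨h1, h2⟩
  · have h4 := hF.2.2.1 ((p - w) % 81) (Nat.mod_lt _ (by norm_num)) (h01 _ h3)
    have h5 := up81 h4.1
    have h6 : p - w + w = p := by omega
    rw [h6] at h5
    exact ⟨p - w, h2, h5.1.symm, by rw [h5.2]; exact h4.2⟩
  · have h4 := hF.2.2.2 ((2 * w + p) % 81) (Nat.mod_lt _ (by norm_num)) (h2' _ h2)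
    have h5 := down81 h4.1
    have h6 : 2 * w + p - 2 * w = p := by omega
    rw [h6] at h5
    exact ⟨2 * w + p, h1, h5.1.symm, by rw [h5.2]; exact h4.2⟩

/-- the digit tests of one-bit numbers -/
def Dig (w s0 s1 : ℕ) : Prop :=
  ∀ x < 81, (Nat.beq (Nat.land (2 ^ x) s0) 0 = false → x / w % 3 = 0) ∧
    (Nat.beq (Nat.land (2 ^ x) s0) 0 = true → Nat.beq (Nat.land (2 ^ x) s1) 0 = true →
      x / w % 3 = 2) ∧
    (Nat.beq (Nat.land (2 ^ x) s0) 0 = true → Nat.beq (Nat.land (2 ^ x) s1) 0 = false →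
      x / w % 3 = 1)

theorem dig_0 : Dig 1 s0_0 s1_0 := by
  unfold Dig; decide +kernel
theorem dig_1 : Dig 3 s0_1 s1_1 := by
  unfold Dig; decide +kernel
theorem dig_2 : Dig 9 s0_2 s1_2 := by
  unfold Dig; decide +kernel
theorem dig_3 : Dig 27 s0_3 s1_3 := by
  unfold Dig; decide +kernel

theorem gen_rd (w s0 s1 : ℕ) (f g : ℕ → ℕ) (hD : Dig w s0 s1)
    (hf : ∀ A p, Nat.testBit (f A) p = true → ∃ p', Nat.testBit A p' = true ∧ p' / 81 = p / 81 ∧
      dec (p' % 81) = dec (p % 81) + dec (2 * w))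
    (hg : ∀ A p, Nat.testBit (g A) p = true → ∃ p', Nat.testBit A p' = true ∧ p' / 81 = p / 81 ∧
      dec (p' % 81) = dec (p % 81) + dec w) (x : ℕ) (hx : x < 81) (A p : ℕ)
    (h : Nat.testBit (cond (Nat.beq (Nat.land (2 ^ x) s0) 0)
      (cond (Nat.beq (Nat.land (2 ^ x) s1) 0) (f A) (g A)) A) p = true) :
    ∃ p', Nat.testBit A p' = true ∧ p' / 81 = p / 81 ∧
      dec (p' % 81) = dec (p % 81) + dec ((x / w % 3) * w) := by
  obtain ⟨d1, d2, d3⟩ := hD x hx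
  cases e0 : Nat.beq (Nat.land (2 ^ x) s0) 0 with
  | false =>
    rw [e0] at h
    refine ⟨p, h, rfl, ?_⟩
    rw [d1 e0, Nat.zero_mul]
    have : dec 0 = 0 := by decide +kernel
    rw [this, add_zero]
  | true =>
    cases e1 : Nat.beq (Nat.land (2 ^ x) s1) 0 with
    | false =>
      rw [e0, e1] at h
      rw [d3 e0 e1, Nat.one_mul]
      exact hg A p h
    | true =>
      rw [e0, e1] at h
      rw [d2 e0 e1]
      exact hf A p h

theorem dec_digits : ∀ x < 81, dec ((x / 1 % 3) * 1) + dec ((x / 3 % 3) * 3) +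
    dec ((x / 9 % 3) * 9) + dec ((x / 27 % 3) * 27) = dec x := by
  decide +kernel

theorem stmtTrSound : StmtTrSound := by
  intro x hx A p h
  unfold tr at h
  obtain ⟨p3, h3, b3, c3⟩ := gen_rd 27 s0_3 s1_3 rp3 rm3 dig_3
    (gen_rp 27 m01_3 m2_3 fin1_27 mm01_3 mm2_3)
    (gen_rm 27 m12_3 m0_3 fin1_27 mm12_3 mm0_3) x hx _ p h
  obtain ⟨p2, h2, b2, c2⟩ := gen_rd 9 s0_2 s1_2 rp2 rm2 dig_2
    (gen_rp 9 m01_2 m2_2 fin1_9 mm01_2 mm2_2)
    (gen_rm 9 m12_2 m0_2 fin1_9 mm12_2 mm0_2) x hx _ p3 h3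
  obtain ⟨p1, h1, b1, c1⟩ := gen_rd 3 s0_1 s1_1 rp1 rm1 dig_1
    (gen_rp 3 m01_1 m2_1 fin1_3 mm01_1 mm2_1)
    (gen_rm 3 m12_1 m0_1 fin1_3 mm12_1 mm0_1) x hx _ p2 h2
  obtain ⟨p0, h0, b0, c0⟩ := gen_rd 1 s0_0 s1_0 rp0 rm0 dig_0
    (gen_rp 1 m01_0 m2_0 fin1_1 mm01_0 mm2_0)
    (gen_rm 1 m12_0 m0_0 fin1_1 mm12_0 mm0_0) x hx _ p1 h1
  refine ⟨p0, h0, by rw [b0, b1, b2, b3], ?_⟩
  rw [c0, c1, c2, c3, ← dec_digits x hx]
  abel


/-- inclusion of bits -/
def BLE (A B : ℕ) : Prop := ∀ p, Nat.testBit A p = true → Nat.testBit B p = true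

theorem ble_land {A B : ℕ} (h : BLE A B) (m : ℕ) : BLE (Nat.land A m) (Nat.land B m) := by
  intro p hp
  change Nat.testBit (A &&& m) p = true at hp
  change Nat.testBit (B &&& m) p = true
  rw [Nat.testBit_and, Bool.and_eq_true] at hp ⊢
  exact ⟨h p hp.1, hp.2⟩

theorem ble_lor {A B A' B' : ℕ} (h : BLE A B) (h' : BLE A' B') :
    BLE (Nat.lor A A') (Nat.lor B B') := by
  intro p hp
  change Nat.testBit (A ||| A') p = true at hp
  change Nat.testBit (B ||| B') p = true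
  rw [Nat.testBit_or, Bool.or_eq_true] at hp ⊢
  exact hp.imp (h p) (h' p)

theorem ble_shl {A B : ℕ} (h : BLE A B) (k : ℕ) :
    BLE (Nat.shiftLeft A k) (Nat.shiftLeft B k) := by
  intro p hp
  change Nat.testBit (A <<< k) p = true at hp
  change Nat.testBit (B <<< k) p = true
  rw [Nat.testBit_shiftLeft, Bool.and_eq_true] at hp ⊢
  exact ⟨hp.1, h _ hp.2⟩

theorem ble_shr {A B : ℕ} (h : BLE A B) (k : ℕ) :
    BLE (Nat.shiftRight A k) (Nat.shiftRight B k) := by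
  intro p hp
  change Nat.testBit (A >>> k) p = true at hp
  change Nat.testBit (B >>> k) p = true
  rw [Nat.testBit_shiftRight] at hp ⊢
  exact h _ hp

theorem ble_cond {A B A' B' : ℕ} (b : Bool) (h : BLE A B) (h' : BLE A' B') :
    BLE (cond b A A') (cond b B B') := by
  cases b
  · exact h'
  · exact h

theorem ble_tr {A B : ℕ} (h : BLE A B) (L : ℕ) : BLE (tr L A) (tr L B) := by
  have H0 : ∀ {A B : ℕ}, BLE A B → BLE (rd0 L A) (rd0 L B) := fun h =>
    ble_cond _ (ble_cond _ (ble_lor (ble_shl (ble_land h _) _) (ble_shr (ble_land h _) _))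
      (ble_lor (ble_shr (ble_land h _) _) (ble_shl (ble_land h _) _))) h
  have H1 : ∀ {A B : ℕ}, BLE A B → BLE (rd1 L A) (rd1 L B) := fun h =>
    ble_cond _ (ble_cond _ (ble_lor (ble_shl (ble_land h _) _) (ble_shr (ble_land h _) _))
      (ble_lor (ble_shr (ble_land h _) _) (ble_shl (ble_land h _) _))) h
  have H2 : ∀ {A B : ℕ}, BLE A B → BLE (rd2 L A) (rd2 L B) := fun h =>
    ble_cond _ (ble_cond _ (ble_lor (ble_shl (ble_land h _) _) (ble_shr (ble_land h _) _))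
      (ble_lor (ble_shr (ble_land h _) _) (ble_shl (ble_land h _) _))) h
  have H3 : ∀ {A B : ℕ}, BLE A B → BLE (rd3 L A) (rd3 L B) := fun h =>
    ble_cond _ (ble_cond _ (ble_lor (ble_shl (ble_land h _) _) (ble_shr (ble_land h _) _))
      (ble_lor (ble_shr (ble_land h _) _) (ble_shl (ble_land h _) _))) h
  exact H3 (H2 (H1 (H0 h)))

theorem ble_neg {A B : ℕ} (h : BLE A B) : BLE (neg A) (neg B) := by
  have H0 : ∀ {A B : ℕ}, BLE A B → BLE (ng0 A) (ng0 B) := fun h =>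
    ble_lor (ble_land h _) (ble_lor (ble_shl (ble_land h _) _) (ble_shr (ble_land h _) _))
  have H1 : ∀ {A B : ℕ}, BLE A B → BLE (ng1 A) (ng1 B) := fun h =>
    ble_lor (ble_land h _) (ble_lor (ble_shl (ble_land h _) _) (ble_shr (ble_land h _) _))
  have H2 : ∀ {A B : ℕ}, BLE A B → BLE (ng2 A) (ng2 B) := fun h =>
    ble_lor (ble_land h _) (ble_lor (ble_shl (ble_land h _) _) (ble_shr (ble_land h _) _))
  have H3 : ∀ {A B : ℕ}, BLE A B → BLE (ng3 A) (ng3 B) := fun h =>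
    ble_lor (ble_land h _) (ble_lor (ble_shl (ble_land h _) _) (ble_shr (ble_land h _) _))
  exact H3 (H2 (H1 (H0 h)))

theorem ble_pow {A k : ℕ} (h : Nat.testBit A k = true) : BLE (2 ^ k) A := by
  intro p hp
  rw [Nat.testBit_two_pow] at hp
  have : k = p := by simpa using hp
  rw [← this]; exact h

/-- difference of codes -/
def subn (y x : ℕ) : ℕ :=
  (y % 3 + 3 - x % 3) % 3 + 3 * ((y / 3 % 3 + 3 - x / 3 % 3) % 3) +
    9 * ((y / 9 % 3 + 3 - x / 9 % 3) % 3) + 27 * ((y / 27 % 3 + 3 - x / 27 % 3) % 3)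

theorem val_sub3 : ∀ a b : ZMod 3, (a - b).val = (a.val + 3 - b.val) % 3 := by decide

theorem code_sub (y x : V) : code (y - x) = subn (code y) (code x) := by
  unfold code subn
  simp only [Pi.sub_apply, val_sub3]
  have h0 := ZMod.val_lt (y 0)
  have h1 := ZMod.val_lt (y 1)
  have h2 := ZMod.val_lt (y 2)
  have h3 := ZMod.val_lt (y 3)
  have g0 := ZMod.val_lt (x 0)
  have g1 := ZMod.val_lt (x 1)
  have g2 := ZMod.val_lt (x 2)
  have g3 := ZMod.val_lt (x 3)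
  have e : ∀ a b c d : ℕ, a < 3 → b < 3 → c < 3 → d < 3 →
      (a + 3 * b + 9 * c + 27 * d) % 3 = a ∧ (a + 3 * b + 9 * c + 27 * d) / 3 % 3 = b ∧
      (a + 3 * b + 9 * c + 27 * d) / 9 % 3 = c ∧ (a + 3 * b + 9 * c + 27 * d) / 27 % 3 = d := by
    intro a b c d ha hb hc hd
    omega
  obtain ⟨e1, e2, e3, e4⟩ := e _ _ _ _ h0 h1 h2 h3
  obtain ⟨f1, f2, f3, f4⟩ := e _ _ _ _ g0 g1 g2 g3
  rw [e1, e2, e3, e4, f1, f2, f3, f4]

theorem tr_fin : ∀ a < 81, ∀ b < 81, tr (2 ^ a) (2 ^ b) = 2 ^ subn b a := by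
  decide +kernel

theorem neg_fin : ∀ a < 81, neg (2 ^ a) = 2 ^ subn 0 a := by
  decide +kernel

theorem stmtTrComp : StmtTrComp := by
  have h1 : ∀ x y : V, tr (2 ^ code x) (2 ^ code y) = 2 ^ code (y - x) := by
    intro x y
    rw [tr_fin _ (stmtCode.1 x) _ (stmtCode.1 y), code_sub]
  refine ⟨h1, ?_⟩
  intro x y A h
  apply ble_tr (ble_pow h)
  rw [h1, Nat.testBit_two_pow]
  simp

theorem stmtNeg : StmtNeg := by
  intro y A h
  apply ble_neg (ble_pow h)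
  rw [neg_fin _ (stmtCode.1 y), Nat.testBit_two_pow]
  have h0 : code (0 : V) = 0 := by decide +kernel
  have h2 := code_sub 0 y
  rw [h0, zero_sub] at h2
  rw [h2]
  simp

end Pool.Agent.R125.ZS
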