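import Pool.Agent.R125.ZS.CssA
import Pool.Agent.R125.ZS.CssB
import Pool.Agent.R125.ZS.CssC
import Pool.Agent.R125.ZS.CssD
import Pool.Agent.R125.ZS.Orb
import Pool.Agent.R125.ZS.Tr
import Pool.Agent.R125.ZS.Inv

/-! The orbit lists cover everything. -/

namespace Pool.Agent.R125.ZS

open Multiset

theorem chkLevel_append (nxt : List (List ℕ)) : ∀ (a : List (List ℕ)) (ca : List (List Cert))
    (b : List (List ℕ)) (cb : List (List Cert)), a.length = ca.length →
    chkLevel nxt a ca = true → chkLevel nxt b cb = true →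
    chkLevel nxt (a ++ b) (ca ++ cb) = true := by
  intro a
  induction a with
  | nil => intro ca b cb hl _ hb; cases ca with
    | nil => simpa using hb
    | cons _ _ => simp at hl
  | cons v a ih => intro ca b cb hl ha hb; cases ca with
    | nil => simp at hl
    | cons cl ca =>
      rw [chkLevel, Bool.and_eq_true] at ha
      rw [List.cons_append, List.cons_append, chkLevel, Bool.and_eq_true]
      exact ⟨ha.1, ih ca b cb (by simpa using hl) ha.2 hb⟩

theorem inv : StmtInv := stmtInv stmtCode stmtTrSound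

theorem cover_step {k : ℕ} {cur nxt : List (List ℕ)} {css : List (List Cert)}
    (h : chkLevel nxt cur css = true) (hc : Cover k cur) : Cover (k + 1) nxt :=
  stmtOrb stmtCode stmtFold inv k cur nxt css h hc

theorem cov0 : Cover 0 lev0 := by
  intro A hA _
  refine ⟨AddMonoidHom.id V, Function.injective_id, [], by simp [lev0], ?_⟩
  rw [Multiset.card_eq_zero.1 hA]
  rfl

theorem cov1 : Cover 1 lev1 := by
  refine cover_step (css := cp0_0) ?_ cov0
  rw [lq0]
  exact kp0_0

theorem cov2 : Cover 2 lev2 := by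
  refine cover_step (css := cp1_0) ?_ cov1
  rw [lq1]
  exact kp1_0

theorem cov3 : Cover 3 lev3 := by
  refine cover_step (css := cp2_0) ?_ cov2
  rw [lq2]
  exact kp2_0

theorem cov4 : Cover 4 lev4 := by
  refine cover_step (css := cp3_0) ?_ cov3
  rw [lq3]
  exact kp3_0

theorem cov5 : Cover 5 lev5 := by
  refine cover_step (css := cp4_0 ++ cp4_1) ?_ cov4
  rw [lq4]
  exact chkLevel_append _ _ _ _ _ (by decide +kernel) (kp4_0) kp4_1

theorem cov6 : Cover 6 lev6 := by
  refine cover_step (css := cp5_0 ++ cp5_1 ++ cp5_2) ?_ cov5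
  rw [lq5]
  exact chkLevel_append _ _ _ _ _ (by decide +kernel) (chkLevel_append _ _ _ _ _ (by decide +kernel) (kp5_0) kp5_1) kp5_2

theorem cov7 : Cover 7 lev7 := by
  refine cover_step (css := cp6_0 ++ cp6_1 ++ cp6_2 ++ cp6_3 ++ cp6_4 ++ cp6_5) ?_ cov6
  rw [lq6]
  exact chkLevel_append _ _ _ _ _ (by decide +kernel) (chkLevel_append _ _ _ _ _ (by decide +kernel) (chkLevel_append _ _ _ _ _ (by decide +kernel) (chkLevel_append _ _ _ _ _ (by decide +kernel) (chkLevel_append _ _ _ _ _ (by decide +kernel) (kp6_0) kp6_1) kp6_2) kp6_3) kp6_4) kp6_5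

theorem cov8 : Cover 8 lev8 := by
  refine cover_step (css := cp7_0 ++ cp7_1 ++ cp7_2 ++ cp7_3 ++ cp7_4 ++ cp7_5 ++ cp7_6 ++ cp7_7) ?_ cov7
  rw [lq7]
  exact chkLevel_append _ _ _ _ _ (by decide +kernel) (chkLevel_append _ _ _ _ _ (by decide +kernel) (chkLevel_append _ _ _ _ _ (by decide +kernel) (chkLevel_append _ _ _ _ _ (by decide +kernel) (chkLevel_append _ _ _ _ _ (by decide +kernel) (chkLevel_append _ _ _ _ _ (by decide +kernel) (chkLevel_append _ _ _ _ _ (by decide +kernel) (kp7_0) kp7_1) kp7_2) kp7_3) kp7_4) kp7_5) kp7_6) kp7_7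

theorem cov9 : Cover 9 lev9 := by
  refine cover_step (css := cp8_0 ++ cp8_1 ++ cp8_2 ++ cp8_3 ++ cp8_4 ++ cp8_5 ++ cp8_6) ?_ cov8
  rw [lq8]
  exact chkLevel_append _ _ _ _ _ (by decide +kernel) (chkLevel_append _ _ _ _ _ (by decide +kernel) (chkLevel_append _ _ _ _ _ (by decide +kernel) (chkLevel_append _ _ _ _ _ (by decide +kernel) (chkLevel_append _ _ _ _ _ (by decide +kernel) (chkLevel_append _ _ _ _ _ (by decide +kernel) (kp8_0) kp8_1) kp8_2) kp8_3) kp8_4) kp8_5) kp8_6

theorem cov10 : Cover 10 lev10 := by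
  refine cover_step (css := cp9_0 ++ cp9_1 ++ cp9_2) ?_ cov9
  rw [lq9]
  exact chkLevel_append _ _ _ _ _ (by decide +kernel) (chkLevel_append _ _ _ _ _ (by decide +kernel) (kp9_0) kp9_1) kp9_2

theorem cov11 : Cover 11 lev11 := by
  refine cover_step (css := cp10_0) ?_ cov10
  rw [lq10]
  exact kp10_0

theorem cov12 : Cover 12 lev12 := by
  refine cover_step (css := cp11_0) ?_ cov11
  rw [lq11]
  exact kp11_0

theorem av6_card (A : Multiset V) (h : Av6 A) : card A ≤ 11 := by
  by_contra hcon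
  push Not at hcon
  obtain ⟨A', hA', hc⟩ : ∃ A' ≤ A, card A' = 12 := by
    refine ⟨((A.toList.take 12 : List V) : Multiset V), ?_, ?_⟩
    · conv_rhs => rw [← Multiset.coe_toList A]
      exact Multiset.coe_le.2 (List.take_sublist _ _).subperm
    · rw [Multiset.coe_card, List.length_take, Multiset.length_toList]; omega
  have h' : Av6 A' := fun T hT h0 hs => h T (le_trans hT hA') h0 hs
  obtain ⟨φ, _, v, hv, _⟩ := cov12 A' hc h'
  simp [lev12] at hv

end Pool.Agent.R125.ZS
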