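import Mathlib

/-! Zero-sum sequences over `C_2 + C_3^4` (MP_3fb682_nt): definitions and the statements of the
independent pieces. -/

namespace Pool.Agent.R125.ZS

open Multiset

/-- The group `C_3^4`. -/
abbrev V := Fin 4 → ZMod 3

/-- The group `C_2 + C_3^4`. -/
abbrev G := ZMod 2 × V

/-- `S` has a nonempty zero-sum subsequence of length at most `k`. -/
def HasShort {H : Type} [AddCommGroup H] (k : ℕ) (S : Multiset H) : Prop :=
  ∃ T ≤ S, T ≠ 0 ∧ T.sum = 0 ∧ card T ≤ k

/-- `S` has a nonempty zero-sum subsequence. -/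
def HasZero {H : Type} [AddCommGroup H] (S : Multiset H) : Prop :=
  ∃ T ≤ S, T ≠ 0 ∧ T.sum = 0

/-- Davenport constant. -/
noncomputable def davenport (H : Type) [AddCommGroup H] : ℕ :=
  sInf {d | ∀ S : Multiset H, d ≤ card S → HasZero S}

/-- The constant `η(H)`. -/
noncomputable def eta (H : Type) [AddCommGroup H] : ℕ :=
  sInf {d | ∀ S : Multiset H, d ≤ card S → HasShort (AddMonoid.exponent H) S}

/-- The set `C_0(H)`. -/
def C0 (H : Type) [AddCommGroup H] : Set ℕ :=
  {t | davenport H + 1 ≤ t ∧ t ≤ eta H - 1 ∧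
    ∀ S : Multiset H, card S = t → S.sum = 0 → HasShort (AddMonoid.exponent H) S}

/-- The pair `(A, B)` stands for the sequence over `G` with even part `A` and odd part `B`;
it is short-free. -/
def SF (A B : Multiset V) : Prop :=
  ∀ A' ≤ A, ∀ B' ≤ B, A'.sum + B'.sum = 0 → Even (card B') →
    card A' + card B' ≤ 6 → A' = 0 ∧ B' = 0

/-- `(A, B)` has zero sum in `V`; every proper nonempty sub-pair of sum zero in `V` with an even
number of odd elements has size in `[elo, ehi]`, and with an odd number in `[olo, ohi]`. -/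
structure Cfg (olo ohi elo ehi : ℕ) (A B : Multiset V) : Prop where
  sum0 : A.sum + B.sum = 0
  ev : ∀ A' ≤ A, ∀ B' ≤ B, A'.sum + B'.sum = 0 → Even (card B') → 0 < card A' + card B' →
    card A' + card B' < card A + card B → elo ≤ card A' + card B' ∧ card A' + card B' ≤ ehi
  od : ∀ A' ≤ A, ∀ B' ≤ B, A'.sum + B'.sum = 0 → ¬ Even (card B') → 0 < card A' + card B' →
    card A' + card B' < card A + card B → olo ≤ card A' + card B' ∧ card A' + card B' ≤ ohi

/-- No nonempty zero-sum subsequence of length at most 6. -/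
def Av6 (A : Multiset V) : Prop := ∀ A' ≤ A, A' ≠ 0 → A'.sum = 0 → 7 ≤ card A'

/-- No configuration with `n` elements, parity of the number of odd elements as given. -/
def No (n : ℕ) (par : Prop) (olo ohi elo ehi : ℕ) (cond : ℕ → Prop) : Prop :=
  ∀ A B : Multiset V, card A + card B = n → (Even (card B) ↔ par) → cond (card A) →
    Cfg olo ohi elo ehi A B → False

/-! ### Statements of the pieces -/

/-- Piece RED15. -/
def StmtRed15 : Prop :=
  No 14 False 6 7 7 8 (fun _ => True) → No 13 False 5 6 7 8 (fun _ => True) →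
  No 12 False 4 5 7 8 (fun _ => True) → No 11 False 4 4 7 7 (fun _ => True) →
  No 15 True 5 10 7 8 (fun _ => True) →
  ∀ A B : Multiset V, card A + card B = 15 → Even (card B) → A.sum + B.sum = 0 → ¬ SF A B

/-- Piece RED17. -/
def StmtRed17 : Prop :=
  (∀ A : Multiset V, Av6 A → card A ≤ 11) →
  No 17 True 1 16 7 10 (fun t => t = 11) →
  No 16 False 6 9 7 10 (fun _ => True) → No 15 False 5 8 7 10 (fun _ => True) →
  No 14 False 4 7 7 10 (fun _ => True) → No 13 False 4 6 7 9 (fun t => t ≤ 8) →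
  No 12 False 5 5 7 7 (fun _ => True) → No 11 False 6 4 7 5 (fun _ => True) →
  ∀ A B : Multiset V, card A + card B = 17 → Even (card B) → A.sum + B.sum = 0 → ¬ SF A B

/-- Value modulo 3 of the polynomial `∑ c C(a,j) C(b,k)`. -/
def pval (co : List (ℕ × ℕ × ℕ)) (a b : ℕ) : ℕ :=
  (co.map (fun q => q.1 * (Nat.choose a q.2.1) * (Nat.choose b q.2.2))).sum

/-- The check of a certificate: all terms have degree at most `t + s - 9`, and the symmetrised
polynomial with signs vanishes at all allowed `(a, b)`, not at `(0, 0)`. -/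
def pcheck (t s : ℕ) (al : ℕ → ℕ → Bool) (co : List (ℕ × ℕ × ℕ)) : Bool :=
  let F : ℕ → ℕ → ℕ := fun a b => if (a + b) % 2 = 0 then pval co a b else 2 * pval co a b
  (co.all (fun q => decide (q.2.1 + q.2.2 + 9 ≤ t + s))) &&
  (List.range (t + 1)).all (fun a => (List.range (s + 1)).all (fun b =>
    (decide (a + b = 0)) || (decide (a + b = t + s)) || !(al a b) ||
      (F a b + F (t - a) (s - b)) % 3 == 0)) &&
  !((F 0 0 + F t s) % 3 == 0)

/-- Piece POLY. -/
def StmtPoly : Prop :=
  ∀ (t s : ℕ) (al : ℕ → ℕ → Bool) (co : List (ℕ × ℕ × ℕ)), pcheck t s al co = true →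
  ∀ A B : Multiset V, card A = t → card B = s → A.sum + B.sum = 0 →
    (∀ A' ≤ A, ∀ B' ≤ B, A'.sum + B'.sum = 0 → 0 < card A' + card B' →
      card A' + card B' < t + s → al (card A') (card B') = true) → False

/-- Piece EX16. -/
def StmtEx16 : Prop := ∃ S : Multiset G, card S = 16 ∧ S.sum = 0 ∧ ¬ HasShort 6 S

/-- Piece EX19. -/
def StmtEx19 : Prop := ∃ S : Multiset G, card S = 19 ∧ ¬ HasShort 6 S

/-- Piece FIN. -/
def StmtFin : Prop :=
  StmtEx16 → StmtEx19 →
  (∀ A B : Multiset V, card A + card B = 15 → Even (card B) → A.sum + B.sum = 0 → ¬ SF A B) →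
  (∀ A B : Multiset V, card A + card B = 17 → Even (card B) → A.sum + B.sum = 0 → ¬ SF A B) →
  15 ∈ C0 G ∧ 16 ∉ C0 G ∧ 17 ∈ C0 G ∧ ¬ IsAddCyclic G

end Pool.Agent.R125.ZS
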