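import Pool.Agent.R125.ZS.Defs

/-! MP_3fb682_nt, pieces EX16 and EX19: explicit sequences. -/

set_option autoImplicit false

namespace Pool.Agent.R125.ZS

open Multiset

namespace Ex

/-- representatives with natural number digits -/
structure N5 where
  e : ℕ
  a : ℕ
  b : ℕ
  c : ℕ
  d : ℕ

/-- addition -/
def N5.plus (x y : N5) : N5 := ⟨x.e + y.e, x.a + y.a, x.b + y.b, x.c + y.c, x.d + y.d⟩

/-- the element of `G` -/
def N5.val (x : N5) : G := ((x.e : ZMod 2), ![(x.a : ZMod 3), (x.b : ZMod 3), (x.c : ZMod 3), (x.d : ZMod 3)])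

/-- test for zero -/
def N5.isz (x : N5) : Bool :=
  match x.e % 2 with
  | 0 => match x.a % 3 with
    | 0 => match x.b % 3 with
      | 0 => match x.c % 3 with
        | 0 => match x.d % 3 with
          | 0 => true
          | _ => false
        | _ => false
      | _ => false
    | _ => false
  | _ => false

lemma val_plus (x y : N5) : (x.plus y).val = x.val + y.val := by
  unfold N5.plus N5.val
  ext i
  · simp
  · fin_cases i <;> simp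

lemma isz_of (x : N5) (h : x.val = 0) : x.isz = true := by
  unfold N5.val at h
  have h1 : (x.e : ZMod 2) = 0 := congrArg Prod.fst h
  have h2 := congrArg Prod.snd h
  have ha : (x.a : ZMod 3) = 0 := congrFun h2 0
  have hb : (x.b : ZMod 3) = 0 := congrFun h2 1
  have hc : (x.c : ZMod 3) = 0 := congrFun h2 2
  have hd : (x.d : ZMod 3) = 0 := congrFun h2 3
  rw [ZMod.natCast_eq_zero_iff] at h1 ha hb hc hd
  unfold N5.isz
  rw [Nat.mod_eq_zero_of_dvd h1, Nat.mod_eq_zero_of_dvd ha, Nat.mod_eq_zero_of_dvd hb,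
    Nat.mod_eq_zero_of_dvd hc, Nat.mod_eq_zero_of_dvd hd]
  rfl

/-- the enumeration -/
def go : List N5 → ℕ → Bool → N5 → Bool
  | [], _, ne, acc => !(ne && acc.isz)
  | _ :: _, 0, ne, acc => !(ne && acc.isz)
  | x :: l, b + 1, ne, acc => go l (b + 1) ne acc && go l b true (acc.plus x)

lemma go_sound (l : List N5) : ∀ (b : ℕ) (ne : Bool) (acc : N5), go l b ne acc = true →
    ∀ T ≤ (↑(l.map N5.val) : Multiset G), card T ≤ b → (ne = true ∨ T ≠ 0) →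
      acc.val + T.sum ≠ 0 := by
  induction l with
  | nil =>
    intro b ne acc hg T hT _ hne hz
    have hT0 : T = 0 := by simpa using hT
    subst hT0
    rw [sum_zero, add_zero] at hz
    have hne' : ne = true := by simpa using hne
    rw [go, hne', isz_of acc hz] at hg
    simp at hg
  | cons x l ih =>
    intro b ne acc hg T hT hc hne hz
    rcases b with _ | b
    · have hT0 : T = 0 := card_eq_zero.1 (by omega)
      subst hT0
      rw [sum_zero, add_zero] at hz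
      have hne' : ne = true := by simpa using hne
      rw [go, hne', isz_of acc hz] at hg
      simp at hg
    · rw [go, Bool.and_eq_true] at hg
      obtain ⟨g1, g2⟩ := hg
      have hT2 : T ≤ x.val ::ₘ (↑(l.map N5.val) : Multiset G) := hT
      by_cases hx : x.val ∈ T
      · obtain ⟨T', rfl⟩ := exists_cons_of_mem hx
        have hT3 : T' ≤ (↑(l.map N5.val) : Multiset G) := (cons_le_cons_iff _).1 hT2
        rw [card_cons] at hc
        refine ih b true (acc.plus x) g2 T' hT3 (by omega) (Or.inl rfl) ?_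
        rw [val_plus, ← hz, sum_cons, add_assoc]
      · exact ih (b + 1) ne acc g1 T ((le_cons_of_notMem hx).1 hT2) hc hne hz

lemma no_short (l : List N5) (h : go l 6 false ⟨0, 0, 0, 0, 0⟩ = true) :
    ¬ HasShort 6 (↑(l.map N5.val) : Multiset G) := by
  rintro ⟨T, hT, h0, hs, hc⟩
  refine go_sound l 6 false _ h T hT hc (Or.inr h0) ?_
  rw [hs, add_zero]
  unfold N5.val
  ext i
  · simp
  · fin_cases i <;> simp

/-- the sequence of length 16 -/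
def l16 : List N5 := [⟨0, 2, 0, 0, 0⟩, ⟨0, 1, 0, 1, 0⟩, ⟨0, 1, 0, 2, 0⟩, ⟨0, 1, 0, 2, 0⟩,
  ⟨0, 0, 0, 0, 2⟩, ⟨0, 0, 0, 0, 2⟩, ⟨0, 2, 1, 0, 2⟩, ⟨0, 2, 1, 0, 2⟩, ⟨0, 1, 0, 1, 2⟩,
  ⟨0, 0, 1, 1, 2⟩, ⟨1, 2, 2, 0, 0⟩, ⟨1, 0, 2, 1, 0⟩, ⟨1, 0, 2, 1, 0⟩, ⟨1, 1, 2, 2, 0⟩,
  ⟨1, 1, 2, 2, 0⟩, ⟨1, 1, 2, 2, 0⟩]

/-- the sequence of length 19 -/
def l19 : List N5 := [⟨0, 2, 1, 0, 0⟩, ⟨0, 2, 1, 0, 0⟩, ⟨0, 2, 0, 1, 0⟩, ⟨0, 2, 0, 1, 0⟩,
  ⟨0, 2, 0, 0, 1⟩, ⟨0, 2, 0, 0, 1⟩, ⟨0, 0, 1, 1, 1⟩, ⟨1, 1, 0, 0, 0⟩, ⟨1, 1, 0, 0, 0⟩,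
  ⟨1, 1, 0, 0, 0⟩, ⟨1, 1, 0, 0, 0⟩, ⟨1, 1, 0, 0, 0⟩, ⟨1, 0, 1, 0, 0⟩, ⟨1, 0, 1, 0, 0⟩,
  ⟨1, 0, 0, 1, 0⟩, ⟨1, 0, 0, 1, 0⟩, ⟨1, 0, 0, 0, 1⟩, ⟨1, 0, 0, 0, 1⟩, ⟨1, 1, 1, 1, 1⟩]

lemma go16 : go l16 6 false ⟨0, 0, 0, 0, 0⟩ = true := by decide +kernel

lemma go19 : go l19 6 false ⟨0, 0, 0, 0, 0⟩ = true := by decide +kernel

end Ex

open Ex in
theorem ex16 : StmtEx16 := by
  refine ⟨(↑(l16.map N5.val) : Multiset G), rfl, ?_, no_short l16 go16⟩
  rw [sum_coe]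
  decide +kernel

open Ex in
theorem ex19 : StmtEx19 := ⟨(↑(l19.map N5.val) : Multiset G), rfl, no_short l19 go19⟩

end Pool.Agent.R125.ZS
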