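import Pool.Agent.R125.ZS.Defs

/-! MP_3fb682_nt, piece FIN: the final assembly. -/

set_option autoImplicit false

namespace Pool.Agent.R125.ZS

open Multiset

namespace Fi

/-- embedding of the even part -/
def iA (v : V) : G := (0, v)

/-- embedding of the odd part -/
def iB (v : V) : G := (1, v)

lemma sum_iA (A : Multiset V) : (A.map iA).sum = (0, A.sum) := by
  induction A using Multiset.induction_on with
  | empty => rfl
  | cons a A ih =>
    rw [map_cons, sum_cons, sum_cons, ih]
    simp [iA]

lemma sum_iB (B : Multiset V) : (B.map iB).sum = ((card B : ZMod 2), B.sum) := by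
  induction B using Multiset.induction_on with
  | empty => rfl
  | cons a A ih =>
    rw [map_cons, sum_cons, sum_cons, ih]
    simp [iB, add_comm]

lemma split (S : Multiset G) : ∃ A B : Multiset V, S = A.map iA + B.map iB := by
  induction S using Multiset.induction_on with
  | empty => exact ⟨0, 0, rfl⟩
  | cons a S ih =>
    obtain ⟨A, B, rfl⟩ := ih
    have h : a.1 = 0 ∨ a.1 = 1 := by
      have : ∀ x : ZMod 2, x = 0 ∨ x = 1 := by decide
      exact this _
    rcases h with h | h
    · refine ⟨a.2 ::ₘ A, B, ?_⟩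
      rw [map_cons, cons_add]
      congr 1
      exact Prod.ext h rfl
    · refine ⟨A, a.2 ::ₘ B, ?_⟩
      rw [map_cons, add_cons]
      congr 1
      exact Prod.ext h rfl

lemma short_of (n : ℕ) (h : ∀ A B : Multiset V, card A + card B = n → Even (card B) →
    A.sum + B.sum = 0 → ¬ SF A B) (S : Multiset G) (hn : card S = n) (hs : S.sum = 0) :
    HasShort 6 S := by
  obtain ⟨A, B, rfl⟩ := split S
  rw [card_add, card_map, card_map] at hn
  rw [sum_add, sum_iA, sum_iB, Prod.mk_add_mk, zero_add] at hs
  have h1 : (card B : ZMod 2) = 0 := congrArg Prod.fst hs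
  have h2 : A.sum + B.sum = 0 := congrArg Prod.snd hs
  have h3 : Even (card B) := by
    rw [ZMod.natCast_eq_zero_iff] at h1
    exact even_iff_two_dvd.2 h1
  have h4 := h A B hn h3 h2
  unfold SF at h4
  push Not at h4
  obtain ⟨A', hA', B', hB', hs', he', hc', hne⟩ := h4
  refine ⟨A'.map iA + B'.map iB, add_le_add (map_le_map hA') (map_le_map hB'), ?_, ?_, ?_⟩
  · intro h0
    have h5 : A'.map iA = 0 ∧ B'.map iB = 0 := by simpa using h0
    rw [map_eq_zero, map_eq_zero] at h5
    exact hne h5.1 h5.2
  · rw [sum_add, sum_iA, sum_iB, Prod.mk_add_mk, zero_add, hs']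
    have h6 : (card B' : ZMod 2) = 0 := by
      rw [ZMod.natCast_eq_zero_iff]
      exact even_iff_two_dvd.1 he'
    rw [h6]
    rfl
  · rw [card_add, card_map, card_map]
    exact hc'

lemma six_nsmul (g : G) : 6 • g = 0 := by
  have h2 : ∀ x : ZMod 2, 6 • x = 0 := by decide
  have h3 : ∀ x : ZMod 3, 6 • x = 0 := by decide
  ext i
  · exact h2 _
  · exact h3 _

lemma exp6 : AddMonoid.exponent G = 6 := by
  apply Nat.dvd_antisymm
  · exact AddMonoid.exponent_dvd_of_forall_nsmul_eq_zero six_nsmul
  · have h := AddMonoid.exponent_nsmul_eq_zero ((1, fun _ => 1) : G)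
    have h1 : AddMonoid.exponent G • (1 : ZMod 2) = 0 := congrArg Prod.fst h
    have h2 : AddMonoid.exponent G • (1 : ZMod 3) = 0 := congrFun (congrArg Prod.snd h) 0
    rw [nsmul_one, ZMod.natCast_eq_zero_iff] at h1 h2
    exact Nat.Coprime.mul_dvd_of_dvd_of_dvd (by norm_num) h1 h2

lemma dav_le (h15 : ∀ S : Multiset G, card S = 15 → S.sum = 0 → HasShort 6 S) :
    davenport G ≤ 14 := by
  refine Nat.sInf_le ?_
  intro S hS
  obtain ⟨S', hS', hc'⟩ : ∃ S' ≤ S, card S' = 14 := by
    have h1 : 0 < card (powersetCard 14 S) := by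
      rw [card_powersetCard]
      exact Nat.choose_pos hS
    obtain ⟨S', h2⟩ := card_pos_iff_exists_mem.1 h1
    rw [mem_powersetCard] at h2
    exact ⟨S', h2.1, h2.2⟩
  obtain ⟨T, hT, h0, hs, hc⟩ := h15 ((-S'.sum) ::ₘ S') (by rw [card_cons, hc'])
    (by rw [sum_cons, neg_add_cancel])
  by_cases hx : (-S'.sum) ∈ T
  · obtain ⟨T', rfl⟩ := exists_cons_of_mem hx
    have hT' : T' ≤ S' := (cons_le_cons_iff _).1 hT
    rw [sum_cons] at hs
    rw [card_cons] at hc
    refine ⟨S' - T', tsub_le_self.trans hS', ?_, ?_⟩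
    · intro h1
      have h2 := card_sub hT'
      rw [h1, card_zero] at h2
      omega
    · have h3 : (S' - T').sum + T'.sum = S'.sum := by
        rw [← sum_add, tsub_add_cancel_of_le hT']
      have h4 : T'.sum = S'.sum := by
        have := neg_add_eq_zero.1 hs
        exact this.symm
      rw [h4] at h3
      simpa using h3
  · exact ⟨T, ((le_cons_of_notMem hx).1 hT).trans hS', h0, hs⟩

lemma eta_ge (h19 : StmtEx19) : 20 ≤ eta G := by
  have hne : {d | ∀ S : Multiset G, d ≤ card S →
      HasShort (AddMonoid.exponent G) S}.Nonempty := by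
    refine ⟨6 * Fintype.card G, fun S hS => ?_⟩
    rw [exp6]
    have hex : ∃ g, 6 ≤ count g S := by
      by_contra hn
      push Not at hn
      have h1 := toFinset_sum_count_eq S
      have h2 : ∑ a ∈ S.toFinset, count a S ≤ ∑ a ∈ S.toFinset, 5 :=
        Finset.sum_le_sum fun a _ => by
          have := hn a
          omega
      rw [h1, Finset.sum_const, smul_eq_mul] at h2
      have h3 : S.toFinset.card ≤ Fintype.card G := Finset.card_le_univ _
      have h4 : 0 < Fintype.card G := Fintype.card_pos
      omega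
    obtain ⟨g, hg⟩ := hex
    refine ⟨replicate 6 g, le_count_iff_replicate_le.1 hg, ?_, ?_, ?_⟩
    · intro h
      have := congrArg card h
      simp at this
    · rw [sum_replicate]
      exact six_nsmul g
    · simp
  have hmem := Nat.sInf_mem hne
  by_contra hlt
  obtain ⟨S, hS, hn⟩ := h19
  have h1 := hmem S (by
    rw [hS]
    unfold eta at hlt
    exact Nat.lt_succ_iff.1 (not_le.1 hlt))
  rw [exp6] at h1
  exact hn h1

end Fi

open Fi in
theorem fin : StmtFin := by
  intro h16 h19 s15 s17
  have t15 := short_of 15 s15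
  have t17 := short_of 17 s17
  have hd := dav_le t15
  have he := eta_ge h19
  refine ⟨⟨by omega, by omega, fun S hS h0 => ?_⟩, ?_, ⟨by omega, by omega, fun S hS h0 => ?_⟩, ?_⟩
  · rw [exp6]
    exact t15 S hS h0
  · rintro ⟨-, -, h⟩
    obtain ⟨S, hS, h0, hn⟩ := h16
    have h1 := h S hS h0
    rw [exp6] at h1
    exact hn h1
  · rw [exp6]
    exact t17 S hS h0
  · intro hcyc
    have h1 := IsAddCyclic.exponent_eq_card (α := G)
    rw [exp6, Nat.card_eq_fintype_card] at h1
    have h2 : Fintype.card G = 162 := by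
      simp [Fintype.card_prod, ZMod.card]
    omega

end Pool.Agent.R125.ZS
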