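import Pool.Agent.R125.ZS.Stm2

/-! Orbit representatives of the sequences without short zero-sum subsequences. -/

namespace Pool.Agent.R125.ZS

/-- representatives of length 0 -/
def lev0 : List (List ℕ) := [[]]

/-- representatives of length 1 -/
def lev1 : List (List ℕ) := [[1]]

/-- representatives of length 2 -/
def lev2 : List (List ℕ) := [[1, 1],
  [1, 3]]

/-- representatives of length 3 -/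
def lev3 : List (List ℕ) := [[1, 1, 3],
  [1, 3, 4],
  [1, 3, 9]]

/-- representatives of length 4 -/
def lev4 : List (List ℕ) := [[1, 1, 3, 3],
  [1, 1, 3, 4],
  [1, 1, 3, 9],
  [1, 3, 4, 9],
  [1, 3, 9, 13],
  [1, 3, 9, 14],
  [1, 3, 9, 27]]

/-- representatives of length 5 -/
def lev5 : List (List ℕ) := [[1, 1, 3, 3, 9],
  [1, 1, 3, 4, 9],
  [1, 1, 3, 9, 12],
  [1, 1, 3, 9, 13],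
  [1, 1, 3, 9, 14],
  [1, 1, 3, 9, 27],
  [1, 3, 4, 9, 10],
  [1, 3, 4, 9, 13],
  [1, 3, 4, 9, 14],
  [1, 3, 4, 9, 27],
  [1, 3, 9, 13, 27],
  [1, 3, 9, 14, 27],
  [1, 3, 9, 27, 40],
  [1, 3, 9, 27, 41]]

/-- representatives of length 6 -/
def lev6 : List (List ℕ) := [[1, 1, 3, 3, 9, 9],
  [1, 1, 3, 3, 9, 10],
  [1, 1, 3, 3, 9, 13],
  [1, 1, 3, 3, 9, 14],
  [1, 1, 3, 3, 9, 27],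
  [1, 1, 3, 4, 9, 10],
  [1, 1, 3, 4, 9, 12],
  [1, 1, 3, 4, 9, 13],
  [1, 1, 3, 4, 9, 14],
  [1, 1, 3, 4, 9, 27],
  [1, 1, 3, 9, 12, 27],
  [1, 1, 3, 9, 13, 27],
  [1, 1, 3, 9, 14, 27],
  [1, 1, 3, 9, 27, 39],
  [1, 1, 3, 9, 27, 40],
  [1, 1, 3, 9, 27, 41],
  [1, 1, 3, 9, 27, 42],
  [1, 1, 3, 9, 27, 43],
  [1, 3, 4, 9, 10, 14],
  [1, 3, 4, 9, 10, 27],
  [1, 3, 4, 9, 13, 27],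
  [1, 3, 4, 9, 14, 27],
  [1, 3, 4, 9, 27, 36],
  [1, 3, 4, 9, 27, 37],
  [1, 3, 4, 9, 27, 38],
  [1, 3, 4, 9, 27, 40],
  [1, 3, 4, 9, 27, 41],
  [1, 3, 4, 9, 27, 44],
  [1, 3, 4, 9, 27, 73],
  [1, 3, 9, 13, 27, 31],
  [1, 3, 9, 13, 27, 32],
  [1, 3, 9, 13, 27, 41],
  [1, 3, 9, 13, 27, 58],
  [1, 3, 9, 14, 27, 32],
  [1, 3, 9, 14, 27, 40]]

/-- representatives of length 7 -/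
def lev7 : List (List ℕ) := [[1, 1, 3, 3, 9, 9, 13],
  [1, 1, 3, 3, 9, 9, 27],
  [1, 1, 3, 3, 9, 10, 12],
  [1, 1, 3, 3, 9, 10, 27],
  [1, 1, 3, 3, 9, 13, 27],
  [1, 1, 3, 3, 9, 14, 27],
  [1, 1, 3, 3, 9, 27, 36],
  [1, 1, 3, 3, 9, 27, 37],
  [1, 1, 3, 3, 9, 27, 38],
  [1, 1, 3, 3, 9, 27, 40],
  [1, 1, 3, 3, 9, 27, 41],
  [1, 1, 3, 3, 9, 27, 44],
  [1, 1, 3, 3, 9, 27, 76],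
  [1, 1, 3, 4, 9, 10, 14],
  [1, 1, 3, 4, 9, 10, 27],
  [1, 1, 3, 4, 9, 12, 27],
  [1, 1, 3, 4, 9, 13, 27],
  [1, 1, 3, 4, 9, 14, 27],
  [1, 1, 3, 4, 9, 27, 36],
  [1, 1, 3, 4, 9, 27, 37],
  [1, 1, 3, 4, 9, 27, 38],
  [1, 1, 3, 4, 9, 27, 39],
  [1, 1, 3, 4, 9, 27, 40],
  [1, 1, 3, 4, 9, 27, 41],
  [1, 1, 3, 4, 9, 27, 42],
  [1, 1, 3, 4, 9, 27, 43],
  [1, 1, 3, 4, 9, 27, 44],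
  [1, 1, 3, 4, 9, 27, 75],
  [1, 1, 3, 9, 12, 27, 30],
  [1, 1, 3, 9, 12, 27, 31],
  [1, 1, 3, 9, 12, 27, 32],
  [1, 1, 3, 9, 12, 27, 39],
  [1, 1, 3, 9, 12, 27, 40],
  [1, 1, 3, 9, 12, 27, 41],
  [1, 1, 3, 9, 12, 27, 42],
  [1, 1, 3, 9, 12, 27, 43],
  [1, 1, 3, 9, 12, 27, 58],
  [1, 1, 3, 9, 12, 27, 59],
  [1, 1, 3, 9, 12, 27, 67],
  [1, 1, 3, 9, 13, 27, 31],
  [1, 1, 3, 9, 13, 27, 32],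
  [1, 1, 3, 9, 13, 27, 39],
  [1, 1, 3, 9, 13, 27, 41],
  [1, 1, 3, 9, 13, 27, 42],
  [1, 1, 3, 9, 13, 27, 43],
  [1, 1, 3, 9, 13, 27, 58],
  [1, 1, 3, 9, 13, 27, 66],
  [1, 1, 3, 9, 14, 27, 32],
  [1, 1, 3, 9, 14, 27, 40],
  [1, 1, 3, 9, 14, 27, 42],
  [1, 1, 3, 9, 14, 27, 43],
  [1, 3, 4, 9, 10, 14, 27],
  [1, 3, 4, 9, 10, 27, 28],
  [1, 3, 4, 9, 10, 27, 30],
  [1, 3, 4, 9, 10, 27, 31],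
  [1, 3, 4, 9, 10, 27, 32],
  [1, 3, 4, 9, 10, 27, 39],
  [1, 3, 4, 9, 10, 27, 40],
  [1, 3, 4, 9, 10, 27, 41],
  [1, 3, 4, 9, 10, 27, 42],
  [1, 3, 4, 9, 10, 27, 43],
  [1, 3, 4, 9, 10, 27, 55],
  [1, 3, 4, 9, 10, 27, 57],
  [1, 3, 4, 9, 10, 27, 66],
  [1, 3, 4, 9, 10, 27, 68],
  [1, 3, 4, 9, 13, 27, 32],
  [1, 3, 4, 9, 13, 27, 37],
  [1, 3, 4, 9, 13, 27, 38],
  [1, 3, 4, 9, 13, 27, 40],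
  [1, 3, 4, 9, 13, 27, 41],
  [1, 3, 4, 9, 13, 27, 44],
  [1, 3, 4, 9, 13, 27, 63],
  [1, 3, 4, 9, 13, 27, 65],
  [1, 3, 4, 9, 14, 27, 32],
  [1, 3, 4, 9, 14, 27, 36],
  [1, 3, 4, 9, 14, 27, 37],
  [1, 3, 4, 9, 14, 27, 38],
  [1, 3, 4, 9, 14, 27, 39],
  [1, 3, 4, 9, 14, 27, 40],
  [1, 3, 4, 9, 14, 27, 43],
  [1, 3, 4, 9, 14, 27, 64],
  [1, 3, 4, 9, 14, 27, 65],
  [1, 3, 4, 9, 14, 27, 73],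
  [1, 3, 4, 9, 27, 37, 50],
  [1, 3, 4, 9, 27, 38, 49],
  [1, 3, 9, 13, 27, 31, 38],
  [1, 3, 9, 13, 27, 31, 41],
  [1, 3, 9, 13, 27, 32, 38],
  [1, 3, 9, 13, 27, 32, 43],
  [1, 3, 9, 13, 27, 32, 64],
  [1, 3, 9, 14, 27, 32, 42]]

/-- representatives of length 8 -/
def lev8 : List (List ℕ) := [[1, 1, 3, 3, 9, 9, 13, 27],
  [1, 1, 3, 3, 9, 9, 27, 27],
  [1, 1, 3, 3, 9, 9, 27, 28],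
  [1, 1, 3, 3, 9, 9, 27, 31],
  [1, 1, 3, 3, 9, 9, 27, 32],
  [1, 1, 3, 3, 9, 9, 27, 40],
  [1, 1, 3, 3, 9, 9, 27, 41],
  [1, 1, 3, 3, 9, 9, 27, 67],
  [1, 1, 3, 3, 9, 9, 27, 68],
  [1, 1, 3, 3, 9, 10, 12, 27],
  [1, 1, 3, 3, 9, 10, 27, 28],
  [1, 1, 3, 3, 9, 10, 27, 30],
  [1, 1, 3, 3, 9, 10, 27, 31],
  [1, 1, 3, 3, 9, 10, 27, 32],
  [1, 1, 3, 3, 9, 10, 27, 36],
  [1, 1, 3, 3, 9, 10, 27, 37],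
  [1, 1, 3, 3, 9, 10, 27, 38],
  [1, 1, 3, 3, 9, 10, 27, 39],
  [1, 1, 3, 3, 9, 10, 27, 40],
  [1, 1, 3, 3, 9, 10, 27, 41],
  [1, 1, 3, 3, 9, 10, 27, 42],
  [1, 1, 3, 3, 9, 10, 27, 43],
  [1, 1, 3, 3, 9, 10, 27, 44],
  [1, 1, 3, 3, 9, 10, 27, 66],
  [1, 1, 3, 3, 9, 10, 27, 67],
  [1, 1, 3, 3, 9, 10, 27, 69],
  [1, 1, 3, 3, 9, 13, 27, 31],
  [1, 1, 3, 3, 9, 13, 27, 32],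
  [1, 1, 3, 3, 9, 13, 27, 36],
  [1, 1, 3, 3, 9, 13, 27, 37],
  [1, 1, 3, 3, 9, 13, 27, 38],
  [1, 1, 3, 3, 9, 13, 27, 40],
  [1, 1, 3, 3, 9, 13, 27, 41],
  [1, 1, 3, 3, 9, 13, 27, 44],
  [1, 1, 3, 3, 9, 13, 27, 63],
  [1, 1, 3, 3, 9, 13, 27, 64],
  [1, 1, 3, 3, 9, 14, 27, 32],
  [1, 1, 3, 3, 9, 14, 27, 36],
  [1, 1, 3, 3, 9, 14, 27, 37],
  [1, 1, 3, 3, 9, 14, 27, 38],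
  [1, 1, 3, 3, 9, 14, 27, 39],
  [1, 1, 3, 3, 9, 14, 27, 40],
  [1, 1, 3, 3, 9, 14, 27, 43],
  [1, 1, 3, 3, 9, 14, 27, 63],
  [1, 1, 3, 3, 9, 14, 27, 65],
  [1, 1, 3, 3, 9, 27, 36, 49],
  [1, 1, 3, 3, 9, 27, 37, 48],
  [1, 1, 3, 4, 9, 10, 14, 27],
  [1, 1, 3, 4, 9, 10, 27, 28],
  [1, 1, 3, 4, 9, 10, 27, 30],
  [1, 1, 3, 4, 9, 10, 27, 31],
  [1, 1, 3, 4, 9, 10, 27, 32],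
  [1, 1, 3, 4, 9, 10, 27, 39],
  [1, 1, 3, 4, 9, 10, 27, 40],
  [1, 1, 3, 4, 9, 10, 27, 41],
  [1, 1, 3, 4, 9, 10, 27, 42],
  [1, 1, 3, 4, 9, 10, 27, 43],
  [1, 1, 3, 4, 9, 10, 27, 66],
  [1, 1, 3, 4, 9, 10, 27, 68],
  [1, 1, 3, 4, 9, 12, 27, 30],
  [1, 1, 3, 4, 9, 12, 27, 31],
  [1, 1, 3, 4, 9, 12, 27, 32],
  [1, 1, 3, 4, 9, 12, 27, 36],
  [1, 1, 3, 4, 9, 12, 27, 37],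
  [1, 1, 3, 4, 9, 12, 27, 38],
  [1, 1, 3, 4, 9, 12, 27, 39],
  [1, 1, 3, 4, 9, 12, 27, 40],
  [1, 1, 3, 4, 9, 12, 27, 41],
  [1, 1, 3, 4, 9, 12, 27, 42],
  [1, 1, 3, 4, 9, 12, 27, 43],
  [1, 1, 3, 4, 9, 12, 27, 44],
  [1, 1, 3, 4, 9, 12, 27, 63],
  [1, 1, 3, 4, 9, 12, 27, 64],
  [1, 1, 3, 4, 9, 13, 27, 31],
  [1, 1, 3, 4, 9, 13, 27, 32],
  [1, 1, 3, 4, 9, 13, 27, 36],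
  [1, 1, 3, 4, 9, 13, 27, 37],
  [1, 1, 3, 4, 9, 13, 27, 38],
  [1, 1, 3, 4, 9, 13, 27, 39],
  [1, 1, 3, 4, 9, 13, 27, 40],
  [1, 1, 3, 4, 9, 13, 27, 41],
  [1, 1, 3, 4, 9, 13, 27, 42],
  [1, 1, 3, 4, 9, 13, 27, 43],
  [1, 1, 3, 4, 9, 13, 27, 44],
  [1, 1, 3, 4, 9, 13, 27, 63],
  [1, 1, 3, 4, 9, 13, 27, 65],
  [1, 1, 3, 4, 9, 14, 27, 32],
  [1, 1, 3, 4, 9, 14, 27, 36],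
  [1, 1, 3, 4, 9, 14, 27, 37],
  [1, 1, 3, 4, 9, 14, 27, 38],
  [1, 1, 3, 4, 9, 14, 27, 39],
  [1, 1, 3, 4, 9, 14, 27, 40],
  [1, 1, 3, 4, 9, 14, 27, 41],
  [1, 1, 3, 4, 9, 14, 27, 42],
  [1, 1, 3, 4, 9, 14, 27, 43],
  [1, 1, 3, 4, 9, 14, 27, 44],
  [1, 1, 3, 4, 9, 14, 27, 64],
  [1, 1, 3, 4, 9, 14, 27, 65],
  [1, 1, 3, 4, 9, 27, 36, 48],
  [1, 1, 3, 4, 9, 27, 37, 50],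
  [1, 1, 3, 4, 9, 27, 38, 49],
  [1, 1, 3, 9, 12, 27, 30, 37],
  [1, 1, 3, 9, 12, 27, 30, 38],
  [1, 1, 3, 9, 12, 27, 30, 40],
  [1, 1, 3, 9, 12, 27, 30, 42],
  [1, 1, 3, 9, 12, 27, 30, 43],
  [1, 1, 3, 9, 12, 27, 30, 44],
  [1, 1, 3, 9, 12, 27, 30, 46],
  [1, 1, 3, 9, 12, 27, 31, 37],
  [1, 1, 3, 9, 12, 27, 31, 39],
  [1, 1, 3, 9, 12, 27, 31, 42],
  [1, 1, 3, 9, 12, 27, 31, 43],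
  [1, 1, 3, 9, 12, 27, 31, 44],
  [1, 1, 3, 9, 12, 27, 32, 38],
  [1, 1, 3, 9, 12, 27, 32, 42],
  [1, 1, 3, 9, 12, 27, 32, 43],
  [1, 1, 3, 9, 12, 27, 32, 44],
  [1, 1, 3, 9, 12, 27, 32, 65],
  [1, 1, 3, 9, 12, 27, 42, 58],
  [1, 1, 3, 9, 12, 27, 42, 59],
  [1, 1, 3, 9, 12, 27, 43, 58],
  [1, 1, 3, 9, 13, 27, 31, 38],
  [1, 1, 3, 9, 13, 27, 31, 41],
  [1, 1, 3, 9, 13, 27, 31, 42],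
  [1, 1, 3, 9, 13, 27, 31, 43],
  [1, 1, 3, 9, 13, 27, 32, 38],
  [1, 1, 3, 9, 13, 27, 32, 43],
  [1, 1, 3, 9, 13, 27, 32, 44],
  [1, 1, 3, 9, 13, 27, 32, 64],
  [1, 1, 3, 9, 13, 27, 42, 58],
  [1, 1, 3, 9, 14, 27, 32, 42],
  [1, 3, 4, 9, 10, 14, 27, 28],
  [1, 3, 4, 9, 10, 14, 27, 30],
  [1, 3, 4, 9, 10, 14, 27, 31],
  [1, 3, 4, 9, 10, 14, 27, 32],
  [1, 3, 4, 9, 10, 14, 27, 39],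
  [1, 3, 4, 9, 10, 14, 27, 40],
  [1, 3, 4, 9, 10, 14, 27, 41],
  [1, 3, 4, 9, 10, 14, 27, 42],
  [1, 3, 4, 9, 10, 14, 27, 43],
  [1, 3, 4, 9, 10, 14, 27, 55],
  [1, 3, 4, 9, 10, 27, 28, 39],
  [1, 3, 4, 9, 10, 27, 28, 40],
  [1, 3, 4, 9, 10, 27, 28, 41],
  [1, 3, 4, 9, 10, 27, 28, 44],
  [1, 3, 4, 9, 10, 27, 30, 36],
  [1, 3, 4, 9, 10, 27, 30, 37],
  [1, 3, 4, 9, 10, 27, 30, 38],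
  [1, 3, 4, 9, 10, 27, 31, 37],
  [1, 3, 4, 9, 10, 27, 31, 38],
  [1, 3, 4, 9, 10, 27, 31, 41],
  [1, 3, 4, 9, 10, 27, 31, 44],
  [1, 3, 4, 9, 10, 27, 32, 38],
  [1, 3, 4, 9, 10, 27, 32, 40],
  [1, 3, 4, 9, 10, 27, 32, 43],
  [1, 3, 4, 9, 10, 27, 32, 63],
  [1, 3, 4, 9, 10, 27, 39, 52],
  [1, 3, 4, 9, 10, 27, 40, 55],
  [1, 3, 4, 9, 10, 27, 41, 55],
  [1, 3, 4, 9, 10, 27, 42, 49],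
  [1, 3, 4, 9, 13, 27, 32, 37],
  [1, 3, 4, 9, 13, 27, 32, 40],
  [1, 3, 4, 9, 13, 27, 32, 43],
  [1, 3, 4, 9, 13, 27, 32, 69],
  [1, 3, 4, 9, 13, 27, 37, 50],
  [1, 3, 4, 9, 13, 27, 38, 49],
  [1, 3, 4, 9, 14, 27, 32, 36],
  [1, 3, 4, 9, 14, 27, 32, 39],
  [1, 3, 4, 9, 14, 27, 32, 42],
  [1, 3, 4, 9, 14, 27, 32, 53],
  [1, 3, 4, 9, 14, 27, 36, 46],
  [1, 3, 4, 9, 14, 27, 36, 48],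
  [1, 3, 4, 9, 14, 27, 37, 50],
  [1, 3, 9, 14, 27, 32, 42, 53]]

/-- representatives of length 9 -/
def lev9 : List (List ℕ) := [[1, 1, 3, 3, 9, 9, 13, 27, 27],
  [1, 1, 3, 3, 9, 9, 13, 27, 28],
  [1, 1, 3, 3, 9, 9, 13, 27, 31],
  [1, 1, 3, 3, 9, 9, 13, 27, 32],
  [1, 1, 3, 3, 9, 9, 13, 27, 40],
  [1, 1, 3, 3, 9, 9, 13, 27, 41],
  [1, 1, 3, 3, 9, 9, 27, 27, 40],
  [1, 1, 3, 3, 9, 9, 27, 27, 41],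
  [1, 1, 3, 3, 9, 9, 27, 27, 44],
  [1, 1, 3, 3, 9, 9, 27, 28, 30],
  [1, 1, 3, 3, 9, 9, 27, 28, 39],
  [1, 1, 3, 3, 9, 9, 27, 28, 40],
  [1, 1, 3, 3, 9, 9, 27, 28, 41],
  [1, 1, 3, 3, 9, 9, 27, 28, 42],
  [1, 1, 3, 3, 9, 9, 27, 28, 43],
  [1, 1, 3, 3, 9, 9, 27, 28, 51],
  [1, 1, 3, 3, 9, 9, 27, 28, 67],
  [1, 1, 3, 3, 9, 9, 27, 31, 37],
  [1, 1, 3, 3, 9, 9, 27, 31, 38],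
  [1, 1, 3, 3, 9, 9, 27, 31, 46],
  [1, 1, 3, 3, 9, 9, 27, 32, 38],
  [1, 1, 3, 3, 9, 9, 27, 32, 68],
  [1, 1, 3, 3, 9, 10, 12, 27, 28],
  [1, 1, 3, 3, 9, 10, 12, 27, 31],
  [1, 1, 3, 3, 9, 10, 12, 27, 32],
  [1, 1, 3, 3, 9, 10, 12, 27, 36],
  [1, 1, 3, 3, 9, 10, 12, 27, 37],
  [1, 1, 3, 3, 9, 10, 12, 27, 38],
  [1, 1, 3, 3, 9, 10, 12, 27, 40],
  [1, 1, 3, 3, 9, 10, 12, 27, 41],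
  [1, 1, 3, 3, 9, 10, 12, 27, 44],
  [1, 1, 3, 3, 9, 10, 27, 28, 38],
  [1, 1, 3, 3, 9, 10, 27, 28, 39],
  [1, 1, 3, 3, 9, 10, 27, 28, 40],
  [1, 1, 3, 3, 9, 10, 27, 28, 41],
  [1, 1, 3, 3, 9, 10, 27, 28, 42],
  [1, 1, 3, 3, 9, 10, 27, 28, 44],
  [1, 1, 3, 3, 9, 10, 27, 28, 48],
  [1, 1, 3, 3, 9, 10, 27, 30, 36],
  [1, 1, 3, 3, 9, 10, 27, 30, 37],
  [1, 1, 3, 3, 9, 10, 27, 30, 38],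
  [1, 1, 3, 3, 9, 10, 27, 30, 40],
  [1, 1, 3, 3, 9, 10, 27, 30, 46],
  [1, 1, 3, 3, 9, 10, 27, 31, 36],
  [1, 1, 3, 3, 9, 10, 27, 31, 37],
  [1, 1, 3, 3, 9, 10, 27, 31, 38],
  [1, 1, 3, 3, 9, 10, 27, 31, 39],
  [1, 1, 3, 3, 9, 10, 27, 31, 41],
  [1, 1, 3, 3, 9, 10, 27, 31, 44],
  [1, 1, 3, 3, 9, 10, 27, 31, 45],
  [1, 1, 3, 3, 9, 10, 27, 32, 36],
  [1, 1, 3, 3, 9, 10, 27, 32, 37],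
  [1, 1, 3, 3, 9, 10, 27, 32, 38],
  [1, 1, 3, 3, 9, 10, 27, 32, 40],
  [1, 1, 3, 3, 9, 10, 27, 32, 41],
  [1, 1, 3, 3, 9, 10, 27, 32, 43],
  [1, 1, 3, 3, 9, 10, 27, 32, 47],
  [1, 1, 3, 3, 9, 10, 27, 32, 67],
  [1, 1, 3, 3, 9, 10, 27, 36, 49],
  [1, 1, 3, 3, 9, 10, 27, 37, 48],
  [1, 1, 3, 3, 9, 10, 27, 38, 50],
  [1, 1, 3, 3, 9, 13, 27, 31, 36],
  [1, 1, 3, 3, 9, 13, 27, 31, 38],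
  [1, 1, 3, 3, 9, 13, 27, 31, 41],
  [1, 1, 3, 3, 9, 13, 27, 31, 44],
  [1, 1, 3, 3, 9, 13, 27, 32, 37],
  [1, 1, 3, 3, 9, 13, 27, 32, 38],
  [1, 1, 3, 3, 9, 13, 27, 32, 40],
  [1, 1, 3, 3, 9, 13, 27, 32, 43],
  [1, 1, 3, 3, 9, 13, 27, 32, 64],
  [1, 1, 3, 3, 9, 13, 27, 36, 49],
  [1, 1, 3, 3, 9, 13, 27, 37, 48],
  [1, 1, 3, 3, 9, 14, 27, 32, 36],
  [1, 1, 3, 3, 9, 14, 27, 32, 37],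
  [1, 1, 3, 3, 9, 14, 27, 32, 39],
  [1, 1, 3, 3, 9, 14, 27, 32, 42],
  [1, 1, 3, 3, 9, 14, 27, 32, 45],
  [1, 1, 3, 3, 9, 14, 27, 36, 49],
  [1, 1, 3, 3, 9, 14, 27, 38, 50],
  [1, 1, 3, 4, 9, 10, 14, 27, 28],
  [1, 1, 3, 4, 9, 10, 14, 27, 30],
  [1, 1, 3, 4, 9, 10, 14, 27, 31],
  [1, 1, 3, 4, 9, 10, 14, 27, 32],
  [1, 1, 3, 4, 9, 10, 14, 27, 39],
  [1, 1, 3, 4, 9, 10, 14, 27, 40],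
  [1, 1, 3, 4, 9, 10, 14, 27, 41],
  [1, 1, 3, 4, 9, 10, 14, 27, 42],
  [1, 1, 3, 4, 9, 10, 14, 27, 43],
  [1, 1, 3, 4, 9, 10, 27, 28, 39],
  [1, 1, 3, 4, 9, 10, 27, 28, 40],
  [1, 1, 3, 4, 9, 10, 27, 28, 41],
  [1, 1, 3, 4, 9, 10, 27, 28, 44],
  [1, 1, 3, 4, 9, 10, 27, 30, 36],
  [1, 1, 3, 4, 9, 10, 27, 30, 37],
  [1, 1, 3, 4, 9, 10, 27, 30, 38],
  [1, 1, 3, 4, 9, 10, 27, 30, 39],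
  [1, 1, 3, 4, 9, 10, 27, 30, 42],
  [1, 1, 3, 4, 9, 10, 27, 31, 37],
  [1, 1, 3, 4, 9, 10, 27, 31, 38],
  [1, 1, 3, 4, 9, 10, 27, 31, 41],
  [1, 1, 3, 4, 9, 10, 27, 31, 44],
  [1, 1, 3, 4, 9, 10, 27, 32, 38],
  [1, 1, 3, 4, 9, 10, 27, 32, 40],
  [1, 1, 3, 4, 9, 10, 27, 32, 43],
  [1, 1, 3, 4, 9, 12, 27, 30, 37],
  [1, 1, 3, 4, 9, 12, 27, 30, 40],
  [1, 1, 3, 4, 9, 12, 27, 30, 42],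
  [1, 1, 3, 4, 9, 12, 27, 30, 43],
  [1, 1, 3, 4, 9, 12, 27, 30, 44],
  [1, 1, 3, 4, 9, 12, 27, 31, 36],
  [1, 1, 3, 4, 9, 12, 27, 31, 39],
  [1, 1, 3, 4, 9, 12, 27, 31, 42],
  [1, 1, 3, 4, 9, 12, 27, 31, 43],
  [1, 1, 3, 4, 9, 12, 27, 31, 44],
  [1, 1, 3, 4, 9, 12, 27, 32, 38],
  [1, 1, 3, 4, 9, 12, 27, 32, 41],
  [1, 1, 3, 4, 9, 12, 27, 32, 42],
  [1, 1, 3, 4, 9, 12, 27, 32, 43],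
  [1, 1, 3, 4, 9, 12, 27, 32, 44],
  [1, 1, 3, 4, 9, 12, 27, 36, 48],
  [1, 1, 3, 4, 9, 12, 27, 37, 50],
  [1, 1, 3, 4, 9, 12, 27, 38, 49],
  [1, 1, 3, 4, 9, 13, 27, 31, 38],
  [1, 1, 3, 4, 9, 13, 27, 31, 41],
  [1, 1, 3, 4, 9, 13, 27, 31, 42],
  [1, 1, 3, 4, 9, 13, 27, 31, 43],
  [1, 1, 3, 4, 9, 13, 27, 31, 44],
  [1, 1, 3, 4, 9, 13, 27, 32, 37],
  [1, 1, 3, 4, 9, 13, 27, 32, 40],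
  [1, 1, 3, 4, 9, 13, 27, 32, 42],
  [1, 1, 3, 4, 9, 13, 27, 32, 43],
  [1, 1, 3, 4, 9, 13, 27, 32, 44],
  [1, 1, 3, 4, 9, 13, 27, 36, 48],
  [1, 1, 3, 4, 9, 13, 27, 37, 50],
  [1, 1, 3, 4, 9, 13, 27, 38, 49],
  [1, 1, 3, 4, 9, 14, 27, 32, 36],
  [1, 1, 3, 4, 9, 14, 27, 32, 39],
  [1, 1, 3, 4, 9, 14, 27, 32, 42],
  [1, 1, 3, 4, 9, 14, 27, 32, 43],
  [1, 1, 3, 4, 9, 14, 27, 32, 44],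
  [1, 1, 3, 4, 9, 14, 27, 36, 48],
  [1, 1, 3, 4, 9, 14, 27, 37, 50],
  [1, 1, 3, 4, 9, 14, 27, 38, 49],
  [1, 3, 4, 9, 10, 14, 27, 28, 32],
  [1, 3, 4, 9, 10, 14, 27, 30, 34],
  [1, 3, 4, 9, 10, 14, 27, 30, 42],
  [1, 3, 4, 9, 10, 14, 27, 31, 44],
  [1, 3, 4, 9, 10, 14, 27, 32, 43],
  [1, 3, 4, 9, 10, 14, 27, 39, 52],
  [1, 3, 4, 9, 10, 14, 27, 42, 49],
  [1, 3, 9, 14, 27, 32, 42, 53, 71]]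

/-- representatives of length 10 -/
def lev10 : List (List ℕ) := [[1, 1, 3, 3, 9, 9, 13, 27, 27, 31],
  [1, 1, 3, 3, 9, 9, 13, 27, 27, 40],
  [1, 1, 3, 3, 9, 9, 13, 27, 28, 30],
  [1, 1, 3, 3, 9, 9, 13, 27, 28, 39],
  [1, 1, 3, 3, 9, 9, 13, 27, 28, 41],
  [1, 1, 3, 3, 9, 9, 13, 27, 31, 38],
  [1, 1, 3, 3, 9, 9, 13, 27, 32, 38],
  [1, 1, 3, 3, 9, 9, 27, 27, 41, 41],
  [1, 1, 3, 3, 9, 9, 27, 28, 30, 36],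
  [1, 1, 3, 3, 9, 9, 27, 28, 30, 40],
  [1, 1, 3, 3, 9, 9, 27, 28, 30, 67],
  [1, 1, 3, 3, 9, 9, 27, 28, 42, 43],
  [1, 1, 3, 3, 9, 9, 27, 31, 46, 48],
  [1, 1, 3, 3, 9, 9, 27, 32, 38, 68],
  [1, 1, 3, 3, 9, 10, 12, 27, 28, 30],
  [1, 1, 3, 3, 9, 10, 12, 27, 28, 38],
  [1, 1, 3, 3, 9, 10, 12, 27, 28, 39],
  [1, 1, 3, 3, 9, 10, 12, 27, 28, 48],
  [1, 1, 3, 3, 9, 10, 12, 27, 31, 36],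
  [1, 1, 3, 3, 9, 10, 12, 27, 31, 44],
  [1, 1, 3, 3, 9, 10, 12, 27, 31, 45],
  [1, 1, 3, 3, 9, 10, 12, 27, 32, 38],
  [1, 1, 3, 3, 9, 10, 12, 27, 32, 43],
  [1, 1, 3, 3, 9, 10, 12, 27, 32, 47],
  [1, 1, 3, 3, 9, 10, 12, 27, 36, 49],
  [1, 1, 3, 3, 9, 10, 12, 27, 37, 48],
  [1, 1, 3, 4, 9, 10, 14, 27, 28, 32],
  [1, 1, 3, 4, 9, 10, 14, 27, 30, 42],
  [1, 1, 3, 4, 9, 10, 14, 27, 31, 44],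
  [1, 1, 3, 4, 9, 10, 14, 27, 32, 43]]

/-- representatives of length 11 -/
def lev11 : List (List ℕ) := [[1, 1, 3, 3, 9, 9, 13, 27, 28, 30, 36],
  [1, 1, 3, 3, 9, 9, 27, 28, 30, 36, 40],
  [1, 1, 3, 3, 9, 9, 27, 28, 30, 36, 67]]

/-- representatives of length 12 -/
def lev12 : List (List ℕ) := []

end Pool.Agent.R125.ZS
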