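import Pool.Agent.R125.ZS.Poly

/-! Polynomial certificates. -/

namespace Pool.Agent.R125.ZS

open Multiset

/-- allowed types of blocks -/
def alc (olo ohi elo ehi : ℕ) (a b : ℕ) : Bool :=
  if b % 2 = 0 then decide (elo ≤ a + b ∧ a + b ≤ ehi) else decide (olo ≤ a + b ∧ a + b ≤ ohi)

theorem no_of_poly (t s olo ohi elo ehi : ℕ) (co : List (ℕ × ℕ × ℕ))
    (h : pcheck t s (alc olo ohi elo ehi) co = true) (A B : Multiset V) (hA : card A = t)
    (hB : card B = s) (hC : Cfg olo ohi elo ehi A B) : False := by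
  refine poly t s (alc olo ohi elo ehi) co h A B hA hB hC.sum0 ?_
  intro A' hA' B' hB' hs h0 h1
  unfold alc
  split_ifs with hp
  · have := hC.ev A' hA' B' hB' hs (Nat.even_iff.2 hp) h0 (by omega)
    simpa using this
  · have := hC.od A' hA' B' hB' hs (fun h => hp (Nat.even_iff.1 h)) h0 (by omega)
    simpa using this

/-- allowed types with two exceptions -/
def alx (olo ohi elo ehi t s : ℕ) (a b : ℕ) : Bool :=
  !(decide (a = 0 ∧ b = 9)) && !(decide (a = t ∧ b + 9 = s)) && alc olo ohi elo ehi a b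

/-- If the certificate without `(0, 9)` is valid, there is a block of type `(0, 9)`. -/
theorem block_of_poly (t s olo ohi elo ehi : ℕ) (co : List (ℕ × ℕ × ℕ))
    (h : pcheck t s (alx olo ohi elo ehi t s) co = true) (A B : Multiset V) (hA : card A = t)
    (hB : card B = s) (hC : Cfg olo ohi elo ehi A B) : ∃ B' ≤ B, card B' = 9 ∧ B'.sum = 0 := by
  by_contra hcon
  push Not at hcon
  refine poly t s (alx olo ohi elo ehi t s) co h A B hA hB hC.sum0 ?_
  intro A' hA' B' hB' hs h0 h1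
  have e1 : ¬ (card A' = 0 ∧ card B' = 9) := by
    rintro ⟨ha, hb⟩
    have hA0 : A' = 0 := Multiset.card_eq_zero.1 ha
    subst hA0
    exact hcon B' hB' hb (by simpa using hs)
  have e2 : ¬ (card A' = t ∧ card B' + 9 = s) := by
    rintro ⟨ha, hb⟩
    have hAA : A' = A := Multiset.eq_of_le_of_card_le hA' (by omega)
    subst hAA
    obtain ⟨B2, rfl⟩ := Multiset.le_iff_exists_add.1 hB'
    rw [Multiset.card_add] at hB
    refine hcon B2 (Multiset.le_add_left _ _) (by omega) ?_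
    have h2 := hC.sum0
    rw [Multiset.sum_add, ← add_assoc, hs, zero_add] at h2
    exact h2
  unfold alx
  rw [decide_eq_false e1, decide_eq_false e2]
  show (!false && !false && alc olo ohi elo ehi (card A') (card B')) = true
  have e3 : alc olo ohi elo ehi (card A') (card B') = true := by
    unfold alc
    split_ifs with hp
    · have := hC.ev A' hA' B' hB' hs (Nat.even_iff.2 hp) h0 (by omega)
      simpa using this
    · have := hC.od A' hA' B' hB' hs (fun h => hp (Nat.even_iff.1 h)) h0 (by omega)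
      simpa using this
  rw [e3]
  rfl

theorem pc_C1_13 : pcheck 13 1 (alc 6 7 7 8)
    [(1, 1, 1), (2, 2, 0)] = true := by decide +kernel

theorem pc_C1_11 : pcheck 11 3 (alc 6 7 7 8)
    [(2, 0, 0), (2, 2, 0), (2, 1, 3)] = true := by decide +kernel

theorem pc_C1_9 : pcheck 9 5 (alc 6 7 7 8)
    [(2, 0, 0), (2, 0, 2), (1, 1, 1), (1, 2, 0), (2, 0, 4), (2, 1, 3), (2, 2, 2)] = true := by decide +kernel

theorem pc_C1_7 : pcheck 7 7 (alc 6 7 7 8)
    [(1, 0, 0), (2, 0, 2), (1, 2, 0), (2, 0, 4), (2, 1, 3), (1, 2, 2)] = true := by decide +kernel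

theorem pc_C1_5 : pcheck 5 9 (alc 6 7 7 8)
    [(2, 0, 2), (2, 1, 1), (1, 2, 0), (2, 0, 4), (2, 1, 3)] = true := by decide +kernel

theorem pc_C1_3 : pcheck 3 11 (alc 6 7 7 8)
    [(1, 0, 2), (1, 2, 0), (2, 0, 4)] = true := by decide +kernel

theorem pc_C1_1 : pcheck 1 13 (alc 6 7 7 8)
    [(2, 0, 2), (1, 1, 1)] = true := by decide +kernel

theorem pc_C2_12 : pcheck 12 1 (alc 5 6 7 8)
    [(2, 0, 1), (2, 1, 0), (2, 2, 1)] = true := by decide +kernel

theorem pc_C2_4 : pcheck 4 9 (alc 5 6 7 8)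
    [(2, 0, 1), (1, 1, 0), (1, 1, 2), (1, 3, 0)] = true := by decide +kernel

theorem pc_C2_2 : pcheck 2 11 (alc 5 6 7 8)
    [(1, 2, 1)] = true := by decide +kernel

theorem pc_C2_0 : pcheck 0 13 (alc 5 6 7 8)
    [(2, 0, 1)] = true := by decide +kernel

theorem pc_C3_11 : pcheck 11 1 (alc 4 5 7 8)
    [(2, 0, 0), (2, 1, 1), (2, 2, 0)] = true := by decide +kernel

theorem pc_C3_9 : pcheck 9 3 (alc 4 5 7 8)
    [(2, 0, 0), (2, 0, 2), (2, 1, 1), (2, 2, 0)] = true := by decide +kernel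

theorem pc_C3_7 : pcheck 7 5 (alc 4 5 7 8)
    [(2, 0, 0), (2, 0, 2), (2, 1, 1), (2, 2, 0)] = true := by decide +kernel

theorem pc_C3_5 : pcheck 5 7 (alc 4 5 7 8)
    [(2, 0, 0), (2, 0, 2), (2, 1, 1), (2, 2, 0)] = true := by decide +kernel

theorem pc_C3_3 : pcheck 3 9 (alc 4 5 7 8)
    [(2, 0, 0), (2, 0, 2), (2, 2, 0)] = true := by decide +kernel

theorem pc_C3_1 : pcheck 1 11 (alc 4 5 7 8)
    [(2, 1, 1)] = true := by decide +kernel

theorem pc_C4_10 : pcheck 10 1 (alc 4 4 7 7)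
    [(1, 0, 1), (1, 1, 0)] = true := by decide +kernel

theorem pc_C4_8 : pcheck 8 3 (alc 4 4 7 7)
    [(1, 0, 1), (1, 1, 0)] = true := by decide +kernel

theorem pc_C4_6 : pcheck 6 5 (alc 4 4 7 7)
    [(1, 0, 1), (1, 1, 0)] = true := by decide +kernel

theorem pc_C4_4 : pcheck 4 7 (alc 4 4 7 7)
    [(1, 0, 1), (1, 1, 0)] = true := by decide +kernel

theorem pc_C4_2 : pcheck 2 9 (alc 4 4 7 7)
    [(1, 1, 0)] = true := by decide +kernel

theorem pc_C4_0 : pcheck 0 11 (alc 4 4 7 7)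
    [(1, 0, 1)] = true := by decide +kernel

theorem pc_C5_15 : pcheck 15 0 (alc 5 10 7 8)
    [(1, 3, 0)] = true := by decide +kernel

theorem pc_C5_13 : pcheck 13 2 (alc 5 10 7 8)
    [(2, 1, 2), (1, 2, 1)] = true := by decide +kernel

theorem pc_C5_11 : pcheck 11 4 (alc 5 10 7 8)
    [(1, 0, 1), (1, 1, 0), (1, 0, 3), (1, 1, 2), (1, 2, 1), (1, 1, 4), (1, 2, 3)] = true := by decide +kernel

theorem pc_C5_9 : pcheck 9 6 (alc 5 10 7 8)
    [(1, 0, 1), (2, 1, 0), (1, 0, 3), (2, 1, 2), (2, 2, 1), (1, 0, 5), (1, 1, 4), (1, 2, 3)] = true := by decide +kernel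

theorem pc_C5x_5 : pcheck 5 10 (alx 5 10 7 8 5 10)
    [(1, 0, 3), (2, 2, 1), (1, 0, 5), (1, 1, 4), (1, 2, 3)] = true := by decide +kernel

theorem pc_C5x_3 : pcheck 3 12 (alx 5 10 7 8 3 12)
    [(2, 1, 0), (2, 0, 3), (2, 1, 2), (2, 2, 1), (2, 0, 5), (2, 2, 3)] = true := by decide +kernel

theorem pc_C5x_1 : pcheck 1 14 (alx 5 10 7 8 1 14)
    [(2, 1, 2)] = true := by decide +kernel

theorem pc_C7_6 : pcheck 6 9 (alc 5 8 7 10)
    [(2, 0, 1), (1, 1, 0), (2, 1, 2), (2, 2, 1), (1, 3, 0), (1, 3, 2), (1, 4, 1), (1, 5, 0)] = true := by decide +kernel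

theorem pc_C7_4 : pcheck 4 11 (alc 5 8 7 10)
    [(1, 0, 1), (1, 1, 0), (1, 1, 2), (1, 2, 1), (1, 3, 0), (1, 3, 2), (1, 4, 1)] = true := by decide +kernel

theorem pc_C7_2 : pcheck 2 13 (alc 5 8 7 10)
    [(1, 1, 2), (2, 2, 1)] = true := by decide +kernel

theorem pc_C7_0 : pcheck 0 15 (alc 5 8 7 10)
    [(1, 0, 1), (1, 0, 3), (1, 0, 5)] = true := by decide +kernel

theorem pc_C8_5 : pcheck 5 9 (alc 4 7 7 10)
    [(2, 0, 0), (1, 0, 2), (1, 1, 1), (2, 2, 0), (2, 2, 2), (2, 3, 1), (2, 4, 0)] = true := by decide +kernel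

theorem pc_C8_3 : pcheck 3 11 (alc 4 7 7 10)
    [(2, 0, 0), (2, 0, 2), (2, 3, 1)] = true := by decide +kernel

theorem pc_C8_1 : pcheck 1 13 (alc 4 7 7 10)
    [(2, 0, 2), (1, 1, 1)] = true := by decide +kernel

theorem pc_C9_4 : pcheck 4 9 (alc 4 6 7 9)
    [(2, 0, 1), (1, 1, 0), (1, 1, 2), (1, 3, 0)] = true := by decide +kernel

theorem pc_C9_2 : pcheck 2 11 (alc 4 6 7 9)
    [(1, 2, 1)] = true := by decide +kernel

theorem pc_C9_0 : pcheck 0 13 (alc 4 6 7 9)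
    [(2, 0, 1)] = true := by decide +kernel

theorem pc_C10_11 : pcheck 11 1 (alc 5 5 7 7)
    [(1, 0, 0), (1, 1, 1)] = true := by decide +kernel

theorem pc_C10_9 : pcheck 9 3 (alc 5 5 7 7)
    [(2, 0, 0), (2, 2, 0)] = true := by decide +kernel

theorem pc_C10_7 : pcheck 7 5 (alc 5 5 7 7)
    [(2, 0, 0), (2, 0, 2), (2, 1, 1), (2, 2, 0)] = true := by decide +kernel

theorem pc_C10_5 : pcheck 5 7 (alc 5 5 7 7)
    [(2, 0, 0), (2, 0, 2), (2, 1, 1), (2, 2, 0)] = true := by decide +kernel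

theorem pc_C10_3 : pcheck 3 9 (alc 5 5 7 7)
    [(2, 0, 0), (2, 0, 2), (2, 2, 0)] = true := by decide +kernel

theorem pc_C10_1 : pcheck 1 11 (alc 5 5 7 7)
    [(2, 1, 1)] = true := by decide +kernel

theorem pc_C11_10 : pcheck 10 1 (alc 6 4 7 5)
    [(2, 0, 1)] = true := by decide +kernel

theorem pc_C11_8 : pcheck 8 3 (alc 6 4 7 5)
    [(1, 1, 0)] = true := by decide +kernel

theorem pc_C11_6 : pcheck 6 5 (alc 6 4 7 5)
    [(1, 0, 1)] = true := by decide +kernel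

theorem pc_C11_4 : pcheck 4 7 (alc 6 4 7 5)
    [(2, 0, 1)] = true := by decide +kernel

theorem pc_C11_2 : pcheck 2 9 (alc 6 4 7 5)
    [(1, 1, 0)] = true := by decide +kernel

theorem pc_C11_0 : pcheck 0 11 (alc 6 4 7 5)
    [(1, 0, 1)] = true := by decide +kernel

end Pool.Agent.R125.ZS
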