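import Pool.Agent.R125.ZS.Defs

/-! MP_3fb682_nt, pieces RED15 and RED17: reductions to configurations. -/

set_option autoImplicit false

namespace Pool.Agent.R125.ZS

open Multiset

namespace Rd

lemma sum_sub' {A A' : Multiset V} (h : A' ≤ A) : (A - A').sum = A.sum - A'.sum :=
  eq_sub_of_add_eq (by rw [← sum_add, tsub_add_cancel_of_le h])

/-- there is a block with an odd number of odd elements of size `m` -/
def OddBlk (A B : Multiset V) (m : ℕ) : Prop :=
  ∃ A' ≤ A, ∃ B' ≤ B, A'.sum + B'.sum = 0 ∧ ¬ Even (card B') ∧ card A' + card B' = m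

lemma even_ge {A B : Multiset V} (h : SF A B) {A' B' : Multiset V} (hA : A' ≤ A) (hB : B' ≤ B)
    (hs : A'.sum + B'.sum = 0) (he : Even (card B')) (h0 : 0 < card A' + card B') :
    7 ≤ card A' + card B' := by
  by_contra hn
  obtain ⟨h1, h2⟩ := h A' hA B' hB hs he (by omega)
  rw [h1, h2] at h0
  simp at h0

lemma even_le {A B : Multiset V} {L : ℕ} (hL : card A + card B = L) (hBe : Even (card B))
    (hsum : A.sum + B.sum = 0) (h : SF A B) {A' B' : Multiset V} (hA : A' ≤ A) (hB : B' ≤ B)
    (hs : A'.sum + B'.sum = 0) (he : Even (card B')) (h0 : card A' + card B' < L) :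
    card A' + card B' + 7 ≤ L := by
  have h1 := card_sub hA
  have h2 := card_sub hB
  have h3 := card_le_card hA
  have h4 := card_le_card hB
  have h5 := even_ge h (A' := A - A') (B' := B - B') tsub_le_self tsub_le_self
    (by
      rw [sum_sub' hA, sum_sub' hB]
      calc A.sum - A'.sum + (B.sum - B'.sum) = (A.sum + B.sum) - (A'.sum + B'.sum) := by abel
        _ = 0 := by rw [hsum, hs, sub_zero])
    (by rw [Nat.even_iff] at *; omega) (by omega)
  omega

lemma red_gen {A B : Multiset V} {L m : ℕ} (hL : card A + card B = L) (hBe : Even (card B))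
    (hsum : A.sum + B.sum = 0) (h : SF A B) {A₁ B₁ : Multiset V} (hA₁ : A₁ ≤ A) (hB₁ : B₁ ≤ B)
    (hs₁ : A₁.sum + B₁.sum = 0) (ho₁ : ¬ Even (card B₁)) (hm : card A₁ + card B₁ = m)
    (hmin : ∀ k, OddBlk A B k → m ≤ k) :
    Cfg (max m (7 - m)) (L - 7 - m) 7 (min (L - 7) (L - m - max m (7 - m))) (A - A₁) (B - B₁) := by
  have c1 := card_sub hA₁
  have c2 := card_sub hB₁
  have c3 := card_le_card hA₁
  have c4 := card_le_card hB₁
  have hsR : (A - A₁).sum + (B - B₁).sum = 0 := by
    rw [sum_sub' hA₁, sum_sub' hB₁]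
    calc A.sum - A₁.sum + (B.sum - B₁.sum) = (A.sum + B.sum) - (A₁.sum + B₁.sum) := by abel
      _ = 0 := by rw [hsum, hs₁, sub_zero]
  have hod : ∀ A' ≤ A - A₁, ∀ B' ≤ B - B₁, A'.sum + B'.sum = 0 → ¬ Even (card B') →
      0 < card A' + card B' → card A' + card B' < card (A - A₁) + card (B - B₁) →
      max m (7 - m) ≤ card A' + card B' ∧ card A' + card B' ≤ L - 7 - m := by
    intro A' hA' B' hB' hs ho h0 hlt
    have e1 : A' + A₁ ≤ A := (le_tsub_iff_right hA₁).1 hA'
    have e2 : B' + B₁ ≤ B := (le_tsub_iff_right hB₁).1 hB'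
    have hs2 : (A' + A₁).sum + (B' + B₁).sum = 0 := by
      rw [sum_add, sum_add]
      calc A'.sum + A₁.sum + (B'.sum + B₁.sum) = (A'.sum + B'.sum) + (A₁.sum + B₁.sum) := by abel
        _ = 0 := by rw [hs, hs₁, add_zero]
    have he2 : Even (card (B' + B₁)) := by
      rw [card_add]
      rw [Nat.even_iff] at *
      omega
    have h1 := hmin _ ⟨A', hA'.trans tsub_le_self, B', hB'.trans tsub_le_self, hs, ho, rfl⟩
    have h2 := even_ge h e1 e2 hs2 he2 (by rw [card_add, card_add]; omega)
    have h3 := even_le hL hBe hsum h e1 e2 hs2 he2 (by rw [card_add, card_add]; omega)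
    rw [card_add, card_add] at h2 h3
    omega
  refine ⟨hsR, ?_, hod⟩
  intro A' hA' B' hB' hs he h0 hlt
  have hA2 : A' ≤ A := hA'.trans tsub_le_self
  have hB2 : B' ≤ B := hB'.trans tsub_le_self
  have h1 := even_ge h hA2 hB2 hs he h0
  have h2 := even_le hL hBe hsum h hA2 hB2 hs he (by omega)
  have d1 := card_sub hA'
  have d2 := card_sub hB'
  have d3 := card_le_card hA'
  have d4 := card_le_card hB'
  have h3 := hod (A - A₁ - A') tsub_le_self (B - B₁ - B') tsub_le_self
    (by
      rw [sum_sub' hA', sum_sub' hB']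
      calc (A - A₁).sum - A'.sum + ((B - B₁).sum - B'.sum) =
          ((A - A₁).sum + (B - B₁).sum) - (A'.sum + B'.sum) := by abel
        _ = 0 := by rw [hsR, hs, sub_zero])
    (by
      rw [d2, c2]
      rw [Nat.even_iff] at *
      omega) (by omega) (by omega)
  omega

lemma min_blk {A B : Multiset V} (k : ℕ) (hk : OddBlk A B k) : ∃ m ≤ k, OddBlk A B m ∧
    ∀ j, OddBlk A B j → m ≤ j := by
  classical
  have hex : ∃ m, OddBlk A B m := ⟨k, hk⟩
  exact ⟨Nat.find hex, Nat.find_min' hex hk, Nat.find_spec hex, fun j hj => Nat.find_min' hex hj⟩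

end Rd

open Rd in
theorem red15 : StmtRed15 := by
  intro h14 h13 h12 h11 h15 A B hL hBe hsum h
  by_cases hex : ∃ k ≤ 4, OddBlk A B k
  · obtain ⟨k, hk4, hk⟩ := hex
    obtain ⟨m, hmk, ⟨A₁, hA₁, B₁, hB₁, hs₁, ho₁, hm⟩, hmin⟩ := min_blk k hk
    have hc := red_gen hL hBe hsum h hA₁ hB₁ hs₁ ho₁ hm hmin
    have c1 := card_sub hA₁
    have c2 := card_sub hB₁
    have c3 := card_le_card hA₁
    have c4 := card_le_card hB₁
    have hR : card (A - A₁) + card (B - B₁) = 15 - m := by omega
    have hpar : Even (card (B - B₁)) ↔ False := by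
      rw [iff_false, c2]
      rw [Nat.even_iff] at *
      omega
    have hm1 : 1 ≤ m := by
      rw [Nat.even_iff] at ho₁
      omega
    have hm4 : m ≤ 4 := by omega
    interval_cases m
    · exact h14 _ _ hR hpar trivial hc
    · exact h13 _ _ hR hpar trivial hc
    · exact h12 _ _ hR hpar trivial hc
    · exact h11 _ _ hR hpar trivial hc
  · push Not at hex
    refine h15 A B hL (by simpa using hBe) trivial ⟨hsum, ?_, ?_⟩
    · intro A' hA' B' hB' hs he h0 hlt
      have h1 := even_ge h hA' hB' hs he h0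
      have h2 := even_le hL hBe hsum h hA' hB' hs he (by omega)
      omega
    · intro A' hA' B' hB' hs ho h0 hlt
      have h1 : ¬ card A' + card B' ≤ 4 := fun hle =>
        hex _ hle ⟨A', hA', B', hB', hs, ho, rfl⟩
      have d1 := card_sub hA'
      have d2 := card_sub hB'
      have d3 := card_le_card hA'
      have d4 := card_le_card hB'
      have h2 : ¬ card (A - A') + card (B - B') ≤ 4 := fun hle => by
        refine hex _ hle ⟨A - A', tsub_le_self, B - B', tsub_le_self, ?_, ?_, rfl⟩
        · rw [sum_sub' hA', sum_sub' hB']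
          calc A.sum - A'.sum + (B.sum - B'.sum) = (A.sum + B.sum) - (A'.sum + B'.sum) := by abel
            _ = 0 := by rw [hsum, hs, sub_zero]
        · rw [d2]
          rw [Nat.even_iff] at *
          omega
      omega

open Rd in
theorem red17 : StmtRed17 := by
  intro hav h17 h16 h15 h14 h13 h12 h11 A B hL hBe hsum h
  have hA : card A ≤ 11 := by
    refine hav A fun A' hA' h0 hs => ?_
    have h1 := even_ge h hA' (Multiset.zero_le B) (by simpa using hs) (by simp)
      (by
        have := Multiset.card_pos.2 h0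
        omega)
    simpa using h1
  by_cases h11' : card A = 11
  · refine h17 A B hL (by simpa using hBe) h11' ⟨hsum, ?_, ?_⟩
    · intro A' hA' B' hB' hs he h0 hlt
      have h1 := even_ge h hA' hB' hs he h0
      have h2 := even_le hL hBe hsum h hA' hB' hs he (by omega)
      omega
    · intro A' hA' B' hB' hs ho h0 hlt
      omega
  have hA9 : card A ≤ 9 := by
    rw [Nat.even_iff] at hBe
    omega
  by_cases hex : ∃ k ≤ 6, OddBlk A B k
  · obtain ⟨k, hk4, hk⟩ := hex
    obtain ⟨m, hmk, ⟨A₁, hA₁, B₁, hB₁, hs₁, ho₁, hm⟩, hmin⟩ := min_blk k hk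
    have hc := red_gen hL hBe hsum h hA₁ hB₁ hs₁ ho₁ hm hmin
    have c1 := card_sub hA₁
    have c2 := card_sub hB₁
    have c3 := card_le_card hA₁
    have c4 := card_le_card hB₁
    have hR : card (A - A₁) + card (B - B₁) = 17 - m := by omega
    have hpar : Even (card (B - B₁)) ↔ False := by
      rw [iff_false, c2]
      rw [Nat.even_iff] at *
      omega
    have hm1 : 1 ≤ m := by
      rw [Nat.even_iff] at ho₁
      omega
    have hm6 : m ≤ 6 := by omega
    interval_cases m
    · exact h16 _ _ hR hpar trivial hc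
    · exact h15 _ _ hR hpar trivial hc
    · exact h14 _ _ hR hpar trivial hc
    · refine h13 _ _ hR hpar ?_ hc
      beta_reduce
      rw [Nat.even_iff] at ho₁
      omega
    · exact h12 _ _ hR hpar trivial hc
    · exact h11 _ _ hR hpar trivial hc
  · push Not at hex
    have h2 := hav (A + B) (by
      intro C hC h0 hs
      by_contra hn
      have e1 : C ∩ A ≤ A := Multiset.inter_le_right
      have e2 : C - A ≤ B := tsub_le_iff_left.2 hC
      have e3 : C - A + C ∩ A = C := Multiset.sub_add_inter C A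
      have e4 : (C ∩ A).sum + (C - A).sum = 0 := by
        rw [← hs]
        conv_rhs => rw [← e3]
        rw [sum_add, add_comm]
      have e5 : card (C ∩ A) + card (C - A) = card C := by
        conv_rhs => rw [← e3]
        rw [card_add, add_comm]
      by_cases he : Even (card (C - A))
      · have h1 := even_ge h e1 e2 e4 he (by
          have := Multiset.card_pos.2 h0
          omega)
        omega
      · exact hex _ (by omega) ⟨_, e1, _, e2, e4, he, rfl⟩)
    rw [card_add] at h2
    omega

end Pool.Agent.R125.ZS
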