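import Pool.Agent.R125.ZS.Stm3

/-! ZSE-ROOT2: soundness of the second search. -/

set_option autoImplicit false

namespace Pool.Agent.R125.ZS

open Multiset

namespace R2

lemma le_of_bits {x y : ℕ} (h : ∀ j, Nat.testBit y j = true → Nat.testBit x j = true) : y ≤ x := by
  have h1 : y = y &&& x := by
    refine Nat.eq_of_testBit_eq fun i => ?_
    rw [Nat.testBit_and]
    have := h i
    cases hy : Nat.testBit y i
    · rfl
    · rw [this hy]; rfl
  rw [h1]
  exact Nat.and_le_right

lemma sub_bits : ∀ (i x y : ℕ), (∀ j, Nat.testBit y j = true → Nat.testBit x j = true) →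
    Nat.testBit (x - y) i = (Nat.testBit x i && !Nat.testBit y i) := by
  intro i
  induction i with
  | zero =>
    intro x y h
    have hle := le_of_bits h
    have h0 := h 0
    rw [Nat.testBit_zero, Nat.testBit_zero] at h0
    rw [Nat.testBit_zero, Nat.testBit_zero, Nat.testBit_zero, Bool.eq_iff_iff]
    simp only [decide_eq_true_eq, Bool.and_eq_true, Bool.not_eq_true', decide_eq_false_iff_not]
      at h0 ⊢
    omega
  | succ i ih =>
    intro x y h
    have hle := le_of_bits h
    have h0 := h 0
    rw [Nat.testBit_zero, Nat.testBit_zero] at h0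
    simp only [decide_eq_true_eq] at h0
    have h1 : (x - y) / 2 = x / 2 - y / 2 := by omega
    rw [Nat.testBit_succ, Nat.testBit_succ, Nat.testBit_succ, h1]
    refine ih _ _ fun j => ?_
    have := h (j + 1)
    rwa [Nat.testBit_succ, Nat.testBit_succ] at this

lemma full_lt {p : ℕ} (h : Nat.testBit full p = true) : p < 81 := by
  by_contra hp
  have h1 : full < 2 ^ p := by
    refine lt_of_lt_of_le ?_ (Nat.pow_le_pow_right (by norm_num) (show 81 ≤ p by omega))
    norm_num [full]
  rw [Nat.testBit_lt_two_pow h1] at h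
  exact Bool.noConfusion h

lemma mem_cand2 (hF : StmtFold) {FO FE al st p : ℕ} (hp : Nat.testBit al p = true)
    (h1 : p < 81 → ∀ b, Nat.testBit st (81 * b + p) = true →
      Nat.testBit FO (81 * b + p) = true → False)
    (h2 : ∀ c, c < 81 → p = 81 + c → ∀ b, Nat.testBit st (81 * b + c) = true →
      Nat.testBit FE (81 * b + c) = true → False) :
    Nat.testBit (cand2 FO FE al st) p = true := by
  change Nat.testBit (al - (al &&& (((fold (st &&& FO)) &&& full) |||
    (((fold (st &&& FE)) &&& full) <<< 81)))) p = true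
  rw [sub_bits, hp, Bool.true_and, Nat.testBit_and, hp, Bool.true_and]
  · by_contra hX
    have hX' : Nat.testBit (((fold (st &&& FO)) &&& full) |||
        (((fold (st &&& FE)) &&& full) <<< 81)) p = true := by
      cases h : Nat.testBit (((fold (st &&& FO)) &&& full) |||
        (((fold (st &&& FE)) &&& full) <<< 81)) p
      · rw [h] at hX; exact absurd rfl hX
      · rfl
    rw [Nat.testBit_or, Bool.or_eq_true] at hX'
    rcases hX' with h | h
    · rw [Nat.testBit_and, Bool.and_eq_true] at h
      obtain ⟨b, hb⟩ := hF _ _ h.1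
      rw [Nat.testBit_and, Bool.and_eq_true] at hb
      exact h1 (full_lt h.2) b hb.1 hb.2
    · rw [Nat.testBit_shiftLeft, Bool.and_eq_true, Nat.testBit_and, Bool.and_eq_true] at h
      obtain ⟨b, hb⟩ := hF _ _ h.2.1
      rw [Nat.testBit_and, Bool.and_eq_true] at hb
      have h3 : 81 ≤ p := by simpa using h.1
      exact h2 (p - 81) (full_lt h.2.2) (by omega) b hb.1 hb.2
  · intro j hj
    rw [Nat.testBit_and, Bool.and_eq_true] at hj
    exact hj.1

section
variable {n olo ohi elo ehi FO FE : ℕ} {A B : Multiset V}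

lemma keep_odd (hC : StmtCode) (hF : StmtFold) (hFO : FOK n olo ohi elo ehi FO)
    (hn : card A + card B = n) (hcfg : Cfg olo ohi elo ehi A B) {A1 B1 : Multiset V} {st : ℕ}
    (hinv : Inv A1 B1 st) (hA : A1 ≤ A) {z : V} (hz : z ::ₘ B1 ≤ B) {al : ℕ}
    (hal : Nat.testBit al (code z) = true) :
    Nat.testBit (cand2 FO FE al st) (code z) = true := by
  have hcz := hC.1 z
  refine mem_cand2 hF hal ?_ ?_
  · intro _ b hst hfo
    have hb : 81 * b + code z = 81 * (2 * (b / 2) + b % 2) + code z := by omega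
    rw [hb] at hst hfo
    have hc2 : b % 2 < 2 := Nat.mod_lt _ (by norm_num)
    obtain ⟨A', hA', B', hB', hcard, hpar, hsum⟩ := hinv _ _ _ hc2 hcz hst
    obtain ⟨g1, g2, g3⟩ := hFO _ _ _ hc2 hcz hfo
    rw [hC.2.1] at hsum
    have hle : z ::ₘ B' ≤ B := le_trans (Multiset.cons_le_cons z hB') hz
    have hs : A'.sum + (z ::ₘ B').sum = 0 := by
      rw [Multiset.sum_cons]
      have : A'.sum + (z + B'.sum) = z + (A'.sum + B'.sum) := by abel
      rw [this, hsum, add_neg_cancel]
    have hcc : card A' + card (z ::ₘ B') = b / 2 + 1 := by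
      rw [Multiset.card_cons]; omega
    rcases Nat.mod_two_eq_zero_or_one b with h | h
    · have hodd : ¬ Even (card (z ::ₘ B')) := by
        rw [Multiset.card_cons, Nat.even_iff]; omega
      have := hcfg.od A' (hA'.trans hA) _ hle hs hodd (by omega) (by omega)
      rw [hcc] at this
      exact g2 h this
    · have hev : Even (card (z ::ₘ B')) := by
        rw [Multiset.card_cons, Nat.even_iff]; omega
      have := hcfg.ev A' (hA'.trans hA) _ hle hs hev (by omega) (by omega)
      rw [hcc] at this
      exact g3 h this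
  · intro c hc h
    omega

lemma keep_even (hC : StmtCode) (hF : StmtFold) (hFE : FOKE n olo ohi elo ehi FE)
    (hn : card A + card B = n) (hcfg : Cfg olo ohi elo ehi A B) {A1 B1 : Multiset V} {st : ℕ}
    (hinv : Inv A1 B1 st) (hB : B1 ≤ B) {z : V} (hz : z ::ₘ A1 ≤ A) {al : ℕ}
    (hal : Nat.testBit al (81 + code z) = true) :
    Nat.testBit (cand2 FO FE al st) (81 + code z) = true := by
  have hcz := hC.1 z
  refine mem_cand2 hF hal ?_ ?_
  · intro h
    omega
  · intro c _ h b hst hfo
    have hc : c = code z := by omega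
    subst hc
    have hb : 81 * b + code z = 81 * (2 * (b / 2) + b % 2) + code z := by omega
    rw [hb] at hst hfo
    have hc2 : b % 2 < 2 := Nat.mod_lt _ (by norm_num)
    obtain ⟨A', hA', B', hB', hcard, hpar, hsum⟩ := hinv _ _ _ hc2 hcz hst
    obtain ⟨g1, g2, g3⟩ := hFE _ _ _ hc2 hcz hfo
    rw [hC.2.1] at hsum
    have hle : z ::ₘ A' ≤ A := le_trans (Multiset.cons_le_cons z hA') hz
    have hs : (z ::ₘ A').sum + B'.sum = 0 := by
      rw [Multiset.sum_cons, add_assoc, hsum, add_neg_cancel]
    have hcc : card (z ::ₘ A') + card B' = b / 2 + 1 := by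
      rw [Multiset.card_cons]; omega
    rcases Nat.mod_two_eq_zero_or_one b with h | h
    · have hev : Even (card B') := by
        rw [Nat.even_iff]; omega
      have := hcfg.ev _ hle B' (hB'.trans hB) hs hev (by omega) (by omega)
      rw [hcc] at this
      exact g2 h this
    · have hodd : ¬ Even (card B') := by
        rw [Nat.even_iff]; omega
      have := hcfg.od _ hle B' (hB'.trans hB) hs hodd (by omega) (by omega)
      rw [hcc] at this
      exact g3 h this

lemma two81_eq : two81 = 2 ^ 81 := by norm_num [two81]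

lemma add2_odd (st k : ℕ) (hk : k < 81) : add2 st (2 ^ k) = addO st (2 ^ k) := by
  have h : Nat.ble two81 (2 ^ k) = false := by
    rw [two81_eq, ← Bool.not_eq_true, Nat.ble_eq, not_le]
    exact Nat.pow_lt_pow_right (by norm_num) hk
  rw [add2, h, cond_false]

lemma el2_odd (k : ℕ) (hk : k < 81) : el2 (2 ^ k) = 2 ^ k := by
  have h : Nat.ble two81 (2 ^ k) = false := by
    rw [two81_eq, ← Bool.not_eq_true, Nat.ble_eq, not_le]
    exact Nat.pow_lt_pow_right (by norm_num) hk
  rw [el2, h, cond_false]

lemma shift_eq (k : ℕ) : Nat.shiftRight (2 ^ (81 + k)) 81 = 2 ^ k := by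
  change (2 ^ (81 + k)) >>> 81 = 2 ^ k
  rw [Nat.shiftRight_eq_div_pow, pow_add, Nat.mul_div_cancel_left _ (by positivity)]

lemma add2_even (st k : ℕ) : add2 st (2 ^ (81 + k)) = addE st (2 ^ k) := by
  have h : Nat.ble two81 (2 ^ (81 + k)) = true := by
    rw [two81_eq, Nat.ble_eq]
    exact Nat.pow_le_pow_right (by norm_num) (by omega)
  rw [add2, h, cond_true, shift_eq]

lemma el2_even (k : ℕ) : el2 (2 ^ (81 + k)) = 2 ^ k := by
  have h : Nat.ble two81 (2 ^ (81 + k)) = true := by
    rw [two81_eq, Nat.ble_eq]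
    exact Nat.pow_le_pow_right (by norm_num) (by omega)
  rw [el2, h, cond_true, shift_eq]

lemma bit_pow (k : ℕ) (j : ℕ) (h : Nat.testBit (2 ^ k) j = true) : j = k := by
  rw [Nat.testBit_two_pow] at h
  exact (of_decide_eq_true h).symm

/-- the last element contradicts the check -/
lemma last_check (al q k : ℕ) (b : Bool) (hq : q = 2 ^ k)
    (hal : Nat.testBit al (cond b (81 + k) k) = true)
    (h : Nat.beq (Nat.land al (Nat.lor q (Nat.shiftLeft q 81))) 0 = true) : False := by
  have h1 : al &&& (q ||| q <<< 81) = 0 := Nat.eq_of_beq_eq_true h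
  have h2 : Nat.testBit (al &&& (q ||| q <<< 81)) (cond b (81 + k) k) = true := by
    rw [Nat.testBit_and, hal, Bool.true_and, Nat.testBit_or, hq]
    cases b
    · simp [Nat.testBit_two_pow_self]
    · simp [Nat.testBit_shiftLeft, Nat.testBit_two_pow_self]
  rw [h1, Nat.zero_testBit] at h2
  exact Bool.noConfusion h2

/-- the continuation after adding one element -/
lemma cont (hC : StmtCode) (hF : StmtFold)
    (hFO : FOK n olo ohi elo ehi FO) (hFE : FOKE n olo ohi elo ehi FE)
    (hn : card A + card B = n) (hcfg : Cfg olo ohi elo ehi A B) (f al : ℕ)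
    (ih : ∀ (st r q al br : ℕ) (A1 B1 A2 B2 : Multiset V), A = A1 + A2 → B = B1 + B2 →
      card A2 + card B2 = r → 2 ≤ r → Inv A1 B1 st → q = 2 ^ code (-(A1.sum + B1.sum)) →
      (∀ z ∈ A2, Nat.testBit al (81 + code z) = true) →
      (∀ z ∈ B2, Nat.testBit al (code z) = true) →
      (∀ k, Nat.testBit br k = true → Nat.testBit al k = true) →
      ((∃ z ∈ A2, Nat.testBit br (81 + code z) = true) ∨
        (∃ z ∈ B2, Nat.testBit br (code z) = true)) →
      go2 FO FE f st r q al br = true → False)
    (st r q : ℕ) (A1 B1 A2 B2 : Multiset V) (hA : A = A1 + A2) (hB : B = B1 + B2)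
    (hr : card A2 + card B2 + 1 = r) (hr2 : 2 ≤ r) (hinv : Inv A1 B1 st)
    (hq : q = 2 ^ code (-(A1.sum + B1.sum)))
    (hzA : ∀ z ∈ A2, Nat.testBit al (81 + code z) = true)
    (hzB : ∀ z ∈ B2, Nat.testBit al (code z) = true)
    (h : cond (Nat.beq r 2)
      (Nat.beq (Nat.land (cand2 FO FE al st) (Nat.lor q (Nat.shiftLeft q 81))) 0)
      (go2 FO FE f st (Nat.sub r 1) q (cand2 FO FE al st) (cand2 FO FE al st)) = true) :
    False := by
  have hA1 : A1 ≤ A := by rw [hA]; exact Multiset.le_add_right _ _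
  have hB1 : B1 ≤ B := by rw [hB]; exact Multiset.le_add_right _ _
  have kA : ∀ z ∈ A2, Nat.testBit (cand2 FO FE al st) (81 + code z) = true := by
    intro z hz
    refine keep_even hC hF hFE hn hcfg hinv hB1 ?_ (hzA z hz)
    obtain ⟨A2', rfl⟩ := Multiset.exists_cons_of_mem hz
    rw [hA, Multiset.add_cons]
    exact Multiset.cons_le_cons z (Multiset.le_add_right _ _)
  have kB : ∀ z ∈ B2, Nat.testBit (cand2 FO FE al st) (code z) = true := by
    intro z hz
    refine keep_odd hC hF hFO hn hcfg hinv hA1 ?_ (hzB z hz)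
    obtain ⟨B2', rfl⟩ := Multiset.exists_cons_of_mem hz
    rw [hB, Multiset.add_cons]
    exact Multiset.cons_le_cons z (Multiset.le_add_right _ _)
  have hs0 : A1.sum + A2.sum + (B1.sum + B2.sum) = 0 := by
    have := hcfg.sum0
    rwa [hA, hB, Multiset.sum_add, Multiset.sum_add] at this
  by_cases h2 : r = 2
  · rw [h2] at h
    have e : Nat.beq 2 2 = true := rfl
    rw [e, cond_true] at h
    rcases Nat.eq_zero_or_pos (card A2) with hc | hc
    · have hA0 : A2 = 0 := Multiset.card_eq_zero.mp hc
      obtain ⟨y, hy⟩ := Multiset.card_eq_one.mp (show card B2 = 1 by omega)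
      have hyq : y = -(A1.sum + B1.sum) := by
        rw [hA0, hy, Multiset.sum_zero, add_zero, Multiset.sum_singleton] at hs0
        rw [← add_assoc] at hs0
        exact (neg_eq_of_add_eq_zero_right hs0).symm
      refine last_check _ q (code y) false (by rw [hq, ← hyq]) ?_ h
      exact kB y (by rw [hy]; exact Multiset.mem_singleton_self y)
    · have hB0 : B2 = 0 := Multiset.card_eq_zero.mp (by omega)
      obtain ⟨y, hy⟩ := Multiset.card_eq_one.mp (show card A2 = 1 by omega)
      have hyq : y = -(A1.sum + B1.sum) := by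
        rw [hB0, hy, Multiset.sum_zero, add_zero, Multiset.sum_singleton] at hs0
        have : A1.sum + B1.sum + y = 0 := by rw [← hs0]; abel
        exact (neg_eq_of_add_eq_zero_right this).symm
      refine last_check _ q (code y) true (by rw [hq, ← hyq]) ?_ h
      exact kA y (by rw [hy]; exact Multiset.mem_singleton_self y)
  · have e : Nat.beq r 2 = false := by
      rw [← Bool.not_eq_true, Nat.beq_eq]
      exact h2
    rw [e, cond_false] at h
    refine ih st (r - 1) q _ _ A1 B1 A2 B2 hA hB (by omega) (by omega) hinv hq kA kB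
      (fun k hk => hk) ?_ h
    rcases Nat.eq_zero_or_pos (card A2) with hc | hc
    · right
      obtain ⟨y, hy⟩ := Multiset.card_pos_iff_exists_mem.mp (show 0 < card B2 by omega)
      exact ⟨y, hy, kB y hy⟩
    · left
      obtain ⟨y, hy⟩ := Multiset.card_pos_iff_exists_mem.mp hc
      exact ⟨y, hy, kA y hy⟩

theorem claim (hC : StmtCode) (hTr : StmtTrComp) (hL : StmtLow) (hF : StmtFold) (hI : StmtInv)
    (hFO : FOK n olo ohi elo ehi FO) (hFE : FOKE n olo ohi elo ehi FE)
    (hn : card A + card B = n) (hcfg : Cfg olo ohi elo ehi A B) :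
    ∀ (f st r q al br : ℕ) (A1 B1 A2 B2 : Multiset V), A = A1 + A2 → B = B1 + B2 →
      card A2 + card B2 = r → 2 ≤ r → Inv A1 B1 st → q = 2 ^ code (-(A1.sum + B1.sum)) →
      (∀ z ∈ A2, Nat.testBit al (81 + code z) = true) →
      (∀ z ∈ B2, Nat.testBit al (code z) = true) →
      (∀ k, Nat.testBit br k = true → Nat.testBit al k = true) →
      ((∃ z ∈ A2, Nat.testBit br (81 + code z) = true) ∨
        (∃ z ∈ B2, Nat.testBit br (code z) = true)) →
      go2 FO FE f st r q al br = true → False := by
  intro f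
  induction f with
  | zero =>
    intro st r q al br A1 B1 A2 B2 _ _ _ _ _ _ _ _ _ _ h
    rw [go2] at h
    exact Bool.noConfusion h
  | succ f ih =>
    intro st r q al br A1 B1 A2 B2 hA hB hr hr2 hinv hq hzA hzB hbr hex h
    have hbr0 : br ≠ 0 := by
      rintro rfl
      rcases hex with ⟨z, _, hz⟩ | ⟨z, _, hz⟩ <;>
      · rw [Nat.zero_testBit] at hz
        exact Bool.noConfusion hz
    obtain ⟨k, hk, hkb⟩ := hL br hbr0
    have e0 : Nat.beq br 0 = false := by
      rw [← Bool.not_eq_true, Nat.beq_eq]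
      exact hbr0
    rw [go2, e0, cond_false, hk] at h
    obtain ⟨hX, hY⟩ := (Bool.and_eq_true _ _).mp h
    by_cases hkA : ∃ z ∈ A2, k = 81 + code z
    · obtain ⟨z, hz, rfl⟩ := hkA
      obtain ⟨A2', rfl⟩ := Multiset.exists_cons_of_mem hz
      rw [add2_even, el2_even] at hX
      refine cont hC hF hFO hFE hn hcfg f al ih (addE st (2 ^ code z)) r
        (tr (2 ^ code z) q) (z ::ₘ A1) B1 A2' B2 ?_ hB ?_ hr2 (hI.1 _ _ _ z hinv) ?_
        (fun y hy => hzA y (Multiset.mem_cons_of_mem hy)) hzB hX
      · rw [hA, Multiset.add_cons, Multiset.cons_add]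
      · rw [← hr, Multiset.card_cons]; ring
      · rw [hq, hTr.1, Multiset.sum_cons]
        congr 2
        abel
    · by_cases hkB : ∃ z ∈ B2, k = code z
      · obtain ⟨z, hz, rfl⟩ := hkB
        obtain ⟨B2', rfl⟩ := Multiset.exists_cons_of_mem hz
        rw [add2_odd _ _ (hC.1 z), el2_odd _ (hC.1 z)] at hX
        refine cont hC hF hFO hFE hn hcfg f al ih (addO st (2 ^ code z)) r
          (tr (2 ^ code z) q) A1 (z ::ₘ B1) A2 B2' hA ?_ ?_ hr2 (hI.2.1 _ _ _ z hinv) ?_
          hzA (fun y hy => hzB y (Multiset.mem_cons_of_mem hy)) hX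
        · rw [hB, Multiset.add_cons, Multiset.cons_add]
        · rw [← hr, Multiset.card_cons]; ring
        · rw [hq, hTr.1, Multiset.sum_cons]
          congr 2
          abel
      · -- no element has the bit `k`
        have hsubB : ∀ j, Nat.testBit (2 ^ k) j = true → Nat.testBit br j = true := by
          intro j hj
          rw [bit_pow k j hj]
          exact hkb
        have hsubA : ∀ j, Nat.testBit (2 ^ k) j = true → Nat.testBit al j = true :=
          fun j hj => hbr j (hsubB j hj)
        have hne : ∀ j x : ℕ, (∀ i, Nat.testBit (2 ^ k) i = true → Nat.testBit x i = true) →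
            j ≠ k → Nat.testBit x j = true → Nat.testBit (x - 2 ^ k) j = true := by
          intro j x hx hj hxj
          rw [sub_bits j x (2 ^ k) hx, hxj, Bool.true_and]
          cases hb : Nat.testBit (2 ^ k) j
          · rfl
          · exact absurd (bit_pow k j hb) hj
        refine ih st r q (al - 2 ^ k) (br - 2 ^ k) A1 B1 A2 B2 hA hB hr hr2 hinv hq ?_ ?_ ?_ ?_ hY
        · intro z hz
          exact hne _ _ hsubA (fun hj => hkA ⟨z, hz, hj.symm⟩) (hzA z hz)
        · intro z hz
          exact hne _ _ hsubA (fun hj => hkB ⟨z, hz, hj.symm⟩) (hzB z hz)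
        · intro j hj
          rw [sub_bits j br (2 ^ k) hsubB, Bool.and_eq_true] at hj
          have hjk : j ≠ k := by
            rintro rfl
            have := hj.2
            rw [Nat.testBit_two_pow_self] at this
            exact Bool.noConfusion this
          exact hne _ _ hsubA hjk (hbr j hj.1)
        · rcases hex with ⟨z, hz, hzb⟩ | ⟨z, hz, hzb⟩
          · left
            exact ⟨z, hz, hne _ _ hsubB (fun hj => hkA ⟨z, hz, hj.symm⟩) hzb⟩
          · right
            exact ⟨z, hz, hne _ _ hsubB (fun hj => hkB ⟨z, hz, hj.symm⟩) hzb⟩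

end

end R2

open R2 in
/-- ZSE-ROOT2 -/
theorem stmtRoot2 (h1 : StmtCode) (_h2 : StmtTrSound) (h3 : StmtTrComp) (h5 : StmtLow)
    (h6 : StmtFold) (h7 : StmtInv) : StmtRoot2 := by
  intro n olo ohi elo ehi FO FE r st q al A B A1 B1 A2 B2 hFO hFE hA hB hn hr hr2 hcfg hinv hq
    hzA hzB h
  have hA1 : A1 ≤ A := by rw [hA]; exact Multiset.le_add_right _ _
  have hB1 : B1 ≤ B := by rw [hB]; exact Multiset.le_add_right _ _
  have kA : ∀ z ∈ A2, Nat.testBit (cand2 FO FE al st) (81 + code z) = true := by
    intro z hz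
    refine keep_even h1 h6 hFE hn hcfg hinv hB1 ?_ (hzA z hz)
    obtain ⟨A2', rfl⟩ := Multiset.exists_cons_of_mem hz
    rw [hA, Multiset.add_cons]
    exact Multiset.cons_le_cons z (Multiset.le_add_right _ _)
  have kB : ∀ z ∈ B2, Nat.testBit (cand2 FO FE al st) (code z) = true := by
    intro z hz
    refine keep_odd h1 h6 hFO hn hcfg hinv hA1 ?_ (hzB z hz)
    obtain ⟨B2', rfl⟩ := Multiset.exists_cons_of_mem hz
    rw [hB, Multiset.add_cons]
    exact Multiset.cons_le_cons z (Multiset.le_add_right _ _)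
  refine claim h1 h3 h5 h6 h7 hFO hFE hn hcfg 200 st r q _ _ A1 B1 A2 B2 hA hB hr hr2 hinv hq
    kA kB (fun k hk => hk) ?_ h
  rcases Nat.eq_zero_or_pos (card A2) with hc | hc
  · right
    obtain ⟨y, hy⟩ := Multiset.card_pos_iff_exists_mem.mp (show 0 < card B2 by omega)
    exact ⟨y, hy, kB y hy⟩
  · left
    obtain ⟨y, hy⟩ := Multiset.card_pos_iff_exists_mem.mp hc
    exact ⟨y, hy, kA y hy⟩

end Pool.Agent.R125.ZS
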