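import Pool.Agent.R125.ZS.Msk
import Pool.Agent.R125.ZS.Lev

/-! Kernel runs of the second search. -/

namespace Pool.Agent.R125.ZS

theorem sec15 : (lev9.all (fun v => v.all (fun x => Nat.blt x 81) && ((true && !(Nat.beq (qO v) 1)) ||
    root2 Fg15_5_10_8 Eg15_5_10_8 6 (stO v) (qO v) (two81 * two81 - 1)))) = true := by
  decide +kernel

theorem sec16 : (lev11.all (fun v => v.all (fun x => Nat.blt x 81) && ((false && !(Nat.beq (qO v) 1)) ||
    root2 Fg16_6_9_10 Eg16_6_9_10 5 (stO v) (qO v) (two81 * two81 - 1)))) = true := by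
  decide +kernel

end Pool.Agent.R125.ZS
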