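import Pool.Agent.R125.ZS.NoC
import Pool.Agent.R125.ZS.PolyC
import Pool.Agent.R125.ZS.Sec
import Pool.Agent.R125.ZS.Root2
import Pool.Agent.R125.ZS.Red
import Pool.Agent.R125.ZS.Ex
import Pool.Agent.R125.ZS.Fin

/-! The main theorems: no zero-sum sequences of length 15 and 17 without short zero-sum
subsequences. -/

namespace Pool.Agent.R125.ZS

open Multiset

theorem av_even {olo ohi ehi : ℕ} {A B : Multiset V} (h : Cfg olo ohi 7 ehi A B) (hB : 0 < card B) :
    Av6 A := by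
  intro A' hA' hne hsum
  have hpos : 0 < card A' := Multiset.card_pos.2 hne
  have hle := Multiset.card_le_card hA'
  have := h.ev A' hA' 0 (Multiset.zero_le _) (by simpa using hsum) (by simp)
    (by simpa using hpos) (by rw [Multiset.card_zero]; omega)
  simpa using this.1

theorem av_odd {ohi ehi : ℕ} {A B : Multiset V} (h : Cfg 6 ohi 7 ehi A B) (hA : 0 < card A) :
    Av6 B := by
  intro T hT hne hsum
  have hpos : 0 < card T := Multiset.card_pos.2 hne
  have hle := Multiset.card_le_card hT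
  rcases Nat.even_or_odd (card T) with he | ho
  · have := h.ev 0 (Multiset.zero_le _) T hT (by simpa using hsum) he
      (by simpa using hpos) (by rw [Multiset.card_zero]; omega)
    simpa using this.1
  · have := h.od 0 (Multiset.zero_le _) T hT (by simpa using hsum) (by simpa using ho)
      (by simpa using hpos) (by rw [Multiset.card_zero]; omega)
    have h6 : 6 ≤ card T := by simpa using this.1
    obtain ⟨m, hm⟩ := ho
    omega

/-- an all-odd block of length 9 in the case of length 15 is minimal -/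
theorem av_nine {A B B1 : Multiset V} (h : Cfg 5 10 7 8 A B) (hn : card A + card B = 15)
    (hB1 : B1 ≤ B) (hc : card B1 = 9) (hs : B1.sum = 0) : Av6 B1 := by
  have hlow : ∀ T ≤ B1, T ≠ 0 → T.sum = 0 → 5 ≤ card T := by
    intro T hT hne hsum
    have hpos : 0 < card T := Multiset.card_pos.2 hne
    have hle := Multiset.card_le_card hT
    rcases Nat.even_or_odd (card T) with he | ho
    · have := h.ev 0 (Multiset.zero_le _) T (le_trans hT hB1) (by simpa using hsum) he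
        (by simpa using hpos) (by rw [Multiset.card_zero]; omega)
      have h6 : 7 ≤ card T := by simpa using this.1
      omega
    · have := h.od 0 (Multiset.zero_le _) T (le_trans hT hB1) (by simpa using hsum)
        (by simpa using ho) (by simpa using hpos) (by rw [Multiset.card_zero]; omega)
      simpa using this.1
  intro T hT hne hsum
  by_contra hcon
  push Not at hcon
  obtain ⟨U, rfl⟩ := Multiset.le_iff_exists_add.1 hT
  rw [Multiset.card_add] at hc
  have hU : U ≠ 0 := by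
    rintro rfl
    simp at hc
    omega
  have hUs : U.sum = 0 := by
    rw [Multiset.sum_add, hsum, zero_add] at hs
    exact hs
  have h1 := hlow T (Multiset.le_add_right _ _) hne hsum
  have h2 := hlow U (Multiset.le_add_left _ _) hU hUs
  omega

theorem hroot2 : StmtRoot2 :=
  stmtRoot2 stmtCode stmtTrSound stmtTrComp stmtLow stmtFold inv

theorem second15 {A B B1 : Multiset V} (h : Cfg 5 10 7 8 A B) (hn : card A + card B = 15)
    (hB1 : B1 ≤ B) (hc : card B1 = 9) (hs : B1.sum = 0) : False :=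
  stmtNo2 stmtCode stmtTrComp inv hroot2 15 9 6 5 10 8 Fg15_5_10_8 Eg15_5_10_8 true lev9
    hFg15_5_10_8 hEg15_5_10_8 (by norm_num) (by norm_num) cov9 sec15 A B B1 hn h hB1 hc
    (av_nine h hn hB1 hc hs) (fun _ => hs)

theorem second16 {A B : Multiset V} (h : Cfg 6 9 7 10 A B) (hA : card A = 5) (hB : card B = 11) :
    False :=
  stmtNo2 stmtCode stmtTrComp inv hroot2 16 11 5 6 9 10 Fg16_6_9_10 Eg16_6_9_10 false lev11
    hFg16_6_9_10 hEg16_6_9_10 (by norm_num) (by norm_num) cov11 sec16 A B B (by omega) h le_rfl hB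
    (av_odd h (by omega)) (fun h => absurd h (by decide))

theorem nC1 : No 14 False 6 7 7 8 (fun _ => True) := by
  intro A B hn hp hcond hC
  have hodd : card B % 2 = 1 := by
    by_contra h
    exact hp.1 (Nat.even_iff.2 (by omega))
  obtain ⟨s, hs⟩ : ∃ s, card B = s := ⟨_, rfl⟩
  have hle : s ≤ 14 := by omega
  rcases (by omega : s = 1 ∨ s = 3 ∨ s = 5 ∨ s = 7 ∨ s = 9 ∨ s = 11 ∨ s = 13) with rfl | rfl | rfl | rfl | rfl | rfl | rfl
  · exact no_of_poly 13 1 6 7 7 8 _ pc_C1_13 A B (by omega) hs hC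
  · exact no_of_poly 11 3 6 7 7 8 _ pc_C1_11 A B (by omega) hs hC
  · exact no_of_poly 9 5 6 7 7 8 _ pc_C1_9 A B (by omega) hs hC
  · exact no_of_poly 7 7 6 7 7 8 _ pc_C1_7 A B (by omega) hs hC
  · exact no_of_poly 5 9 6 7 7 8 _ pc_C1_5 A B (by omega) hs hC
  · exact no_of_poly 3 11 6 7 7 8 _ pc_C1_3 A B (by omega) hs hC
  · exact no_of_poly 1 13 6 7 7 8 _ pc_C1_1 A B (by omega) hs hC

theorem nC2 : No 13 False 5 6 7 8 (fun _ => True) := by
  intro A B hn hp hcond hC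
  have hodd : card B % 2 = 1 := by
    by_contra h
    exact hp.1 (Nat.even_iff.2 (by omega))
  obtain ⟨s, hs⟩ : ∃ s, card B = s := ⟨_, rfl⟩
  have hle : s ≤ 13 := by omega
  rcases (by omega : s = 1 ∨ s = 3 ∨ s = 5 ∨ s = 7 ∨ s = 9 ∨ s = 11 ∨ s = 13) with rfl | rfl | rfl | rfl | rfl | rfl | rfl
  · exact no_of_poly 12 1 5 6 7 8 _ pc_C2_12 A B (by omega) hs hC
  · exact nc3 A B (by omega) hs hC
  · exact nc2 A B (by omega) hs hC
  · exact nc1 A B (by omega) hs hC
  · exact no_of_poly 4 9 5 6 7 8 _ pc_C2_4 A B (by omega) hs hC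
  · exact no_of_poly 2 11 5 6 7 8 _ pc_C2_2 A B (by omega) hs hC
  · exact no_of_poly 0 13 5 6 7 8 _ pc_C2_0 A B (by omega) hs hC

theorem nC3 : No 12 False 4 5 7 8 (fun _ => True) := by
  intro A B hn hp hcond hC
  have hodd : card B % 2 = 1 := by
    by_contra h
    exact hp.1 (Nat.even_iff.2 (by omega))
  obtain ⟨s, hs⟩ : ∃ s, card B = s := ⟨_, rfl⟩
  have hle : s ≤ 12 := by omega
  rcases (by omega : s = 1 ∨ s = 3 ∨ s = 5 ∨ s = 7 ∨ s = 9 ∨ s = 11) with rfl | rfl | rfl | rfl | rfl | rfl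
  · exact no_of_poly 11 1 4 5 7 8 _ pc_C3_11 A B (by omega) hs hC
  · exact no_of_poly 9 3 4 5 7 8 _ pc_C3_9 A B (by omega) hs hC
  · exact no_of_poly 7 5 4 5 7 8 _ pc_C3_7 A B (by omega) hs hC
  · exact no_of_poly 5 7 4 5 7 8 _ pc_C3_5 A B (by omega) hs hC
  · exact no_of_poly 3 9 4 5 7 8 _ pc_C3_3 A B (by omega) hs hC
  · exact no_of_poly 1 11 4 5 7 8 _ pc_C3_1 A B (by omega) hs hC

theorem nC4 : No 11 False 4 4 7 7 (fun _ => True) := by
  intro A B hn hp hcond hC
  have hodd : card B % 2 = 1 := by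
    by_contra h
    exact hp.1 (Nat.even_iff.2 (by omega))
  obtain ⟨s, hs⟩ : ∃ s, card B = s := ⟨_, rfl⟩
  have hle : s ≤ 11 := by omega
  rcases (by omega : s = 1 ∨ s = 3 ∨ s = 5 ∨ s = 7 ∨ s = 9 ∨ s = 11) with rfl | rfl | rfl | rfl | rfl | rfl
  · exact no_of_poly 10 1 4 4 7 7 _ pc_C4_10 A B (by omega) hs hC
  · exact no_of_poly 8 3 4 4 7 7 _ pc_C4_8 A B (by omega) hs hC
  · exact no_of_poly 6 5 4 4 7 7 _ pc_C4_6 A B (by omega) hs hC
  · exact no_of_poly 4 7 4 4 7 7 _ pc_C4_4 A B (by omega) hs hC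
  · exact no_of_poly 2 9 4 4 7 7 _ pc_C4_2 A B (by omega) hs hC
  · exact no_of_poly 0 11 4 4 7 7 _ pc_C4_0 A B (by omega) hs hC

theorem nC5 : No 15 True 5 10 7 8 (fun _ => True) := by
  intro A B hn hp hcond hC
  have hodd : card B % 2 = 0 := Nat.even_iff.1 (hp.2 trivial)
  obtain ⟨s, hs⟩ : ∃ s, card B = s := ⟨_, rfl⟩
  have hle : s ≤ 15 := by omega
  rcases (by omega : s = 0 ∨ s = 2 ∨ s = 4 ∨ s = 6 ∨ s = 8 ∨ s = 10 ∨ s = 12 ∨ s = 14) with rfl | rfl | rfl | rfl | rfl | rfl | rfl | rfl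
  · exact no_of_poly 15 0 5 10 7 8 _ pc_C5_15 A B (by omega) hs hC
  · exact no_of_poly 13 2 5 10 7 8 _ pc_C5_13 A B (by omega) hs hC
  · exact no_of_poly 11 4 5 10 7 8 _ pc_C5_11 A B (by omega) hs hC
  · exact no_of_poly 9 6 5 10 7 8 _ pc_C5_9 A B (by omega) hs hC
  · exact nc4 A B (by omega) hs hC
  · obtain ⟨B1, hB1, hc, hsum⟩ := block_of_poly 5 10 5 10 7 8 _ pc_C5x_5 A B (by omega) hs hC
    exact second15 hC hn hB1 hc hsum
  · obtain ⟨B1, hB1, hc, hsum⟩ := block_of_poly 3 12 5 10 7 8 _ pc_C5x_3 A B (by omega) hs hC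
    exact second15 hC hn hB1 hc hsum
  · obtain ⟨B1, hB1, hc, hsum⟩ := block_of_poly 1 14 5 10 7 8 _ pc_C5x_1 A B (by omega) hs hC
    exact second15 hC hn hB1 hc hsum

theorem nC12 : No 17 True 1 16 7 10 (fun t => t = 11) := by
  intro A B hn hp hcond hC
  have hodd : card B % 2 = 0 := Nat.even_iff.1 (hp.2 trivial)
  change card A = 11 at hcond
  obtain ⟨s, hs⟩ : ∃ s, card B = s := ⟨_, rfl⟩
  have hle : s ≤ 17 := by omega
  have hs1 : s = 6 := by omega
  subst hs1
  exact nc17 A B (by omega) hs hC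

theorem nC6 : No 16 False 6 9 7 10 (fun _ => True) := by
  intro A B hn hp hcond hC
  have hodd : card B % 2 = 1 := by
    by_contra h
    exact hp.1 (Nat.even_iff.2 (by omega))
  obtain ⟨s, hs⟩ : ∃ s, card B = s := ⟨_, rfl⟩
  have hle : s ≤ 16 := by omega
  rcases (by omega : s = 1 ∨ s = 3 ∨ s = 5 ∨ s = 7 ∨ s = 9 ∨ s = 11 ∨ s = 13 ∨ s = 15) with rfl | rfl | rfl | rfl | rfl | rfl | rfl | rfl
  · exact absurd (av6_card A (av_even hC (by omega))) (by omega)
  · exact absurd (av6_card A (av_even hC (by omega))) (by omega)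
  · exact nc9 A B (by omega) hs hC
  · exact nc8 A B (by omega) hs hC
  · exact nc7 A B (by omega) hs hC
  · exact second16 hC (by omega) hs
  · exact absurd (av6_card B (av_odd hC (by omega))) (by omega)
  · exact absurd (av6_card B (av_odd hC (by omega))) (by omega)

theorem nC7 : No 15 False 5 8 7 10 (fun _ => True) := by
  intro A B hn hp hcond hC
  have hodd : card B % 2 = 1 := by
    by_contra h
    exact hp.1 (Nat.even_iff.2 (by omega))
  obtain ⟨s, hs⟩ : ∃ s, card B = s := ⟨_, rfl⟩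
  have hle : s ≤ 15 := by omega
  rcases (by omega : s = 1 ∨ s = 3 ∨ s = 5 ∨ s = 7 ∨ s = 9 ∨ s = 11 ∨ s = 13 ∨ s = 15) with rfl | rfl | rfl | rfl | rfl | rfl | rfl | rfl
  · exact absurd (av6_card A (av_even hC (by omega))) (by omega)
  · exact absurd (av6_card A (av_even hC (by omega))) (by omega)
  · exact nc11 A B (by omega) hs hC
  · exact nc10 A B (by omega) hs hC
  · exact no_of_poly 6 9 5 8 7 10 _ pc_C7_6 A B (by omega) hs hC
  · exact no_of_poly 4 11 5 8 7 10 _ pc_C7_4 A B (by omega) hs hC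
  · exact no_of_poly 2 13 5 8 7 10 _ pc_C7_2 A B (by omega) hs hC
  · exact no_of_poly 0 15 5 8 7 10 _ pc_C7_0 A B (by omega) hs hC

theorem nC8 : No 14 False 4 7 7 10 (fun _ => True) := by
  intro A B hn hp hcond hC
  have hodd : card B % 2 = 1 := by
    by_contra h
    exact hp.1 (Nat.even_iff.2 (by omega))
  obtain ⟨s, hs⟩ : ∃ s, card B = s := ⟨_, rfl⟩
  have hle : s ≤ 14 := by omega
  rcases (by omega : s = 1 ∨ s = 3 ∨ s = 5 ∨ s = 7 ∨ s = 9 ∨ s = 11 ∨ s = 13) with rfl | rfl | rfl | rfl | rfl | rfl | rfl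
  · exact absurd (av6_card A (av_even hC (by omega))) (by omega)
  · exact nc14 A B (by omega) hs hC
  · exact nc13 A B (by omega) hs hC
  · exact nc12 A B (by omega) hs hC
  · exact no_of_poly 5 9 4 7 7 10 _ pc_C8_5 A B (by omega) hs hC
  · exact no_of_poly 3 11 4 7 7 10 _ pc_C8_3 A B (by omega) hs hC
  · exact no_of_poly 1 13 4 7 7 10 _ pc_C8_1 A B (by omega) hs hC

theorem nC9 : No 13 False 4 6 7 9 (fun t => t ≤ 8) := by
  intro A B hn hp hcond hC
  have hodd : card B % 2 = 1 := by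
    by_contra h
    exact hp.1 (Nat.even_iff.2 (by omega))
  change card A ≤ 8 at hcond
  obtain ⟨s, hs⟩ : ∃ s, card B = s := ⟨_, rfl⟩
  have hle : s ≤ 13 := by omega
  rcases (by omega : s = 5 ∨ s = 7 ∨ s = 9 ∨ s = 11 ∨ s = 13) with rfl | rfl | rfl | rfl | rfl
  · exact nc16 A B (by omega) hs hC
  · exact nc15 A B (by omega) hs hC
  · exact no_of_poly 4 9 4 6 7 9 _ pc_C9_4 A B (by omega) hs hC
  · exact no_of_poly 2 11 4 6 7 9 _ pc_C9_2 A B (by omega) hs hC
  · exact no_of_poly 0 13 4 6 7 9 _ pc_C9_0 A B (by omega) hs hC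

theorem nC10 : No 12 False 5 5 7 7 (fun _ => True) := by
  intro A B hn hp hcond hC
  have hodd : card B % 2 = 1 := by
    by_contra h
    exact hp.1 (Nat.even_iff.2 (by omega))
  obtain ⟨s, hs⟩ : ∃ s, card B = s := ⟨_, rfl⟩
  have hle : s ≤ 12 := by omega
  rcases (by omega : s = 1 ∨ s = 3 ∨ s = 5 ∨ s = 7 ∨ s = 9 ∨ s = 11) with rfl | rfl | rfl | rfl | rfl | rfl
  · exact no_of_poly 11 1 5 5 7 7 _ pc_C10_11 A B (by omega) hs hC
  · exact no_of_poly 9 3 5 5 7 7 _ pc_C10_9 A B (by omega) hs hC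
  · exact no_of_poly 7 5 5 5 7 7 _ pc_C10_7 A B (by omega) hs hC
  · exact no_of_poly 5 7 5 5 7 7 _ pc_C10_5 A B (by omega) hs hC
  · exact no_of_poly 3 9 5 5 7 7 _ pc_C10_3 A B (by omega) hs hC
  · exact no_of_poly 1 11 5 5 7 7 _ pc_C10_1 A B (by omega) hs hC

theorem nC11 : No 11 False 6 4 7 5 (fun _ => True) := by
  intro A B hn hp hcond hC
  have hodd : card B % 2 = 1 := by
    by_contra h
    exact hp.1 (Nat.even_iff.2 (by omega))
  obtain ⟨s, hs⟩ : ∃ s, card B = s := ⟨_, rfl⟩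
  have hle : s ≤ 11 := by omega
  rcases (by omega : s = 1 ∨ s = 3 ∨ s = 5 ∨ s = 7 ∨ s = 9 ∨ s = 11) with rfl | rfl | rfl | rfl | rfl | rfl
  · exact no_of_poly 10 1 6 4 7 5 _ pc_C11_10 A B (by omega) hs hC
  · exact no_of_poly 8 3 6 4 7 5 _ pc_C11_8 A B (by omega) hs hC
  · exact no_of_poly 6 5 6 4 7 5 _ pc_C11_6 A B (by omega) hs hC
  · exact no_of_poly 4 7 6 4 7 5 _ pc_C11_4 A B (by omega) hs hC
  · exact no_of_poly 2 9 6 4 7 5 _ pc_C11_2 A B (by omega) hs hC
  · exact no_of_poly 0 11 6 4 7 5 _ pc_C11_0 A B (by omega) hs hC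

theorem main15 (A B : Multiset V) (hn : card A + card B = 15) (hB : Even (card B))
    (hs : A.sum + B.sum = 0) : ¬ SF A B :=
  red15 nC1 nC2 nC3 nC4 nC5 A B hn hB hs

theorem main17 (A B : Multiset V) (hn : card A + card B = 17) (hB : Even (card B))
    (hs : A.sum + B.sum = 0) : ¬ SF A B :=
  red17 av6_card nC12 nC6 nC7 nC8 nC9 nC10 nC11 A B hn hB hs

theorem mainC0 : 15 ∈ C0 G ∧ 16 ∉ C0 G ∧ 17 ∈ C0 G ∧ ¬ IsAddCyclic G :=
  fin ex16 ex19 main15 main17

end Pool.Agent.R125.ZS
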