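import Pool.Agent.R125.ZS.Stm3

/-! Project ZS (helper125, MP_3fb682_nt), piece NO by helper744: lists of root checks imply that there is no
configuration. -/

namespace Pool.Agent.R125.ZS

open Multiset

namespace NoAux

lemma bltT {a b : ℕ} : Nat.blt a b = true ↔ a < b := by rw [Nat.blt_eq]

lemma bleT {a b : ℕ} : Nat.ble a b = true ↔ a ≤ b := by rw [Nat.ble_eq]

lemma bleF {a b : ℕ} : Nat.ble a b = false ↔ ¬ a ≤ b := by rw [← Bool.not_eq_true, Nat.ble_eq]

lemma beqF {a b : ℕ} : Nat.beq a b = false ↔ a ≠ b := by rw [← Bool.not_eq_true, Nat.beq_eq]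

lemma beqT {a b : ℕ} : Nat.beq a b = true ↔ a = b := by rw [Nat.beq_eq]

lemma cfg_map {olo ohi elo ehi : ℕ} {A B : Multiset V} (h : Cfg olo ohi elo ehi A B) (φ : V →+ V)
    (hφ : Function.Injective φ) : Cfg olo ohi elo ehi (A.map φ) (B.map φ) := by
  have hbij : Function.Bijective φ := Finite.injective_iff_bijective.1 hφ
  set e : V ≃+ V := AddEquiv.ofBijective φ hbij with he
  have hinv : ∀ A : Multiset V, (A.map φ).map e.symm = A := fun A => by
    rw [Multiset.map_map]
    conv_rhs => rw [← Multiset.map_id A]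
    refine Multiset.map_congr rfl fun x _ => ?_
    show e.symm (φ x) = x
    exact e.symm_apply_apply x
  have hsum : ∀ A : Multiset V, (A.map e.symm).sum = e.symm A.sum := fun A =>
    (map_multiset_sum e.symm A).symm
  have hle : ∀ A A' : Multiset V, A' ≤ A.map φ → A'.map e.symm ≤ A := fun A A' hA => by
    have := Multiset.map_le_map (f := e.symm) hA
    rwa [hinv] at this
  refine ⟨?_, ?_, ?_⟩
  · rw [← map_multiset_sum φ, ← map_multiset_sum φ, ← _root_.map_add, h.sum0, _root_.map_zero]
  · intro A' hA B' hB h0 hev hpos hlt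
    have h1 := h.ev (A'.map e.symm) (hle A A' hA) (B'.map e.symm) (hle B B' hB)
      (by rw [hsum, hsum, ← _root_.map_add, h0, _root_.map_zero]) (by rwa [Multiset.card_map])
      (by rwa [Multiset.card_map, Multiset.card_map])
      (by rw [Multiset.card_map, Multiset.card_map]; simpa [Multiset.card_map] using hlt)
    rwa [Multiset.card_map, Multiset.card_map] at h1
  · intro A' hA B' hB h0 hev hpos hlt
    have h1 := h.od (A'.map e.symm) (hle A A' hA) (B'.map e.symm) (hle B B' hB)
      (by rw [hsum, hsum, ← _root_.map_add, h0, _root_.map_zero]) (by rwa [Multiset.card_map])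
      (by rwa [Multiset.card_map, Multiset.card_map])
      (by rw [Multiset.card_map, Multiset.card_map]; simpa [Multiset.card_map] using hlt)
    rwa [Multiset.card_map, Multiset.card_map] at h1

lemma bit_eq (x : ℕ) : bit x = 2 ^ x := by
  unfold bit
  exact Nat.one_shiftLeft x

lemma all_lt {v : List ℕ} (h : v.all (fun x => Nat.blt x 81) = true) : ∀ x ∈ v, x < 81 := by
  intro x hx
  have := List.all_eq_true.1 h x hx
  exact bltT.1 this

lemma foldE (h1 : StmtCode) (h7 : StmtInv) : ∀ (v : List ℕ), (∀ x ∈ v, x < 81) → ∀ (A B : Multiset V) (st : ℕ),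
    Inv A B st → Inv (Multiset.map dec (v : Multiset ℕ) + A) B (List.foldl addE st (v.map bit)) := by
  intro v
  induction v with
  | nil => intro _ A B st h; simpa using h
  | cons x v ih =>
    intro hv A B st h
    have hx : x < 81 := hv x (by simp)
    have h2 := ih (fun y hy => hv y (List.mem_cons_of_mem _ hy)) (dec x ::ₘ A) B (addE st (bit x)) (by
      have := h7.1 st A B (dec x) h
      rwa [h1.2.2 x hx, ← bit_eq] at this)
    have e : Multiset.map dec ((x :: v : List ℕ) : Multiset ℕ) + A =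
        Multiset.map dec (v : Multiset ℕ) + (dec x ::ₘ A) := by
      rw [← Multiset.cons_coe, Multiset.map_cons, Multiset.cons_add, Multiset.add_cons]
    rw [e]
    exact h2

lemma foldO (h1 : StmtCode) (h7 : StmtInv) : ∀ (v : List ℕ), (∀ x ∈ v, x < 81) → ∀ (A B : Multiset V) (st : ℕ),
    Inv A B st → Inv A (Multiset.map dec (v : Multiset ℕ) + B) (List.foldl addO st (v.map bit)) := by
  intro v
  induction v with
  | nil => intro _ A B st h; simpa using h
  | cons x v ih =>
    intro hv A B st h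
    have hx : x < 81 := hv x (by simp)
    have h2 := ih (fun y hy => hv y (List.mem_cons_of_mem _ hy)) A (dec x ::ₘ B) (addO st (bit x)) (by
      have := h7.2.1 st A B (dec x) h
      rwa [h1.2.2 x hx, ← bit_eq] at this)
    have e : Multiset.map dec ((x :: v : List ℕ) : Multiset ℕ) + B =
        Multiset.map dec (v : Multiset ℕ) + (dec x ::ₘ B) := by
      rw [← Multiset.cons_coe, Multiset.map_cons, Multiset.cons_add, Multiset.add_cons]
    rw [e]
    exact h2

lemma foldQ (h1 : StmtCode) (h3 : StmtTrComp) : ∀ (v : List ℕ), (∀ x ∈ v, x < 81) → ∀ (y : V) (q : ℕ),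
    q = 2 ^ code y → List.foldl (fun q L => tr L q) q (v.map bit) =
      2 ^ code (y - (Multiset.map dec (v : Multiset ℕ)).sum) := by
  intro v
  induction v with
  | nil => intro _ y q h; simpa using h
  | cons x v ih =>
    intro hv y q h
    have hx : x < 81 := hv x (by simp)
    have h2 := ih (fun y hy => hv y (List.mem_cons_of_mem _ hy)) (y - dec x) (tr (bit x) q) (by
      have := h3.1 (dec x) y
      rwa [h1.2.2 x hx, ← bit_eq, ← h] at this)
    have e : y - (Multiset.map dec ((x :: v : List ℕ) : Multiset ℕ)).sum =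
        y - dec x - (Multiset.map dec (v : Multiset ℕ)).sum := by
      rw [← Multiset.cons_coe, Multiset.map_cons, Multiset.sum_cons]
      abel
    rw [e]
    exact h2

lemma code_zero : code 0 = 0 := by
  unfold code
  simp

lemma dec_zero : dec 0 = 0 := by
  unfold dec
  funext i
  fin_cases i <;> simp

lemma qO_eq (h1 : StmtCode) (h3 : StmtTrComp) (v : List ℕ) (hv : ∀ x ∈ v, x < 81) :
    qO v = 2 ^ code (-(Multiset.map dec (v : Multiset ℕ)).sum) := by
  have := foldQ h1 h3 v hv 0 1 (by rw [code_zero, pow_zero])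
  rw [zero_sub] at this
  exact this

/-- a bit of a number below `2 ^ 2754` -/
lemma bit_range {F p : ℕ} (hF : F < 2 ^ 2754) (h : Nat.testBit F p = true) : p < 2754 := by
  by_contra hp
  push Not at hp
  have h1 : F < 2 ^ p := lt_of_lt_of_le hF (Nat.pow_le_pow_right (by norm_num) hp)
  rw [Nat.testBit_lt_two_pow h1] at h
  exact Bool.false_ne_true h

lemma bit_land {F p : ℕ} (h : Nat.testBit F p = true) : Nat.beq (Nat.land (Nat.shiftRight F p) 1) 0 = false := by
  rw [beqF]
  intro h0
  have h1 : (F >>> p) &&& 1 = 0 := h0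
  rw [Nat.testBit] at h
  rw [Nat.and_comm] at h1
  rw [h1] at h
  simp at h

lemma fokb_fok {n olo ohi elo ehi F : ℕ} (h : fokb n olo ohi elo ehi F = true) : FOK n olo ohi elo ehi F := by
  unfold fokb at h
  rw [Bool.and_eq_true] at h
  obtain ⟨hF, h⟩ := h
  have hF' : F < 2 ^ 2754 := bltT.1 hF
  intro j c q hc hq hb
  have hp := bit_range hF' hb
  have h1 := List.all_eq_true.1 h _ (List.mem_range.2 hp)
  rw [bit_land hb] at h1
  have e1 : (81 * (2 * j + c) + q) / 162 = j := by omega
  have e2 : (81 * (2 * j + c) + q) / 81 % 2 = c := by omega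
  rw [e1, e2] at h1
  simp only [Bool.false_or, Bool.and_eq_true, Bool.or_eq_true, Bool.not_eq_true', bleT, bleF, beqF,
    Bool.and_eq_false_iff] at h1
  obtain ⟨⟨h2, h3⟩, h4⟩ := h1
  refine ⟨h2, fun hc0 => ?_, fun hc1 => ?_⟩
  · rintro ⟨h5, h6⟩
    omega
  · rintro ⟨h5, h6⟩
    omega

lemma fok2b_fok2 {n olo ohi elo ehi F : ℕ} (h : fok2b n olo ohi elo ehi F = true) : FOK2 n olo ohi elo ehi F := by
  unfold fok2b at h
  rw [Bool.and_eq_true] at h
  obtain ⟨hF, h⟩ := h
  have hF' : F < 2 ^ 2754 := bltT.1 hF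
  intro j c q hc hq hb
  have hp := bit_range hF' hb
  have h1 := List.all_eq_true.1 h _ (List.mem_range.2 hp)
  rw [bit_land hb] at h1
  have e1 : (81 * (2 * j + c) + q) / 162 = j := by omega
  have e2 : (81 * (2 * j + c) + q) / 81 % 2 = c := by omega
  rw [e1, e2] at h1
  simp only [Bool.false_or, Bool.and_eq_true, Bool.or_eq_true, Bool.not_eq_true', bleT, bleF, beqF,
    Bool.and_eq_false_iff] at h1
  obtain ⟨⟨h2, h3⟩, h4⟩ := h1
  refine ⟨h2, fun hc0 => ?_, fun hc1 => ?_⟩
  · rintro ⟨h5, h6⟩
    omega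
  · rintro ⟨h5, h6⟩
    omega

/-- a bit selected by `FZ` is impossible -/
lemma fzb_false {n elo ehi olo ohi FZ st : ℕ} {A B : Multiset V} (h : fzb n elo ehi FZ = true)
    (hcfg : Cfg olo ohi elo ehi A B) (hn : card A + card B = n) (hI : Inv A 0 st)
    (hne : Nat.beq (Nat.land st FZ) 0 = false) : False := by
  unfold fzb at h
  rw [Bool.and_eq_true] at h
  obtain ⟨hF, h⟩ := h
  have hF' : FZ < 2 ^ 2754 := bltT.1 hF
  rw [beqF] at hne
  obtain ⟨p, hp⟩ := Nat.exists_testBit_of_ne_zero hne
  have hp' : Nat.testBit (st &&& FZ) p = true := hp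
  rw [Nat.testBit_and, Bool.and_eq_true] at hp'
  have hpr := bit_range hF' hp'.2
  have h1 := List.all_eq_true.1 h _ (List.mem_range.2 hpr)
  rw [bit_land hp'.2] at h1
  simp only [Bool.false_or, Bool.and_eq_true, Bool.not_eq_true', bleT, bleF, beqT,
    Bool.and_eq_false_iff] at h1
  obtain ⟨⟨⟨⟨h2, h3⟩, h4⟩, h5⟩, h6⟩ := h1
  have e : p = 81 * (2 * (p / 162) + 0) + 0 := by omega
  have h7 := hp'.1
  rw [e] at h7
  obtain ⟨A', hA', B', hB', hc, _, hs⟩ := hI (p / 162) 0 0 (by norm_num) (by norm_num) h7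
  have hB0 : B' = 0 := Multiset.le_zero.1 hB'
  subst hB0
  rw [dec_zero, neg_zero] at hs
  have h8 := hcfg.ev A' hA' 0 (Multiset.zero_le _) hs (by simp) (by omega) (by omega)
  rw [hc] at h8
  omega

lemma chkRoots_mem (F F2 FZ mc s : ℕ) : ∀ (lev : List (List ℕ)) (cls : List (List (ℕ × ℕ))),
    chkRoots F F2 FZ mc s lev cls = true → ∀ v ∈ lev, ∃ cl,
      (v.all (fun x => Nat.blt x 81) && (!(Nat.beq (Nat.land (stE v) FZ) 0) ||
        root F F2 mc s (stE v) (qO v) full cl)) = true := by
  intro lev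
  induction lev with
  | nil => intro cls _ v hv; exact absurd hv List.not_mem_nil
  | cons w lev ih =>
    intro cls h v hv
    cases cls with
    | nil => exact Bool.noConfusion h
    | cons cl cls =>
      rw [chkRoots, Bool.and_eq_true] at h
      rcases List.mem_cons.1 hv with rfl | hv
      · exact ⟨cl, h.1⟩
      · exact ih cls h.2 v hv

end NoAux

open NoAux

theorem stmtNo : StmtNo := by
  intro h1 h3 h7 hroot n t s olo ohi ehi F F2 FZ mc lev cls hF hF2 hFZ hmc hs hts hn hcov hchk A B hA hB hcfg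
  have hav : Av6 A := by
    intro A' hA' hne hsum
    have hpos : 0 < card A' := Multiset.card_pos.2 hne
    have hle := Multiset.card_le_card hA'
    have := hcfg.ev A' hA' 0 (Multiset.zero_le _) (by simpa using hsum) (by simp) (by simpa using hpos)
      (by rw [Multiset.card_zero]; omega)
    simpa using this.1
  obtain ⟨φ, hφ, v, hv, hmap⟩ := hcov A hA hav
  obtain ⟨cl, hcl⟩ := chkRoots_mem F F2 FZ mc s lev cls hchk v hv
  rw [Bool.and_eq_true, Bool.or_eq_true] at hcl
  have hv81 := all_lt hcl.1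
  have hcfg' := cfg_map hcfg φ hφ
  have hI : Inv (A.map φ) 0 (stE v) := by
    have := foldE h1 h7 v hv81 0 0 1 h7.2.2
    rw [add_zero] at this
    rw [hmap]
    exact this
  have hcard : card (A.map φ) + card (B.map φ) = n := by rw [Multiset.card_map, Multiset.card_map, hA, hB, hts]
  rcases hcl.2 with h | h
  · rw [Bool.not_eq_true'] at h
    exact fzb_false hFZ hcfg' hcard hI h
  · refine hroot n olo ohi 7 ehi F F2 mc s (stE v) (qO v) cl (A.map φ) (B.map φ) (fokb_fok hF) (fok2b_fok2 hF2)
      ?_ hs hn hcard (by rw [Multiset.card_map, hB]) hcfg' hI ?_ h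
    · rcases hmc with h | h
      · exact Or.inl h
      · exact Or.inr ⟨h, le_rfl⟩
    · rw [hmap]
      exact qO_eq h1 h3 v hv81

theorem stmtNo2 : StmtNo2 := by
  intro h1 h3 h7 hroot n k r olo ohi ehi FO FE z lev hFO hFE hkr hr hcov hchk A B B1 hn hcfg hB1 hk hav hz
  obtain ⟨φ, hφ, v, hv, hmap⟩ := hcov B1 hk hav
  have hcl := List.all_eq_true.1 hchk v hv
  rw [Bool.and_eq_true, Bool.or_eq_true] at hcl
  have hv81 := all_lt hcl.1
  have hcfg' := cfg_map hcfg φ hφ
  obtain ⟨B2, rfl⟩ := Multiset.le_iff_exists_add.1 hB1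
  have hq := qO_eq h1 h3 v hv81
  have hI : Inv 0 (B1.map φ) (stO v) := by
    have := foldO h1 h7 v hv81 0 0 1 h7.2.2
    rw [add_zero] at this
    rw [hmap]
    exact this
  rcases hcl.2 with h | h
  · rw [Bool.and_eq_true, Bool.not_eq_true', beqF] at h
    apply h.2
    rw [hq, ← hmap, ← map_multiset_sum φ, hz h.1, _root_.map_zero, neg_zero, code_zero, pow_zero]
  · have hal : ∀ p < 162, Nat.testBit (two81 * two81 - 1) p = true := by
      intro p hp
      have e : two81 * two81 = 2 ^ 162 := by unfold two81; norm_num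
      rw [e, Nat.testBit_two_pow_sub_one]
      simpa using hp
    rw [Multiset.card_add] at hn
    refine hroot n olo ohi 7 ehi FO FE r (stO v) (qO v) (two81 * two81 - 1) (A.map φ) ((B1 + B2).map φ) 0
      (B1.map φ) (A.map φ) (B2.map φ) (fokb_fok hFO) ?_ (by rw [zero_add]) (Multiset.map_add _ _ _) ?_ ?_ hr
      hcfg' hI ?_ (fun z _ => hal _ ?_) (fun z _ => hal _ ?_) h
    · exact fun j c q hc hq hb => fokb_fok hFE j c q hc hq hb
    · rw [Multiset.card_map, Multiset.card_map, Multiset.card_add]; omega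
    · rw [Multiset.card_map, Multiset.card_map]; omega
    · rw [Multiset.sum_zero, zero_add, hmap]
      exact hq
    · have := h1.1 z; omega
    · have := h1.1 z; omega

end Pool.Agent.R125.ZS
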