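import Pool.Agent.R125.ZS.Root
import Pool.Agent.R125.ZS.No

/-! Root checks with the reduction for even parts lying in a hyperplane. -/

namespace Pool.Agent.R125.ZS

open Multiset RootP NoAux

/-- the search from a state with allowed set `al` -/
def rt1 (F : ℕ) (cl : List (ℕ × ℕ)) (s st q al : ℕ) : Bool :=
  go F cl 100 st s q (cand F al st) (sel cl (Nat.sub s 1) (cand F al st))

/-- root check for an even part with last coordinates zero -/
def root3 (F F2 mc s : ℕ) (v : List ℕ) (cl : List (ℕ × ℕ)) : Bool :=
  and (cchecks (fold (Nat.land (stE v) F2)) mc cl)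
  (and (rt1 F cl s (stE v) (qO v) 134217727)
    (rt1 F cl (Nat.sub s 1) (addO (stE v) 134217728) (tr 134217728 (qO v)) full))

/-- all root checks of a list of representatives -/
def chkR (F F2 FZ mc s : ℕ) : List (List ℕ) → List (List (ℕ × ℕ)) → Bool
  | [], _ => true
  | _ :: _, [] => false
  | v :: vs, cl :: cls =>
    and (v.all (fun x => Nat.blt x 81)) (and (or (not (Nat.beq (Nat.land (stE v) FZ) 0))
      (cond (v.all (fun x => Nat.blt x 27)) (root3 F F2 mc s v cl)
        (root F F2 mc s (stE v) (qO v) full cl))) (chkR F F2 FZ mc s vs cls))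

theorem chkR_append (F F2 FZ mc s : ℕ) : ∀ (a : List (List ℕ)) (ca : List (List (ℕ × ℕ)))
    (b : List (List ℕ)) (cb : List (List (ℕ × ℕ))), a.length = ca.length →
    chkR F F2 FZ mc s a ca = true → chkR F F2 FZ mc s b cb = true →
    chkR F F2 FZ mc s (a ++ b) (ca ++ cb) = true := by
  intro a
  induction a with
  | nil => intro ca b cb hl _ hb; cases ca with
    | nil => simpa using hb
    | cons _ _ => simp at hl
  | cons v a ih => intro ca b cb hl ha hb; cases ca with
    | nil => simp at hl
    | cons cl ca =>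
      rw [chkR, Bool.and_eq_true, Bool.and_eq_true] at ha
      rw [List.cons_append, List.cons_append, chkR, Bool.and_eq_true, Bool.and_eq_true]
      exact ⟨ha.1, ha.2.1, ih ca b cb (by simpa using hl) ha.2.2 hb⟩

theorem classBound (h1 : StmtCode) (h2 : StmtTrSound)
    (h5 : StmtLow) (h6 : StmtFold) {n olo ohi elo ehi F2 mc st : ℕ} {cl : List (ℕ × ℕ)}
    {A B : Multiset V} (hF2 : FOK2 n olo ohi elo ehi F2)
    (hmc : (mc = 2 ∧ 4 ≤ olo) ∨ (mc = 5 ∧ 7 ≤ elo)) (hn7 : 7 < n) (hn : card A + card B = n)
    (hC : Cfg olo ohi elo ehi A B) (hI : Inv A 0 st)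
    (hcc : cchecks (fold (Nat.land st F2)) mc cl = true) :
    ∀ p ∈ cl, card (B.filter (fun z => Nat.testBit p.1 (code z) = true)) ≤ p.2 := by
  -- multiplicities
  have hmul : ∀ x : V, ∀ k, Multiset.replicate k x ≤ B → k ≤ mc := by
    intro x k hk
    by_contra hcon
    push Not at hcon
    rcases hmc with ⟨hmc, ho⟩ | ⟨hmc, he⟩
    · have hle : Multiset.replicate 3 x ≤ B :=
        le_trans (Multiset.replicate_le_replicate x |>.mpr (by omega)) hk
      have hsum : (0 : Multiset V).sum + (Multiset.replicate 3 x).sum = 0 := by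
        rw [Multiset.sum_replicate, Multiset.sum_zero, zero_add]
        funext i
        have : ∀ a : ZMod 3, (3 : ℕ) • a = 0 := by decide
        exact this (x i)
      have := hC.od 0 (Multiset.zero_le _) _ hle hsum (by rw [Multiset.card_replicate]; decide)
        (by rw [Multiset.card_replicate]; omega) (by rw [Multiset.card_replicate]; simp; omega)
      rw [Multiset.card_replicate] at this
      simp at this
      omega
    · have hle : Multiset.replicate 6 x ≤ B :=
        le_trans (Multiset.replicate_le_replicate x |>.mpr (by omega)) hk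
      have hsum : (0 : Multiset V).sum + (Multiset.replicate 6 x).sum = 0 := by
        rw [Multiset.sum_replicate, Multiset.sum_zero, zero_add]
        funext i
        have : ∀ a : ZMod 3, (6 : ℕ) • a = 0 := by decide
        exact this (x i)
      have := hC.ev 0 (Multiset.zero_le _) _ hle hsum (by rw [Multiset.card_replicate]; decide)
        (by rw [Multiset.card_replicate]; omega) (by rw [Multiset.card_replicate]; simp; omega)
      rw [Multiset.card_replicate] at this
      simp at this
      omega
  -- classes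
  have hcl : ∀ p ∈ cl, card (B.filter (fun z => Nat.testBit p.1 (code z) = true)) ≤ p.2 := by
    intro p hp
    obtain ⟨hp2, hpc⟩ := cchecks_mem _ _ _ hcc p hp
    have hkey : ∀ x y : V, x ::ₘ {y} ≤ B → Nat.testBit p.1 (code x) = true →
        Nat.testBit p.1 (code y) = true → (p.2 = 1 ∨ code y ≠ code x) → False := by
      intro x y hxy hx hy hor
      exact pair_bad hF2 h1 h2 h6 hn hC hI hxy
        (ccheck_sound h5 _ _ _ _ _ (fun i hi => hi) hpc (code x) hx (code y) hy hor)
    have hinj : ∀ x y : V, code y = code x → y = x := by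
      intro x y h
      rw [← h1.2.1 y, h, h1.2.1]
    set D := B.filter (fun z => Nat.testBit p.1 (code z) = true) with hD
    have hDle : D ≤ B := Multiset.filter_le _ _
    have hDm : ∀ z ∈ D, Nat.testBit p.1 (code z) = true := by
      intro z hz
      exact (Multiset.mem_filter.mp hz).2
    by_contra hcon
    push Not at hcon
    have hD1 : 0 < card D := by omega
    obtain ⟨x, hx⟩ := Multiset.card_pos_iff_exists_mem.mp hD1
    have hall : ∀ y ∈ D, y = x := by
      intro y hy
      by_contra hne
      have hle : x ::ₘ {y} ≤ D := by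
        obtain ⟨D', hD'⟩ := Multiset.exists_cons_of_mem hx
        rw [hD'] at hy ⊢
        have hy' : y ∈ D' := by
          rcases Multiset.mem_cons.mp hy with h | h
          · exact absurd h hne
          · exact h
        exact Multiset.cons_le_cons x (Multiset.singleton_le.mpr hy')
      exact hkey x y (le_trans hle hDle) (hDm x hx) (hDm y hy)
        (Or.inr (fun h => hne (hinj x y h)))
    have hrep : D = Multiset.replicate (card D) x := Multiset.eq_replicate.mpr ⟨rfl, hall⟩
    rcases hp2 with hp2 | hp2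
    · have hle : x ::ₘ {x} ≤ B := by
        refine le_trans ?_ hDle
        rw [hrep]
        have : x ::ₘ {x} = Multiset.replicate 2 x := rfl
        rw [this]
        exact Multiset.replicate_le_replicate x |>.mpr (by omega)
      exact hkey x x hle (hDm x hx) (hDm x hx) (Or.inl hp2)
    · have := hmul x (card D) (by rw [← hrep]; exact hDle)
      omega
  exact hcl

theorem rt1_sound (h1 : StmtCode) (h3 : StmtTrComp) (h4 : StmtNeg)
    (h5 : StmtLow) (h6 : StmtFold) (h7 : StmtInv) (h8 : StmtSel)
    {n olo ohi elo ehi F s st q al : ℕ} {cl : List (ℕ × ℕ)}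
    (hF : FOK n olo ohi elo ehi F) {A B B1 B2 : Multiset V} (hn : card A + card B = n)
    (hC : Cfg olo ohi elo ehi A B)
    (hcl : ∀ p ∈ cl, card (B.filter (fun z => Nat.testBit p.1 (code z) = true)) ≤ p.2)
    (hB : B = B1 + B2) (hs : card B2 = s) (hs2 : 2 ≤ s) (hI : Inv A B1 st)
    (hq : q = 2 ^ code (-(A.sum + B1.sum))) (hal : ∀ z ∈ B2, Nat.testBit al (code z) = true)
    (h : rt1 F cl s st q al = true) : False := by
  have hal' : ∀ z ∈ B2, Nat.testBit (cand F al st) (code z) = true := by
    intro z hz
    rw [tb_cand, cand_ok hF h1 h6 hn hB hC hI hz, hal z hz]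
    rfl
  have hcl2 : ∀ p ∈ cl, card (B2.filter (fun z => Nat.testBit p.1 (code z) = true)) ≤ p.2 := by
    intro p hp
    refine le_trans ?_ (hcl p hp)
    apply Multiset.card_le_card
    apply Multiset.filter_le_filter
    rw [hB]
    exact Multiset.le_add_left _ _
  refine go_sound hF h1 h3 h4 h5 h6 h7 h8 hn hC hcl 100 st s q _ _ B1 B2 hB hs hs2 hI hq
    hal' ?_ ?_ h
  · exact h8 cl (s - 1) _ B2 hal' hcl2 (by rw [hs]; omega)
  · intro i hi
    exact sel_sub _ _ _ _ hi

/-- a linear map fixing the hyperplane and sending `y` to the last basis vector -/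
theorem exists_psi (y : V) (hy : y 3 ≠ 0) : ∃ ψ : V →+ V, Function.Injective ψ ∧
    (∀ x : V, x 3 = 0 → ψ x = x) ∧ ψ y = dec 27 := by
  have hsq : y 3 * y 3 = 1 := by
    have : ∀ a : ZMod 3, a ≠ 0 → a * a = 1 := by decide
    exact this _ hy
  refine ⟨⟨⟨fun x => ![x 0 - x 3 * y 3 * y 0, x 1 - x 3 * y 3 * y 1,
      x 2 - x 3 * y 3 * y 2, x 3 * y 3], ?_⟩, ?_⟩, ?_, ?_, ?_⟩
  · funext i; fin_cases i <;> simp
  · intro a b
    funext i
    fin_cases i <;> simp <;> ring
  · rw [injective_iff_map_eq_zero]
    intro x hx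
    have e0 := congrFun hx 0
    have e1 := congrFun hx 1
    have e2 := congrFun hx 2
    have e3 := congrFun hx 3
    simp at e0 e1 e2 e3
    have h3 : x 3 = 0 := by
      rcases e3 with h | h
      · exact h
      · exact absurd h hy
    rw [h3] at e0 e1 e2
    simp at e0 e1 e2
    funext i
    fin_cases i
    · exact e0
    · exact e1
    · exact e2
    · exact h3
  · intro x hx
    funext i
    fin_cases i <;> simp [hx]
  · funext i
    fin_cases i
    · show y 0 - y 3 * y 3 * y 0 = dec 27 0
      rw [hsq]; simp [dec]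
    · show y 1 - y 3 * y 3 * y 1 = dec 27 1
      rw [hsq]; simp [dec]
    · show y 2 - y 3 * y 3 * y 2 = dec 27 2
      rw [hsq]; simp [dec]
    · show y 3 * y 3 = dec 27 3
      rw [hsq]; simp [dec]

theorem chkR_mem (F F2 FZ mc s : ℕ) : ∀ (lev : List (List ℕ)) (cls : List (List (ℕ × ℕ))),
    chkR F F2 FZ mc s lev cls = true → ∀ v ∈ lev, ∃ cl,
      v.all (fun x => Nat.blt x 81) = true ∧ (Nat.beq (Nat.land (stE v) FZ) 0 = false ∨
        (v.all (fun x => Nat.blt x 27) = true ∧ root3 F F2 mc s v cl = true) ∨
        root F F2 mc s (stE v) (qO v) full cl = true) := by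
  intro lev
  induction lev with
  | nil => intro cls _ v hv; exact absurd hv List.not_mem_nil
  | cons w lev ih =>
    intro cls h v hv
    cases cls with
    | nil => exact Bool.noConfusion h
    | cons cl cls =>
      rw [chkR, Bool.and_eq_true, Bool.and_eq_true, Bool.or_eq_true, Bool.not_eq_true'] at h
      rcases List.mem_cons.1 hv with rfl | hv
      · refine ⟨cl, h.1, ?_⟩
        rcases h.2.1 with h2 | h2
        · exact Or.inl h2
        · cases hb : v.all (fun x => Nat.blt x 27) with
          | true => rw [hb] at h2; exact Or.inr (Or.inl ⟨rfl, h2⟩)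
          | false => rw [hb] at h2; exact Or.inr (Or.inr h2)
      · exact ih cls h.2.2 v hv

/-- No configuration if all root checks succeed. -/
theorem no_of_chkR (h1 : StmtCode) (h2 : StmtTrSound) (h3 : StmtTrComp) (h4 : StmtNeg)
    (h5 : StmtLow) (h6 : StmtFold) (h7 : StmtInv) (h8 : StmtSel)
    (n t s olo ohi ehi F F2 FZ mc : ℕ) (lev : List (List ℕ)) (cls : List (List (ℕ × ℕ)))
    (hF : fokb n olo ohi 7 ehi F = true) (hF2 : fok2b n olo ohi 7 ehi F2 = true)
    (hFZ : fzb n 7 ehi FZ = true)
    (hmc : (mc = 2 ∧ 4 ≤ olo) ∨ mc = 5) (hs : 3 ≤ s) (hts : t + s = n) (hn : 7 < n)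
    (hcov : Cover t lev) (hchk : chkR F F2 FZ mc s lev cls = true)
    (A B : Multiset V) (hA : card A = t) (hB : card B = s) (hcfg : Cfg olo ohi 7 ehi A B) :
    False := by
  have hav : Av6 A := by
    intro A' hA' hne hsum
    have hpos : 0 < card A' := Multiset.card_pos.2 hne
    have hle := Multiset.card_le_card hA'
    have := hcfg.ev A' hA' 0 (Multiset.zero_le _) (by simpa using hsum) (by simp)
      (by simpa using hpos) (by rw [Multiset.card_zero]; omega)
    simpa using this.1
  obtain ⟨φ, hφ, v, hv, hmap⟩ := hcov A hA hav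
  obtain ⟨cl, hv81', hcl⟩ := chkR_mem F F2 FZ mc s lev cls hchk v hv
  have hv81 := all_lt hv81'
  have hcfg' := cfg_map hcfg φ hφ
  have hI : Inv (A.map φ) 0 (stE v) := by
    have := foldE h1 h7 v hv81 0 0 1 h7.2.2
    rw [add_zero] at this
    rw [hmap]
    exact this
  have hcard : card (A.map φ) + card (B.map φ) = n := by
    rw [Multiset.card_map, Multiset.card_map, hA, hB, hts]
  have hmc' : (mc = 2 ∧ 4 ≤ olo) ∨ (mc = 5 ∧ 7 ≤ 7) := by
    rcases hmc with h | h
    · exact Or.inl h
    · exact Or.inr ⟨h, le_rfl⟩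
  have hqv : qO v = 2 ^ code (-(A.map φ).sum) := by
    rw [hmap]
    exact qO_eq h1 h3 v hv81
  have hBs : card (B.map φ) = s := by rw [Multiset.card_map, hB]
  rcases hcl with h | ⟨h27, h⟩ | h
  · exact fzb_false hFZ hcfg' hcard hI h
  · clear hchk hcov
    rw [root3, Bool.and_eq_true, Bool.and_eq_true] at h
    obtain ⟨hcc, hr1, hr2⟩ := h
    have hA3 : ∀ a ∈ (A.map φ), a 3 = 0 := by
      intro a ha
      rw [hmap, Multiset.mem_map] at ha
      obtain ⟨x, hx, rfl⟩ := ha
      have hx27 : x < 27 := bltT.1 (List.all_eq_true.1 h27 x (by simpa using hx))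
      have : x / 27 % 3 = 0 := by omega
      show ((x / 27 % 3 : ℕ) : ZMod 3) = 0
      rw [this]; simp
    by_cases hz : ∀ z ∈ (B.map φ), z 3 = 0
    · have hal : ∀ z ∈ (B.map φ), Nat.testBit 134217727 (code z) = true := by
        intro z hzm
        have e : (134217727 : ℕ) = 2 ^ 27 - 1 := by norm_num
        rw [e, Nat.testBit_two_pow_sub_one]
        have hv0 := ZMod.val_lt (z 0)
        have hv1 := ZMod.val_lt (z 1)
        have hv2 := ZMod.val_lt (z 2)
        have hv3 : (z 3).val = 0 := by rw [hz z hzm]; rfl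
        have : code z < 27 := by unfold code; omega
        simpa using this
      exact rt1_sound h1 h3 h4 h5 h6 h7 h8 (fokb_fok hF) hcard hcfg'
        (classBound h1 h2 h5 h6 (fok2b_fok2 hF2) hmc' hn hcard hcfg' hI hcc)
        (zero_add (B.map φ)).symm hBs (by omega) hI (by rw [hqv]; simp) hal hr1
    · push Not at hz
      obtain ⟨y, hyB, hy3⟩ := hz
      obtain ⟨ψ, hψ, hfix, hψy⟩ := exists_psi y hy3
      have hcfg2 := cfg_map hcfg' ψ hψ
      have hAψ : (A.map φ).map ψ = (A.map φ) := by
        conv_rhs => rw [← Multiset.map_id (A.map φ)]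
        exact Multiset.map_congr rfl fun x hx => hfix x (hA3 x hx)
      rw [hAψ] at hcfg2
      obtain ⟨B2, hB2⟩ := Multiset.exists_cons_of_mem (Multiset.mem_map_of_mem ψ hyB)
      rw [hψy] at hB2
      have hcard2 : card (A.map φ) + card ((B.map φ).map ψ) = n := by
        rw [Multiset.card_map ψ]; exact hcard
      have h27c : code (dec 27) = 27 := h1.2.2 27 (by norm_num)
      have hI2 : Inv (A.map φ) {dec 27} (addO (stE v) 134217728) := by
        have := h7.2.1 (stE v) (A.map φ) 0 (dec 27) hI
        rw [h27c] at this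
        have e : (2 : ℕ) ^ 27 = 134217728 := by norm_num
        rw [e] at this
        simpa using this
      have hq2 : tr 134217728 (qO v) = 2 ^ code (-((A.map φ).sum + ({dec 27} : Multiset V).sum)) := by
        have := h3.1 (dec 27) (-(A.map φ).sum)
        rw [h27c] at this
        have e : (2 : ℕ) ^ 27 = 134217728 := by norm_num
        rw [e] at this
        have e2 : -(A.map φ).sum - dec 27 = -((A.map φ).sum + dec 27) := by abel
        rw [hqv, this, Multiset.sum_singleton, e2]
      have hB2c : card B2 = s - 1 := by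
        have := congrArg card hB2
        rw [Multiset.card_map, hBs, Multiset.card_cons] at this
        omega
      exact rt1_sound h1 h3 h4 h5 h6 h7 h8 (fokb_fok hF) hcard2 hcfg2
        (classBound h1 h2 h5 h6 (fok2b_fok2 hF2) hmc' hn hcard2 hcfg2 hI hcc)
        (by rw [hB2, Multiset.singleton_add]) hB2c (by omega) hI2 hq2
        (fun z _ => tb_full (h1.1 z)) hr2
  · refine stmtRoot h1 h2 h3 h4 h5 h6 h7 h8 n olo ohi 7 ehi F F2 mc s (stE v) (qO v) cl
      (A.map φ) (B.map φ) (fokb_fok hF) (fok2b_fok2 hF2) hmc' hs hn hcard hBs hcfg' hI hqv h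

end Pool.Agent.R125.ZS
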