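import Pool.Agent.R125.ZS.Msk
import Pool.Agent.R125.ZS.R3

/-! Kernel runs of the search, part 0. -/

namespace Pool.Agent.R125.ZS

/-- representatives -/
def rv12_7 : List (List ℕ) := [[1, 1, 3, 3, 9, 27, 41], [1, 1, 3, 3, 9, 27, 44], [1, 1, 3, 3, 9, 27, 76], [1, 1, 3, 4, 9, 10, 14]]

/-- classes -/
def rc12_7 : List (List (ℕ × ℕ)) := [[(0xa908518000000, 1), (0x2a0024012000000000, 1), (0x20000000040200010600, 1), (0x9000010a1000000000, 1), (0x400040000000040b800, 2), (0x20002000000002000b0, 2), (0x1000008000000a0804000, 2), (0x80000800008000a0000, 2)],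
  [(0x24801590000000, 1), (0x92001801a000000000, 1), (0x200268000000, 1), (0x80000e4000000000, 1), (0x600000000000001200, 1), (0x240000800000000800b0, 2), (0x80000200000000212c00, 2), (0x40000400000800420000, 2)],
  [(0x182200008000020000a00, 2), (0x54400010000010002400, 2), (0xa000202004280000, 2), (0x10400401000c00000, 2), (0x20000854002000000, 2), (0x80082000580000000, 2), (0xb0, 1), (0x2000000000000000c000, 1)],
  [(0x827618, 1), (0x40000008000000, 2), (0x80000010000000, 2), (0x100000020000000, 2), (0x200000040000000, 2), (0x400000080000000, 2), (0x800000100000000, 2), (0x1000000200000000, 2)]]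

theorem rk12_7 : chkR Fg14_4_7_10 Pg14_4_7_10 Zg14_4_7_10 2 7 rv12_7 rc12_7 = true := by decide +kernel

/-- representatives -/
def rv12_10 : List (List ℕ) := [[1, 1, 3, 4, 9, 13, 27]]

/-- classes -/
def rc12_10 : List (List (ℕ × ℕ)) := [[(0x218400760000000, 2), (0x80192e000000000, 2), (0x80000000283018, 2), (0x404200898000000, 2), (0x1000020d1000000000, 2), (0x2000000000018600, 2), (0x8000000000004800, 2), (0x200020000000000000, 2)]]

theorem rk12_10 : chkR Fg14_4_7_10 Pg14_4_7_10 Zg14_4_7_10 2 7 rv12_10 rc12_10 = true := by decide +kernel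

/-- representatives -/
def rv14_0 : List (List ℕ) := [[1, 1, 3, 3, 9, 9, 13, 27, 28, 30, 36], [1, 1, 3, 3, 9, 9, 27, 28, 30, 36, 40], [1, 1, 3, 3, 9, 9, 27, 28, 30, 36, 67]]

/-- classes -/
def rc14_0 : List (List (ℕ × ℕ)) := [[],
  [],
  []]

theorem rk14_0 : chkR Fg14_4_7_10 Pg14_4_7_10 Zg14_4_7_10 2 3 rv14_0 rc14_0 = true := by decide +kernel

/-- representatives -/
def rv15_1 : List (List ℕ) := [[1, 1, 3, 3, 9, 27]]

/-- classes -/
def rc15_1 : List (List (ℕ × ℕ)) := [[(0x8000000004028e00, 2), (0x4000200a38000000, 2), (0x800000000800b0, 2), (0x20000001a2000000000, 2), (0x200000000005c0000000, 2), (0x4000000000000013000, 2), (0x40000000045000000000, 2), (0x10000410000000000, 2)]]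

theorem rk15_1 : chkR Fg13_4_6_9 Pg13_4_6_9 Zg13_4_6_9 2 7 rv15_1 rc15_1 = true := by decide +kernel

end Pool.Agent.R125.ZS
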