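import Pool.Agent.R125.ZS.Cov
import Pool.Agent.R125.ZS.Rt0
import Pool.Agent.R125.ZS.Rt1
import Pool.Agent.R125.ZS.Rt2
import Pool.Agent.R125.ZS.Rt3
import Pool.Agent.R125.ZS.Rt4
import Pool.Agent.R125.ZS.Rt5
import Pool.Agent.R125.ZS.Rt6
import Pool.Agent.R125.ZS.Rt7

/-! No configurations in the cases of the first search. -/

namespace Pool.Agent.R125.ZS

open Multiset

theorem lr1 : lev6 = rv1_0 ++ rv1_1 ++ rv1_2 ++ rv1_3 ++ rv1_4 ++ rv1_5 ++ rv1_6 := by decide +kernel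

theorem nc1 (A B : Multiset V) (hA : card A = 6) (hB : card B = 7)
    (h : Cfg 5 6 7 8 A B) : False := by
  refine no_of_chkR stmtCode stmtTrSound stmtTrComp stmtNeg stmtLow stmtFold inv stmtSel
    13 6 7 5 6 8 Fg13_5_6_8 Pg13_5_6_8 Zg13_5_6_8 2 lev6 (rc1_0 ++ rc1_1 ++ rc1_2 ++ rc1_3 ++ rc1_4 ++ rc1_5 ++ rc1_6)
    hFg13_5_6_8 hPg13_5_6_8 hZg13_5_6_8 (by decide) (by norm_num) (by norm_num) (by norm_num) cov6 ?_ A B hA hB h
  rw [lr1]
  exact chkR_append _ _ _ _ _ _ _ _ _ (by decide +kernel) (chkR_append _ _ _ _ _ _ _ _ _ (by decide +kernel) (chkR_append _ _ _ _ _ _ _ _ _ (by decide +kernel) (chkR_append _ _ _ _ _ _ _ _ _ (by decide +kernel) (chkR_append _ _ _ _ _ _ _ _ _ (by decide +kernel) (chkR_append _ _ _ _ _ _ _ _ _ (by decide +kernel) (rk1_0) rk1_1) rk1_2) rk1_3) rk1_4) rk1_5) rk1_6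

theorem lr2 : lev8 = rv2_0 := by decide +kernel

theorem nc2 (A B : Multiset V) (hA : card A = 8) (hB : card B = 5)
    (h : Cfg 5 6 7 8 A B) : False := by
  refine no_of_chkR stmtCode stmtTrSound stmtTrComp stmtNeg stmtLow stmtFold inv stmtSel
    13 8 5 5 6 8 Fg13_5_6_8 Pg13_5_6_8 Zg13_5_6_8 2 lev8 (rc2_0)
    hFg13_5_6_8 hPg13_5_6_8 hZg13_5_6_8 (by decide) (by norm_num) (by norm_num) (by norm_num) cov8 ?_ A B hA hB h
  rw [lr2]
  exact rk2_0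

theorem lr3 : lev10 = rv3_0 := by decide +kernel

theorem nc3 (A B : Multiset V) (hA : card A = 10) (hB : card B = 3)
    (h : Cfg 5 6 7 8 A B) : False := by
  refine no_of_chkR stmtCode stmtTrSound stmtTrComp stmtNeg stmtLow stmtFold inv stmtSel
    13 10 3 5 6 8 Fg13_5_6_8 Pg13_5_6_8 Zg13_5_6_8 2 lev10 (rc3_0)
    hFg13_5_6_8 hPg13_5_6_8 hZg13_5_6_8 (by decide) (by norm_num) (by norm_num) (by norm_num) cov10 ?_ A B hA hB h
  rw [lr3]
  exact rk3_0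

theorem lr4 : lev7 = rv4_0 ++ rv4_1 ++ rv4_2 ++ rv4_3 ++ rv4_4 ++ rv4_5 := by decide +kernel

theorem nc4 (A B : Multiset V) (hA : card A = 7) (hB : card B = 8)
    (h : Cfg 5 10 7 8 A B) : False := by
  refine no_of_chkR stmtCode stmtTrSound stmtTrComp stmtNeg stmtLow stmtFold inv stmtSel
    15 7 8 5 10 8 Fg15_5_10_8 Pg15_5_10_8 Zg15_5_10_8 2 lev7 (rc4_0 ++ rc4_1 ++ rc4_2 ++ rc4_3 ++ rc4_4 ++ rc4_5)
    hFg15_5_10_8 hPg15_5_10_8 hZg15_5_10_8 (by decide) (by norm_num) (by norm_num) (by norm_num) cov7 ?_ A B hA hB h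
  rw [lr4]
  exact chkR_append _ _ _ _ _ _ _ _ _ (by decide +kernel) (chkR_append _ _ _ _ _ _ _ _ _ (by decide +kernel) (chkR_append _ _ _ _ _ _ _ _ _ (by decide +kernel) (chkR_append _ _ _ _ _ _ _ _ _ (by decide +kernel) (chkR_append _ _ _ _ _ _ _ _ _ (by decide +kernel) (rk4_0) rk4_1) rk4_2) rk4_3) rk4_4) rk4_5

theorem lr5 : lev9 = rv5_0 := by decide +kernel

theorem nc5 (A B : Multiset V) (hA : card A = 9) (hB : card B = 6)
    (h : Cfg 5 10 7 8 A B) : False := by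
  refine no_of_chkR stmtCode stmtTrSound stmtTrComp stmtNeg stmtLow stmtFold inv stmtSel
    15 9 6 5 10 8 Fg15_5_10_8 Pg15_5_10_8 Zg15_5_10_8 2 lev9 (rc5_0)
    hFg15_5_10_8 hPg15_5_10_8 hZg15_5_10_8 (by decide) (by norm_num) (by norm_num) (by norm_num) cov9 ?_ A B hA hB h
  rw [lr5]
  exact rk5_0

theorem lr6 : lev11 = rv6_0 := by decide +kernel

theorem nc6 (A B : Multiset V) (hA : card A = 11) (hB : card B = 4)
    (h : Cfg 5 10 7 8 A B) : False := by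
  refine no_of_chkR stmtCode stmtTrSound stmtTrComp stmtNeg stmtLow stmtFold inv stmtSel
    15 11 4 5 10 8 Fg15_5_10_8 Pg15_5_10_8 Zg15_5_10_8 2 lev11 (rc6_0)
    hFg15_5_10_8 hPg15_5_10_8 hZg15_5_10_8 (by decide) (by norm_num) (by norm_num) (by norm_num) cov11 ?_ A B hA hB h
  rw [lr6]
  exact rk6_0

theorem lr7 : lev7 = rv7_0 := by decide +kernel

theorem nc7 (A B : Multiset V) (hA : card A = 7) (hB : card B = 9)
    (h : Cfg 6 9 7 10 A B) : False := by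
  refine no_of_chkR stmtCode stmtTrSound stmtTrComp stmtNeg stmtLow stmtFold inv stmtSel
    16 7 9 6 9 10 Fg16_6_9_10 Pg16_6_9_10 Zg16_6_9_10 2 lev7 (rc7_0)
    hFg16_6_9_10 hPg16_6_9_10 hZg16_6_9_10 (by decide) (by norm_num) (by norm_num) (by norm_num) cov7 ?_ A B hA hB h
  rw [lr7]
  exact rk7_0

theorem lr8 : lev9 = rv8_0 := by decide +kernel

theorem nc8 (A B : Multiset V) (hA : card A = 9) (hB : card B = 7)
    (h : Cfg 6 9 7 10 A B) : False := by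
  refine no_of_chkR stmtCode stmtTrSound stmtTrComp stmtNeg stmtLow stmtFold inv stmtSel
    16 9 7 6 9 10 Fg16_6_9_10 Pg16_6_9_10 Zg16_6_9_10 2 lev9 (rc8_0)
    hFg16_6_9_10 hPg16_6_9_10 hZg16_6_9_10 (by decide) (by norm_num) (by norm_num) (by norm_num) cov9 ?_ A B hA hB h
  rw [lr8]
  exact rk8_0

theorem lr9 : lev11 = rv9_0 := by decide +kernel

theorem nc9 (A B : Multiset V) (hA : card A = 11) (hB : card B = 5)
    (h : Cfg 6 9 7 10 A B) : False := by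
  refine no_of_chkR stmtCode stmtTrSound stmtTrComp stmtNeg stmtLow stmtFold inv stmtSel
    16 11 5 6 9 10 Fg16_6_9_10 Pg16_6_9_10 Zg16_6_9_10 2 lev11 (rc9_0)
    hFg16_6_9_10 hPg16_6_9_10 hZg16_6_9_10 (by decide) (by norm_num) (by norm_num) (by norm_num) cov11 ?_ A B hA hB h
  rw [lr9]
  exact rk9_0

theorem lr10 : lev8 = rv10_0 := by decide +kernel

theorem nc10 (A B : Multiset V) (hA : card A = 8) (hB : card B = 7)
    (h : Cfg 5 8 7 10 A B) : False := by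
  refine no_of_chkR stmtCode stmtTrSound stmtTrComp stmtNeg stmtLow stmtFold inv stmtSel
    15 8 7 5 8 10 Fg15_5_8_10 Pg15_5_8_10 Zg15_5_8_10 2 lev8 (rc10_0)
    hFg15_5_8_10 hPg15_5_8_10 hZg15_5_8_10 (by decide) (by norm_num) (by norm_num) (by norm_num) cov8 ?_ A B hA hB h
  rw [lr10]
  exact rk10_0

theorem lr11 : lev10 = rv11_0 := by decide +kernel

theorem nc11 (A B : Multiset V) (hA : card A = 10) (hB : card B = 5)
    (h : Cfg 5 8 7 10 A B) : False := by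
  refine no_of_chkR stmtCode stmtTrSound stmtTrComp stmtNeg stmtLow stmtFold inv stmtSel
    15 10 5 5 8 10 Fg15_5_8_10 Pg15_5_8_10 Zg15_5_8_10 2 lev10 (rc11_0)
    hFg15_5_8_10 hPg15_5_8_10 hZg15_5_8_10 (by decide) (by norm_num) (by norm_num) (by norm_num) cov10 ?_ A B hA hB h
  rw [lr11]
  exact rk11_0

theorem lr12 : lev7 = rv12_0 ++ rv12_1 ++ rv12_2 ++ rv12_3 ++ rv12_4 ++ rv12_5 ++ rv12_6 ++ rv12_7 ++ rv12_8 ++ rv12_9 ++ rv12_10 ++ rv12_11 ++ rv12_12 ++ rv12_13 ++ rv12_14 := by decide +kernel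

theorem nc12 (A B : Multiset V) (hA : card A = 7) (hB : card B = 7)
    (h : Cfg 4 7 7 10 A B) : False := by
  refine no_of_chkR stmtCode stmtTrSound stmtTrComp stmtNeg stmtLow stmtFold inv stmtSel
    14 7 7 4 7 10 Fg14_4_7_10 Pg14_4_7_10 Zg14_4_7_10 2 lev7 (rc12_0 ++ rc12_1 ++ rc12_2 ++ rc12_3 ++ rc12_4 ++ rc12_5 ++ rc12_6 ++ rc12_7 ++ rc12_8 ++ rc12_9 ++ rc12_10 ++ rc12_11 ++ rc12_12 ++ rc12_13 ++ rc12_14)
    hFg14_4_7_10 hPg14_4_7_10 hZg14_4_7_10 (by decide) (by norm_num) (by norm_num) (by norm_num) cov7 ?_ A B hA hB h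
  rw [lr12]
  exact chkR_append _ _ _ _ _ _ _ _ _ (by decide +kernel) (chkR_append _ _ _ _ _ _ _ _ _ (by decide +kernel) (chkR_append _ _ _ _ _ _ _ _ _ (by decide +kernel) (chkR_append _ _ _ _ _ _ _ _ _ (by decide +kernel) (chkR_append _ _ _ _ _ _ _ _ _ (by decide +kernel) (chkR_append _ _ _ _ _ _ _ _ _ (by decide +kernel) (chkR_append _ _ _ _ _ _ _ _ _ (by decide +kernel) (chkR_append _ _ _ _ _ _ _ _ _ (by decide +kernel) (chkR_append _ _ _ _ _ _ _ _ _ (by decide +kernel) (chkR_append _ _ _ _ _ _ _ _ _ (by decide +kernel) (chkR_append _ _ _ _ _ _ _ _ _ (by decide +kernel) (chkR_append _ _ _ _ _ _ _ _ _ (by decide +kernel) (chkR_append _ _ _ _ _ _ _ _ _ (by decide +kernel) (chkR_append _ _ _ _ _ _ _ _ _ (by decide +kernel) (rk12_0) rk12_1) rk12_2) rk12_3) rk12_4) rk12_5) rk12_6) rk12_7) rk12_8) rk12_9) rk12_10) rk12_11) rk12_12) rk12_13) rk12_14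

theorem lr13 : lev9 = rv13_0 := by decide +kernel

theorem nc13 (A B : Multiset V) (hA : card A = 9) (hB : card B = 5)
    (h : Cfg 4 7 7 10 A B) : False := by
  refine no_of_chkR stmtCode stmtTrSound stmtTrComp stmtNeg stmtLow stmtFold inv stmtSel
    14 9 5 4 7 10 Fg14_4_7_10 Pg14_4_7_10 Zg14_4_7_10 2 lev9 (rc13_0)
    hFg14_4_7_10 hPg14_4_7_10 hZg14_4_7_10 (by decide) (by norm_num) (by norm_num) (by norm_num) cov9 ?_ A B hA hB h
  rw [lr13]
  exact rk13_0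

theorem lr14 : lev11 = rv14_0 := by decide +kernel

theorem nc14 (A B : Multiset V) (hA : card A = 11) (hB : card B = 3)
    (h : Cfg 4 7 7 10 A B) : False := by
  refine no_of_chkR stmtCode stmtTrSound stmtTrComp stmtNeg stmtLow stmtFold inv stmtSel
    14 11 3 4 7 10 Fg14_4_7_10 Pg14_4_7_10 Zg14_4_7_10 2 lev11 (rc14_0)
    hFg14_4_7_10 hPg14_4_7_10 hZg14_4_7_10 (by decide) (by norm_num) (by norm_num) (by norm_num) cov11 ?_ A B hA hB h
  rw [lr14]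
  exact rk14_0

theorem lr15 : lev6 = rv15_0 ++ rv15_1 ++ rv15_2 ++ rv15_3 ++ rv15_4 ++ rv15_5 ++ rv15_6 ++ rv15_7 ++ rv15_8 ++ rv15_9 ++ rv15_10 ++ rv15_11 ++ rv15_12 ++ rv15_13 ++ rv15_14 ++ rv15_15 ++ rv15_16 := by decide +kernel

theorem nc15 (A B : Multiset V) (hA : card A = 6) (hB : card B = 7)
    (h : Cfg 4 6 7 9 A B) : False := by
  refine no_of_chkR stmtCode stmtTrSound stmtTrComp stmtNeg stmtLow stmtFold inv stmtSel
    13 6 7 4 6 9 Fg13_4_6_9 Pg13_4_6_9 Zg13_4_6_9 2 lev6 (rc15_0 ++ rc15_1 ++ rc15_2 ++ rc15_3 ++ rc15_4 ++ rc15_5 ++ rc15_6 ++ rc15_7 ++ rc15_8 ++ rc15_9 ++ rc15_10 ++ rc15_11 ++ rc15_12 ++ rc15_13 ++ rc15_14 ++ rc15_15 ++ rc15_16)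
    hFg13_4_6_9 hPg13_4_6_9 hZg13_4_6_9 (by decide) (by norm_num) (by norm_num) (by norm_num) cov6 ?_ A B hA hB h
  rw [lr15]
  exact chkR_append _ _ _ _ _ _ _ _ _ (by decide +kernel) (chkR_append _ _ _ _ _ _ _ _ _ (by decide +kernel) (chkR_append _ _ _ _ _ _ _ _ _ (by decide +kernel) (chkR_append _ _ _ _ _ _ _ _ _ (by decide +kernel) (chkR_append _ _ _ _ _ _ _ _ _ (by decide +kernel) (chkR_append _ _ _ _ _ _ _ _ _ (by decide +kernel) (chkR_append _ _ _ _ _ _ _ _ _ (by decide +kernel) (chkR_append _ _ _ _ _ _ _ _ _ (by decide +kernel) (chkR_append _ _ _ _ _ _ _ _ _ (by decide +kernel) (chkR_append _ _ _ _ _ _ _ _ _ (by decide +kernel) (chkR_append _ _ _ _ _ _ _ _ _ (by decide +kernel) (chkR_append _ _ _ _ _ _ _ _ _ (by decide +kernel) (chkR_append _ _ _ _ _ _ _ _ _ (by decide +kernel) (chkR_append _ _ _ _ _ _ _ _ _ (by decide +kernel) (chkR_append _ _ _ _ _ _ _ _ _ (by decide +kernel) (chkR_append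 _ _ _ _ _ _ _ _ _ (by decide +kernel) (rk15_0) rk15_1) rk15_2) rk15_3) rk15_4) rk15_5) rk15_6) rk15_7) rk15_8) rk15_9) rk15_10) rk15_11) rk15_12) rk15_13) rk15_14) rk15_15) rk15_16

theorem lr16 : lev8 = rv16_0 ++ rv16_1 := by decide +kernel

theorem nc16 (A B : Multiset V) (hA : card A = 8) (hB : card B = 5)
    (h : Cfg 4 6 7 9 A B) : False := by
  refine no_of_chkR stmtCode stmtTrSound stmtTrComp stmtNeg stmtLow stmtFold inv stmtSel
    13 8 5 4 6 9 Fg13_4_6_9 Pg13_4_6_9 Zg13_4_6_9 2 lev8 (rc16_0 ++ rc16_1)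
    hFg13_4_6_9 hPg13_4_6_9 hZg13_4_6_9 (by decide) (by norm_num) (by norm_num) (by norm_num) cov8 ?_ A B hA hB h
  rw [lr16]
  exact chkR_append _ _ _ _ _ _ _ _ _ (by decide +kernel) (rk16_0) rk16_1

theorem lr17 : lev11 = rv17_0 := by decide +kernel

theorem nc17 (A B : Multiset V) (hA : card A = 11) (hB : card B = 6)
    (h : Cfg 1 16 7 10 A B) : False := by
  refine no_of_chkR stmtCode stmtTrSound stmtTrComp stmtNeg stmtLow stmtFold inv stmtSel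
    17 11 6 1 16 10 Fg17_1_16_10 Pg17_1_16_10 Zg17_1_16_10 5 lev11 (rc17_0)
    hFg17_1_16_10 hPg17_1_16_10 hZg17_1_16_10 (by decide) (by norm_num) (by norm_num) (by norm_num) cov11 ?_ A B hA hB h
  rw [lr17]
  exact rk17_0

end Pool.Agent.R125.ZS
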