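import Pool.Agent.R125.ZS.Defs

/-! MP_3fb682_nt, piece POLY: the identity modulo 3 for zero-sum subsequences. -/

set_option autoImplicit false

namespace Pool.Agent.R125.ZS

open Multiset

namespace Po

/-- the elements: a vector and two counters -/
abbrev W := V × ℕ × ℕ

/-- `g` has degree less than `d` -/
def D : ℕ → (W → ZMod 3) → Prop
  | 0, g => ∀ x, g x = 0
  | d + 1, g => ∀ a, D d (fun x => g (x + a) - g x)

lemma D_zero (d : ℕ) : ∀ g : W → ZMod 3, (∀ x, g x = 0) → D d g := by
  induction d with
  | zero => intro g hg; exact hg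
  | succ d ih =>
    intro g hg a
    refine ih _ fun x => ?_
    rw [hg, hg, sub_zero]

lemma D_succ (d : ℕ) : ∀ g : W → ZMod 3, D d g → D (d + 1) g := by
  induction d with
  | zero =>
    intro g hg a
    exact D_zero 0 _ fun x => by rw [hg, hg, sub_zero]
  | succ d ih =>
    intro g hg a
    exact ih _ (hg a)

lemma D_mono {d e : ℕ} (h : d ≤ e) {g : W → ZMod 3} (hg : D d g) : D e g := by
  induction h with
  | refl => exact hg
  | step _ ih => exact D_succ _ _ ih

lemma D_add (d : ℕ) : ∀ g h : W → ZMod 3, D d g → D d h → D d (fun x => g x + h x) := by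
  induction d with
  | zero =>
    intro g h hg hh x
    beta_reduce
    rw [hg, hh, add_zero]
  | succ d ih =>
    intro g h hg hh a
    have := ih _ _ (hg a) (hh a)
    refine cast ?_ this
    congr 1
    funext x
    ring

lemma D_shift (d : ℕ) : ∀ (g : W → ZMod 3) (a : W), D d g → D d (fun x => g (x + a)) := by
  induction d with
  | zero =>
    intro g a hg x
    exact hg _
  | succ d ih =>
    intro g a hg b
    have := ih _ a (hg b)
    refine cast ?_ this
    congr 1
    funext x
    rw [add_right_comm]

lemma D_mul (e : ℕ) : ∀ (d₁ d₂ : ℕ) (g h : W → ZMod 3), d₁ + d₂ ≤ e → D d₁ g → D d₂ h →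
    D (d₁ + d₂ - 1) (fun x => g x * h x) := by
  induction e with
  | zero =>
    intro d₁ d₂ g h he hg hh
    have h1 : d₁ = 0 := by omega
    subst h1
    exact D_zero _ _ fun x => by rw [hg, zero_mul]
  | succ e ih =>
    intro d₁ d₂ g h he hg hh
    rcases d₁ with _ | d₁
    · exact D_zero _ _ fun x => by rw [hg, zero_mul]
    rcases d₂ with _ | d₂
    · exact D_zero _ _ fun x => by rw [hh, mul_zero]
    have e1 : d₁ + 1 + (d₂ + 1) - 1 = (d₁ + d₂) + 1 := by omega
    rw [e1]
    intro a
    have h1 := ih (d₁ + 1) d₂ _ _ (by omega) (D_shift _ g a hg) (hh a)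
    have h2 := ih d₁ (d₂ + 1) _ _ (by omega) (hg a) hh
    have e2 : d₁ + 1 + d₂ - 1 = d₁ + d₂ := by omega
    have e3 : d₁ + (d₂ + 1) - 1 = d₁ + d₂ := by omega
    rw [e2] at h1
    rw [e3] at h2
    have := D_add _ _ _ h1 h2
    refine cast ?_ this
    congr 1
    funext x
    ring

lemma D_mul' {d₁ d₂ d : ℕ} {g h : W → ZMod 3} (hg : D d₁ g) (hh : D d₂ h)
    (hd : d₁ + d₂ - 1 ≤ d) : D d (fun x => g x * h x) :=
  D_mono hd (D_mul (d₁ + d₂) d₁ d₂ g h le_rfl hg hh)

lemma D_const (c : ZMod 3) : D 1 (fun _ => c) := by
  intro a x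
  exact sub_self c

lemma D_coord (c : Fin 4) : D 2 (fun x => x.1 c) := by
  intro a
  have : (fun x : W => (x + a).1 c - x.1 c) = fun _ => a.1 c := by
    funext x
    simp
  rw [this]
  exact D_const _

lemma D_ind1 (c : Fin 4) : D 3 (fun x => 1 - x.1 c * x.1 c) := by
  have h1 : D 3 (fun x => x.1 c * x.1 c) := D_mul' (D_coord c) (D_coord c) (by norm_num)
  have h2 : D 3 (fun x => (-1 : ZMod 3) * (x.1 c * x.1 c)) := D_mul' (D_const (-1)) h1 (by norm_num)
  have h3 := D_add _ _ _ (D_mono (show 1 ≤ 3 by norm_num) (D_const 1)) h2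
  refine cast ?_ h3
  congr 1
  funext x
  ring

/-- indicator of `v = 0` -/
def ind (x : W) : ZMod 3 := if x.1 = 0 then 1 else 0

lemma ind_eq (x : W) : ind x = ((1 - x.1 0 * x.1 0) * (1 - x.1 1 * x.1 1)) *
    ((1 - x.1 2 * x.1 2) * (1 - x.1 3 * x.1 3)) := by
  have hz : ∀ y : ZMod 3, y ≠ 0 → 1 - y * y = 0 := by decide
  unfold ind
  by_cases h : x.1 = 0
  · rw [if_pos h, h]
    simp
  · rw [if_neg h]
    have h2 : ∃ c, x.1 c ≠ 0 := by
      by_contra hc
      push Not at hc
      exact h (funext hc)
    obtain ⟨c, hc⟩ := h2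
    have h3 := hz _ hc
    fin_cases c
    · simp only [Fin.zero_eta] at h3
      rw [h3]
      ring
    · simp only [Fin.mk_one] at h3
      rw [h3]
      ring
    · simp only [Fin.reduceFinMk] at h3
      rw [h3]
      ring
    · simp only [Fin.reduceFinMk] at h3
      rw [h3]
      ring

lemma D_ind : D 9 ind := by
  have h1 := D_mul' (D_ind1 0) (D_ind1 1) (show 3 + 3 - 1 ≤ 5 by norm_num)
  have h2 := D_mul' (D_ind1 2) (D_ind1 3) (show 3 + 3 - 1 ≤ 5 by norm_num)
  have h3 := D_mul' h1 h2 (show 5 + 5 - 1 ≤ 9 by norm_num)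
  refine cast ?_ h3
  congr 1
  funext x
  exact (ind_eq x).symm

lemma D_choose (f : W → ℕ) (hf : ∀ x a, f (x + a) = f x + f a) (j : ℕ) :
    D (j + 1) (fun x => (Nat.choose (f x) j : ZMod 3)) := by
  induction j with
  | zero =>
    simp only [Nat.choose_zero_right, Nat.cast_one]
    exact D_const 1
  | succ j ih =>
    intro a
    have key : ∀ m : ℕ, D (j + 1) (fun x : W => (Nat.choose (f x + m) (j + 1) : ZMod 3) -
        (Nat.choose (f x) (j + 1) : ZMod 3)) := by
      intro m
      induction m with
      | zero => exact D_zero _ _ fun x => by simp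
      | succ m ihm =>
        have hs : D (j + 1) (fun x : W => (Nat.choose (f x + m) j : ZMod 3)) := by
          -- translation by an element with counter `m`: prove by the same induction
          clear ihm
          -- generalise: all shifts of `C(·, i)` have degree at most `i`
          have gen : ∀ (i m : ℕ), D (i + 1) (fun x : W => (Nat.choose (f x + m) i : ZMod 3)) := by
            intro i
            induction i with
            | zero =>
              intro m
              simp only [Nat.choose_zero_right, Nat.cast_one]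
              exact D_const 1
            | succ i ihi =>
              intro m b
              have k2 : ∀ r : ℕ, D (i + 1) (fun x : W =>
                  (Nat.choose (f x + m + r) (i + 1) : ZMod 3) -
                  (Nat.choose (f x + m) (i + 1) : ZMod 3)) := by
                intro r
                induction r with
                | zero => exact D_zero _ _ fun x => by simp
                | succ r ihr =>
                  have := D_add _ _ _ (ihi (m + r)) ihr
                  refine cast ?_ this
                  congr 1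
                  funext x
                  rw [← add_assoc (f x + m) r 1, Nat.choose_succ_succ]
                  push_cast
                  rw [← add_assoc (f x) m r]
                  ring
              refine cast ?_ (k2 (f b))
              congr 1
              funext x
              beta_reduce
              rw [hf, show f x + m + f b = f x + f b + m by omega]
          exact gen j m
        have := D_add _ _ _ hs ihm
        refine cast ?_ this
        congr 1
        funext x
        rw [← add_assoc (f x) m 1, Nat.choose_succ_succ]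
        push_cast
        ring
    refine cast ?_ (key (f a))
    congr 1
    funext x
    beta_reduce
    rw [hf]

lemma alt_zero {ι : Type} [DecidableEq ι] (w : ι → W) (K : Finset ι) :
    ∀ (d : ℕ) (g : W → ZMod 3) (x : W), D d g → d ≤ K.card →
      ∑ T ∈ K.powerset, (-1 : ZMod 3) ^ T.card * g (x + ∑ i ∈ T, w i) = 0 := by
  induction K using Finset.induction_on with
  | empty =>
    intro d g x hg hd
    have h0 : d = 0 := by simpa using hd
    subst h0
    refine Finset.sum_eq_zero fun T _ => ?_
    rw [hg, mul_zero]
  | insert i K hi ih =>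
    intro d g x hg hd
    rcases d with _ | d
    · refine Finset.sum_eq_zero fun T _ => ?_
      rw [hg, mul_zero]
    · rw [Finset.sum_powerset_insert hi, ← Finset.sum_add_distrib]
      rw [Finset.card_insert_of_notMem hi] at hd
      have h1 := ih d _ x (hg (w i)) (by omega)
      have h2 : ∀ T ∈ K.powerset, (-1 : ZMod 3) ^ T.card * g (x + ∑ j ∈ T, w j) +
          (-1 : ZMod 3) ^ (insert i T).card * g (x + ∑ j ∈ insert i T, w j) =
          -((-1 : ZMod 3) ^ T.card * (g (x + ∑ j ∈ T, w j + w i) - g (x + ∑ j ∈ T, w j))) := by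
        intro T hT
        have hiT : i ∉ T := fun h => hi (Finset.mem_powerset.1 hT h)
        rw [Finset.card_insert_of_notMem hiT, Finset.sum_insert hiT, pow_succ,
          add_comm (w i), add_assoc x]
        ring
      rw [Finset.sum_congr rfl h2, Finset.sum_neg_distrib, h1, neg_zero]

/-- the certificate polynomial as a function -/
def gp (co : List (ℕ × ℕ × ℕ)) (x : W) : ZMod 3 := ind x * (pval co x.2.1 x.2.2 : ZMod 3)

lemma D_gp (N : ℕ) (co : List (ℕ × ℕ × ℕ)) (h : ∀ q ∈ co, q.2.1 + q.2.2 + 9 ≤ N) :
    D N (gp co) := by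
  induction co with
  | nil =>
    refine D_zero _ _ fun x => ?_
    simp [gp, pval]
  | cons q co ih =>
    have h1 := ih fun r hr => h r (List.mem_cons_of_mem _ hr)
    have hq := h q List.mem_cons_self
    have c1 := D_choose (fun x : W => x.2.1) (fun x a => rfl) q.2.1
    have c2 := D_choose (fun x : W => x.2.2) (fun x a => rfl) q.2.2
    have h2 := D_mul' c1 c2 (show q.2.1 + 1 + (q.2.2 + 1) - 1 ≤ q.2.1 + q.2.2 + 1 by omega)
    have h3 := D_mul' D_ind h2 (show 9 + (q.2.1 + q.2.2 + 1) - 1 ≤ q.2.1 + q.2.2 + 9 by omega)
    have h4 := D_mul' (D_const (q.1 : ZMod 3)) h3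
      (show 1 + (q.2.1 + q.2.2 + 9) - 1 ≤ q.2.1 + q.2.2 + 9 by omega)
    have h5 := D_add _ _ _ (D_mono hq h4) h1
    refine cast ?_ h5
    congr 1
    funext x
    simp only [gp, pval, List.map_cons, List.sum_cons]
    push_cast
    ring

end Po

open Po in
theorem poly : StmtPoly := by
  intro t s al co hp A B hA hB hsum hal
  classical
  subst hA hB
  -- the check
  simp only [pcheck, Bool.and_eq_true, List.all_eq_true, decide_eq_true_eq, List.mem_range,
    Bool.or_eq_true, Bool.not_eq_true', beq_iff_eq, beq_eq_false_iff_ne, ne_eq] at hp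
  obtain ⟨⟨hp1, hp2⟩, hp3⟩ := hp
  set F : ℕ → ℕ → ℕ := fun a b => if (a + b) % 2 = 0 then pval co a b else 2 * pval co a b
    with hF
  have hp3' : ¬ (F 0 0 + F (card A) (card B)) % 3 = 0 := by simpa [hF] using hp3
  have hp2' : ∀ x < card A + 1, ∀ y < card B + 1,
      ((x + y = 0 ∨ x + y = card A + card B) ∨ al x y = false) ∨
        (F x y + F (card A - x) (card B - y)) % 3 = 0 := hp2
  have hFc : ∀ a b : ℕ, (F a b : ZMod 3) = (-1) ^ (a + b) * (pval co a b : ZMod 3) := by
    intro a b
    by_cases h : (a + b) % 2 = 0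
    · simp only [hF, h, if_true]
      rw [(Nat.even_iff.2 h).neg_one_pow, one_mul]
    · simp only [hF, h, if_false]
      rw [(Nat.odd_iff.2 (by omega)).neg_one_pow]
      push_cast
      have : (2 : ZMod 3) = -1 := by decide
      rw [this]
  -- indexing
  obtain ⟨la, hla⟩ := Quot.exists_rep A
  obtain ⟨lb, hlb⟩ := Quot.exists_rep B
  have hA' : A = ((Finset.univ : Finset (Fin la.length)).val.map la.get) := by
    rw [← hla]
    exact congrArg _ (List.map_get_finRange la).symm
  have hB' : B = ((Finset.univ : Finset (Fin lb.length)).val.map lb.get) := by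
    rw [← hlb]
    exact congrArg _ (List.map_get_finRange lb).symm
  set ι := Fin la.length ⊕ Fin lb.length with hι
  set w : ι → W := Sum.elim (fun i => (la.get i, 1, 0)) (fun j => (lb.get j, 0, 1)) with hw
  set AT : Finset ι → Multiset V := fun T => T.toLeft.val.map la.get with hAT
  set BT : Finset ι → Multiset V := fun T => T.toRight.val.map lb.get with hBT
  have hsT : ∀ T : Finset ι, ∑ i ∈ T, w i = ((AT T).sum + (BT T).sum, card (AT T), card (BT T)) := by
    intro T
    conv_lhs => rw [← Finset.toLeft_disjSum_toRight (u := T)]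
    rw [Finset.sum_disjSum]
    simp only [hw, Sum.elim_inl, Sum.elim_inr, hAT, hBT, card_map, Finset.card_val]
    ext1
    · simp only [Prod.fst_add, Prod.fst_sum]
      rfl
    · ext1
      · simp [Prod.fst_sum, Prod.snd_sum]
      · simp [Prod.fst_sum, Prod.snd_sum]
  have hcT : ∀ T : Finset ι, card (AT T) + card (BT T) = T.card := by
    intro T
    simp only [hAT, hBT, card_map, Finset.card_val]
    exact Finset.card_toLeft_add_card_toRight
  have hleA : ∀ T, AT T ≤ A := by
    intro T
    rw [hA']
    exact Multiset.map_le_map (Finset.val_le_iff.2 (Finset.subset_univ _))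
  have hleB : ∀ T, BT T ≤ B := by
    intro T
    rw [hB']
    exact Multiset.map_le_map (Finset.val_le_iff.2 (Finset.subset_univ _))
  have huniv : ∑ i, w i = (0, card A, card B) := by
    rw [hsT]
    have e1 : AT Finset.univ = A := by
      rw [hA']
      simp only [hAT]
      congr 2
      ext i
      simp
    have e2 : BT Finset.univ = B := by
      rw [hB']
      simp only [hBT]
      congr 2
      ext i
      simp
    rw [e1, e2, hsum]
  have hcard : Fintype.card ι = card A + card B := by
    rw [← Finset.card_univ, ← hcT]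
    have h1 := hsT Finset.univ
    rw [huniv] at h1
    have h2 := congrArg (fun x : W => x.2.1) h1
    have h3 := congrArg (fun x : W => x.2.2) h1
    simp only at h2 h3
    rw [h2, h3]
  -- the identity
  have hD : D (card A + card B) (gp co) := D_gp _ co fun q hq => hp1 q hq
  have h0 := alt_zero w Finset.univ _ (gp co) 0 hD (by rw [Finset.card_univ, hcard])
  simp only [zero_add, Finset.powerset_univ] at h0
  set h : Finset ι → ZMod 3 := fun T => (-1 : ZMod 3) ^ T.card * gp co (∑ i ∈ T, w i) with hh
  have h1 : ∑ T, (h T + h Tᶜ) = 0 := by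
    rw [Finset.sum_add_distrib]
    have e1 : ∑ T : Finset ι, h Tᶜ = ∑ T, h T :=
      Fintype.sum_equiv ⟨fun T => Tᶜ, fun T => Tᶜ, fun T => compl_compl T, fun T => compl_compl T⟩
        _ _ fun T => rfl
    rw [e1, h0, add_zero]
  have hterm : ∀ T : Finset ι, h T + h Tᶜ = if (AT T).sum + (BT T).sum = 0 then
      ((F (card (AT T)) (card (BT T)) + F (card A - card (AT T)) (card B - card (BT T)) : ℕ) :
        ZMod 3) else 0 := by
    intro T
    have hc : ∑ i ∈ T, w i + ∑ i ∈ Tᶜ, w i = (0, card A, card B) := by
      rw [Finset.sum_add_sum_compl, huniv]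
    rw [hsT, hsT] at hc
    have hc1 := congrArg (fun x : W => x.1) hc
    have hc2 := congrArg (fun x : W => x.2.1) hc
    have hc3 := congrArg (fun x : W => x.2.2) hc
    simp only [Prod.mk_add_mk] at hc1 hc2 hc3
    simp only [hh]
    rw [hsT, hsT]
    simp only [gp, ind]
    by_cases hz : (AT T).sum + (BT T).sum = 0
    · have hz2 : (AT Tᶜ).sum + (BT Tᶜ).sum = 0 := by
        rw [hz, zero_add] at hc1
        exact hc1
      rw [if_pos hz, if_pos hz2, if_pos hz]
      push_cast
      rw [hFc, hFc, one_mul, one_mul, ← hcT, ← hcT,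
        show card A - card (AT T) = card (AT Tᶜ) by omega,
        show card B - card (BT T) = card (BT Tᶜ) by omega]
    · have hz2 : (AT Tᶜ).sum + (BT Tᶜ).sum ≠ 0 := by
        intro h2
        rw [h2, add_zero] at hc1
        exact hz hc1
      rw [if_neg hz, if_neg hz2, if_neg hz]
      ring
  have hterm0 : ∀ T : Finset ι, T ≠ ∅ → T ≠ Finset.univ → h T + h Tᶜ = 0 := by
    intro T hT1 hT2
    rw [hterm]
    split_ifs with hz
    · have c1 : 0 < T.card := Finset.card_pos.2 (Finset.nonempty_iff_ne_empty.2 hT1)
      have c2 : T.card < card A + card B := by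
        rw [← hcard]
        exact (Finset.card_lt_iff_ne_univ T).2 hT2
      rw [← hcT] at c1 c2
      have a1 := Multiset.card_le_card (hleA T)
      have b1 := Multiset.card_le_card (hleB T)
      have h2 := hal _ (hleA T) _ (hleB T) hz c1 c2
      have h3 := hp2' (card (AT T)) (by omega) (card (BT T)) (by omega)
      rcases h3 with ((h3 | h3) | h3) | h3
      · omega
      · omega
      · rw [h2] at h3
        exact absurd h3 (by decide)
      · rw [ZMod.natCast_eq_zero_iff]
        exact Nat.dvd_of_mod_eq_zero h3
    · rfl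
  have hpos : 0 < card A + card B := by
    by_contra hn
    have hco : co = [] := by
      rcases co with _ | ⟨q, co⟩
      · rfl
      · have := hp1 q List.mem_cons_self
        omega
    apply hp3'
    have : ∀ a b, F a b = 0 := by
      intro a b
      simp [hF, hco, pval]
    rw [this, this]
  have hne : (∅ : Finset ι) ≠ Finset.univ := by
    intro he
    have := congrArg Finset.card he
    rw [Finset.card_empty, Finset.card_univ, hcard] at this
    omega
  have h2 : ∑ T : Finset ι, (h T + h Tᶜ) = (h ∅ + h ∅ᶜ) + (h Finset.univ + h Finset.univᶜ) := by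
    have hpair := Finset.sum_pair (f := fun T => h T + h Tᶜ) hne
    beta_reduce at hpair
    rw [← hpair]
    symm
    refine Finset.sum_subset (Finset.subset_univ _) fun T _ hT => ?_
    simp only [Finset.mem_insert, Finset.mem_singleton, not_or] at hT
    exact hterm0 T hT.1 hT.2
  rw [h1] at h2
  have e3 : h Finset.univ + h Finset.univᶜ = h ∅ + h ∅ᶜ := by
    rw [Finset.compl_univ, Finset.compl_empty, add_comm]
  rw [e3, hterm ∅] at h2
  have e6 : card (AT ∅) + card (BT ∅) = 0 := by rw [hcT, Finset.card_empty]
  have e4 : AT ∅ = 0 := Multiset.card_eq_zero.1 (by omega)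
  have e5 : BT ∅ = 0 := Multiset.card_eq_zero.1 (by omega)
  rw [e4, e5, if_pos (by simp)] at h2
  simp only [card_zero, Nat.sub_zero] at h2
  have h5 : ∀ z : ZMod 3, 0 = z + z → z = 0 := by decide
  have h6 := h5 _ h2
  rw [ZMod.natCast_eq_zero_iff] at h6
  exact hp3' (Nat.mod_eq_zero_of_dvd h6)

end Pool.Agent.R125.ZS
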