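import Pool.Agent.R125.ZS.Stm2

/-! Piece ZSE-ROOT: soundness of the root check. -/

namespace Pool.Agent.R125.ZS

open Multiset

namespace RootP

theorem and_mod (a x : ℕ) : (a &&& x) % 2 = (a % 2) * (x % 2) := by
  have h := Nat.testBit_and a x 0
  simp only [Nat.testBit_zero] at h
  rcases Nat.mod_two_eq_zero_or_one a with h1 | h1 <;>
    rcases Nat.mod_two_eq_zero_or_one x with h2 | h2 <;>
    rcases Nat.mod_two_eq_zero_or_one (a &&& x) with h3 | h3 <;>
    rw [h1, h2, h3] at h <;> simp at h <;> simp [h1, h2, h3]

theorem tb_sub_and (i : ℕ) : ∀ a x : ℕ,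
    Nat.testBit (a - (a &&& x)) i = (Nat.testBit a i && !Nat.testBit x i) := by
  have hle : ∀ a x : ℕ, (a &&& x) ≤ a := fun a x => Nat.and_le_left
  induction i with
  | zero =>
    intro a x
    have h1 := and_mod a x
    have h2 := hle a x
    simp only [Nat.testBit_zero]
    have h5 : (a - (a &&& x)) % 2 = (a % 2) - (a &&& x) % 2 := by
      have h6 : (a &&& x) % 2 ≤ a % 2 := by
        rw [h1]
        rcases Nat.mod_two_eq_zero_or_one a with h3 | h3 <;>
        rcases Nat.mod_two_eq_zero_or_one x with h4 | h4 <;> simp [h3, h4]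
      omega
    rw [h5, h1]
    rcases Nat.mod_two_eq_zero_or_one a with h3 | h3 <;>
    rcases Nat.mod_two_eq_zero_or_one x with h4 | h4 <;>
    simp [h3, h4]
  | succ i ih =>
    intro a x
    rw [Nat.testBit_succ, Nat.testBit_succ, Nat.testBit_succ, ← ih]
    congr 1
    have h1 := and_mod a x
    have h2 := hle a x
    have h3 : (a &&& x) / 2 = (a / 2) &&& (x / 2) := Nat.and_div_two
    rw [← h3]
    have h4 : (a &&& x) % 2 ≤ a % 2 := by
      rw [h1]
      rcases Nat.mod_two_eq_zero_or_one a with h3 | h3 <;>
      rcases Nat.mod_two_eq_zero_or_one x with h4 | h4 <;> simp [h3, h4]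
    omega

theorem tb_sub_pow {a k : ℕ} (h : Nat.testBit a k = true) (i : ℕ) :
    Nat.testBit (a - 2 ^ k) i = (Nat.testBit a i && !decide (k = i)) := by
  have h1 : a &&& 2 ^ k = 2 ^ k := by
    rw [Nat.and_two_pow, h]; simp
  have h2 := tb_sub_and i a (2 ^ k)
  rw [h1, Nat.testBit_two_pow] at h2
  exact h2

theorem tb_cand {F al st i : ℕ} : Nat.testBit (cand F al st) i =
    (Nat.testBit al i && !Nat.testBit (fold (Nat.land st F)) i) := by
  exact tb_sub_and i al (fold (Nat.land st F))

theorem tb_land {a b i : ℕ} : Nat.testBit (Nat.land a b) i = (Nat.testBit a i && Nat.testBit b i) :=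
  Nat.testBit_and a b i

theorem tb_full {i : ℕ} (h : i < 81) : Nat.testBit full i = true := by
  have h1 : full = 2 ^ 81 - 1 := by norm_num [full]
  rw [h1, Nat.testBit_two_pow_sub_one]
  simpa using h

theorem sel_sub : ∀ (cl : List (ℕ × ℕ)) (W c i : ℕ),
    Nat.testBit (sel cl W c) i = true → Nat.testBit c i = true := by
  intro cl
  induction cl with
  | nil => intro W c i h; simpa [sel] using h
  | cons p L ih =>
    intro W c i h
    unfold sel at h
    cases h1 : Nat.beq W 0 with
    | true => rw [h1] at h; simpa using h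
    | false =>
      rw [h1] at h
      simp only [cond_false] at h
      cases h2 : Nat.beq c 0 with
      | true => rw [h2] at h; simpa using h
      | false =>
        rw [h2] at h
        simp only [cond_false] at h
        cases h3 : Nat.ble p.2 W with
        | false => rw [h3] at h; simp only [cond_false] at h; exact ih _ _ _ h
        | true =>
          rw [h3] at h
          simp only [cond_true] at h
          cases h4 : Nat.beq (Nat.land p.1 c) 0 with
          | true => rw [h4] at h; simp only [cond_true] at h; exact ih _ _ _ h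
          | false =>
            rw [h4] at h; simp only [cond_false] at h
            have h5 := ih _ _ _ h
            have h6 : Nat.testBit (c - (c &&& p.1)) i = true := by
              rw [Nat.and_comm]; exact h5
            rw [tb_sub_and] at h6
            simp at h6
            exact h6.1

/-- a candidate is not excluded by the fold -/
theorem cand_ok {n olo ohi elo ehi F : ℕ} (hF : FOK n olo ohi elo ehi F) (h1 : StmtCode)
    (h6 : StmtFold) {A B B1 B2 : Multiset V} {st : ℕ} (hn : card A + card B = n)
    (hB : B = B1 + B2) (hC : Cfg olo ohi elo ehi A B) (hI : Inv A B1 st) {y : V} (hy : y ∈ B2) :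
    Nat.testBit (fold (Nat.land st F)) (code y) = false := by
  by_contra hcon
  rw [Bool.not_eq_false] at hcon
  obtain ⟨b, hb⟩ := h6 _ _ hcon
  rw [tb_land, Bool.and_eq_true] at hb
  obtain ⟨hb1, hb2⟩ := hb
  have hbb : b = 2 * (b / 2) + b % 2 := by omega
  rw [hbb] at hb1 hb2
  have hc2 : b % 2 < 2 := Nat.mod_lt _ (by norm_num)
  obtain ⟨hj, hf0, hf1⟩ := hF _ _ _ hc2 (h1.1 y) hb2
  obtain ⟨A', hA', B', hB', hcard, hpar, hsum⟩ := hI _ _ _ hc2 (h1.1 y) hb1
  rw [h1.2.1 y] at hsum
  have hle : y ::ₘ B' ≤ B := by
    rw [hB, ← Multiset.singleton_add, add_comm]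
    exact add_le_add hB' (Multiset.singleton_le.mpr hy)
  have hs : A'.sum + (y ::ₘ B').sum = 0 := by
    rw [Multiset.sum_cons]
    calc A'.sum + (y + B'.sum) = (A'.sum + B'.sum) + y := by abel
      _ = 0 := by rw [hsum]; simp
  have hcc : card A' + card (y ::ₘ B') = b / 2 + 1 := by rw [Multiset.card_cons]; omega
  rcases Nat.mod_two_eq_zero_or_one b with h0 | h0
  · apply hf0 h0
    have hodd : ¬ Even (card (y ::ₘ B')) := by
      rw [Multiset.card_cons, Nat.even_iff]; omega
    have := hC.od A' hA' _ hle hs hodd (by omega) (by omega)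
    rw [hcc] at this
    exact this
  · apply hf1 h0
    have hev : Even (card (y ::ₘ B')) := by
      rw [Multiset.card_cons, Nat.even_iff]; omega
    have := hC.ev A' hA' _ hle hs hev (by omega) (by omega)
    rw [hcc] at this
    exact this

theorem go_sound {n olo ohi elo ehi F : ℕ} {cl : List (ℕ × ℕ)}
    (hF : FOK n olo ohi elo ehi F) (h1 : StmtCode) (h3 : StmtTrComp) (h4 : StmtNeg)
    (h5 : StmtLow) (h6 : StmtFold) (h7 : StmtInv) (h8 : StmtSel)
    {A B : Multiset V} (hn : card A + card B = n) (hC : Cfg olo ohi elo ehi A B)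
    (hcl : ∀ p ∈ cl, card (B.filter (fun z => Nat.testBit p.1 (code z) = true)) ≤ p.2) :
    ∀ (f st r q al br : ℕ) (B1 B2 : Multiset V), B = B1 + B2 → card B2 = r → 2 ≤ r →
      Inv A B1 st → q = 2 ^ code (-(A.sum + B1.sum)) →
      (∀ z ∈ B2, Nat.testBit al (code z) = true) →
      (∃ z ∈ B2, Nat.testBit br (code z) = true) →
      (∀ i, Nat.testBit br i = true → Nat.testBit al i = true) →
      go F cl f st r q al br = true → False := by
  intro f
  induction f with
  | zero =>
    intro st r q al br B1 B2 _ _ _ _ _ _ _ _ hgo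
    simp [go] at hgo
  | succ f ih =>
    intro st r q al br B1 B2 hB hr hr2 hI hq hal hbr hsub hgo
    obtain ⟨z0, hz0, hz0b⟩ := hbr
    have hbr0 : br ≠ 0 := by
      intro h0
      rw [h0] at hz0b
      simp at hz0b
    obtain ⟨k, hk, hkb⟩ := h5 br hbr0
    have hbeq : Nat.beq br 0 = false := by
      rw [Bool.eq_false_iff]
      intro h
      exact hbr0 (Nat.eq_of_beq_eq_true h)
    rw [go, hbeq, cond_false, Bool.and_eq_true] at hgo
    obtain ⟨hX, hY⟩ := hgo
    by_cases hcase : ∃ z ∈ B2, code z = k
    · obtain ⟨z, hz, hzk⟩ := hcase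
      rw [hk, ← hzk] at hX
      -- new data
      have hB' : B = (z ::ₘ B1) + B2.erase z := by
        rw [hB, Multiset.cons_add, ← Multiset.add_cons, Multiset.cons_erase hz]
      have hcard' : card (B2.erase z) = r - 1 := by
        rw [Multiset.card_erase_of_mem hz, hr]; rfl
      have hI' : Inv A (z ::ₘ B1) (addO st (2 ^ code z)) := h7.2.1 _ _ _ _ hI
      have hq' : tr (2 ^ code z) q = 2 ^ code (-(A.sum + (z ::ₘ B1).sum)) := by
        rw [hq, h3.1, Multiset.sum_cons]
        congr 2
        abel
      rw [hq'] at hX
      have hal' : ∀ y ∈ B2.erase z,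
          Nat.testBit (cand F al (addO st (2 ^ code z))) (code y) = true := by
        intro y hy
        rw [tb_cand, cand_ok hF h1 h6 hn hB' hC hI' hy,
          hal y (Multiset.mem_of_mem_erase hy)]
        rfl
      have hsum : A.sum + ((z ::ₘ B1).sum + (B2.erase z).sum) = 0 := by
        rw [← Multiset.sum_add, ← hB']
        exact hC.sum0
      generalize hst' : addO st (2 ^ code z) = st' at hX hI' hal'
      generalize hal'' : cand F al st' = al' at hX hal'
      generalize hB1' : z ::ₘ B1 = B1' at hX hB' hI' hsum
      generalize hB2' : B2.erase z = B2' at hX hB' hcard' hal' hsum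
      generalize hg : -(A.sum + B1'.sum) = g at hX
      have hg2 : B2'.sum = g := by
        rw [← hg]
        have : A.sum + (B1'.sum + B2'.sum) = B2'.sum - (-(A.sum + B1'.sum)) := by abel
        rw [this] at hsum
        exact sub_eq_zero.mp hsum
      rcases Nat.lt_or_ge 2 r with h2r | h2r
      · have hbeq2 : Nat.beq r 2 = false := by
          rw [Bool.eq_false_iff]
          intro h
          have := Nat.eq_of_beq_eq_true h
          omega
        rw [hbeq2, cond_false] at hX
        rcases Nat.lt_or_ge 3 r with h3r | h3r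
        · have hbeq3 : Nat.beq r 3 = false := by
            rw [Bool.eq_false_iff]
            intro h
            have := Nat.eq_of_beq_eq_true h
            omega
          rw [hbeq3, cond_false] at hX
          refine ih st' (r - 1) _ al' _ B1' B2' hB' hcard' (by omega) hI' (by rw [hg]) hal' ?_ ?_ hX
          · refine h8 cl (r - 2) al' B2' hal' ?_ (by rw [hcard']; omega)
            intro p hp
            refine le_trans ?_ (hcl p hp)
            apply Multiset.card_le_card
            apply Multiset.filter_le_filter
            rw [hB']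
            exact Multiset.le_add_left _ _
          · intro i hi
            exact sel_sub _ _ _ _ hi
        · have hr3 : r = 3 := by omega
          have hbeq3 : Nat.beq r 3 = true := by rw [hr3]; rfl
          rw [hbeq3, cond_true] at hX
          have hc2 : card B2' = 2 := by rw [hcard', hr3]
          obtain ⟨y, w, hyw⟩ := Multiset.card_eq_two.mp hc2
          have hym : y ∈ B2' := by rw [hyw]; simp
          have hwm : w ∈ B2' := by rw [hyw]; simp
          have hyw2 : y + w = g := by
            rw [← hg2, hyw]; simp
          refine ih st' (r - 1) _ al' _ B1' B2' hB' hcard' (by omega) hI' (by rw [hg]) hal' ?_ ?_ hX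
          · refine ⟨w, hwm, ?_⟩
            rw [tb_land, hal' w hwm, Bool.true_and]
            have e1 := h3.2 g y al' (hal' y hym)
            have e2 := h4 _ _ e1
            have e3 : -(y - g) = w := by rw [← hyw2]; abel
            rw [e3] at e2
            exact e2
          · intro i hi
            rw [tb_land, Bool.and_eq_true] at hi
            exact hi.1
      · have hr2' : r = 2 := by omega
        have hbeq2 : Nat.beq r 2 = true := by rw [hr2']; rfl
        rw [hbeq2, cond_true] at hX
        have hc1 : card B2' = 1 := by rw [hcard', hr2']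
        obtain ⟨y, hy⟩ := Multiset.card_eq_one.mp hc1
        have hyg : y = g := by rw [← hg2, hy]; simp
        have e1 := Nat.eq_of_beq_eq_true hX
        have e2 : Nat.testBit (Nat.land al' (2 ^ code g)) (code y) = true := by
          rw [tb_land, hal' y (by rw [hy]; simp), hyg]
          simp
        rw [e1] at e2
        simp at e2
    · push Not at hcase
      rw [hk] at hY
      have hkal : Nat.testBit al k = true := hsub k hkb
      have hc : ∀ z ∈ B2, ∀ a, Nat.testBit a k = true → Nat.testBit a (code z) = true →
          Nat.testBit (Nat.sub a (2 ^ k)) (code z) = true := by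
        intro z hz a ha haz
        have := tb_sub_pow ha (code z)
        rw [haz] at this
        have hne : ¬ (k = code z) := fun h => hcase z hz h.symm
        rw [decide_eq_false hne] at this
        exact this
      refine ih st r q _ _ B1 B2 hB hr hr2 hI hq ?_ ?_ ?_ hY
      · intro z hz
        exact hc z hz al hkal (hal z hz)
      · exact ⟨z0, hz0, hc z0 hz0 br hkb hz0b⟩
      · intro i hi
        have e1 := tb_sub_pow hkb i
        have e2 := tb_sub_pow hkal i
        have hi' : Nat.testBit (br - 2 ^ k) i = true := hi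
        rw [e1, Bool.and_eq_true] at hi'
        change Nat.testBit (al - 2 ^ k) i = true
        rw [e2, hsub i hi'.1, hi'.2]
        rfl

theorem ccheck_sound (h5 : StmtLow) (P cap m : ℕ) : ∀ (f w : ℕ),
    (∀ i, Nat.testBit w i = true → Nat.testBit m i = true) → ccheck P cap m f w = true →
    ∀ k, Nat.testBit w k = true → ∀ i, Nat.testBit m i = true → (cap = 1 ∨ i ≠ k) →
      Nat.testBit (tr (2 ^ k) P) i = true := by
  intro f
  induction f with
  | zero =>
    intro w _ hc k hk
    have : w = 0 := Nat.eq_of_beq_eq_true hc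
    rw [this] at hk
    simp at hk
  | succ f ih =>
    intro w hwm hc k hk i hi hcap
    have hw0 : w ≠ 0 := by
      intro h0
      rw [h0] at hk
      simp at hk
    have hbeq : Nat.beq w 0 = false := by
      rw [Bool.eq_false_iff]
      intro h
      exact hw0 (Nat.eq_of_beq_eq_true h)
    rw [ccheck, hbeq, cond_false, Bool.and_eq_true] at hc
    obtain ⟨hX, hY⟩ := hc
    obtain ⟨k0, hk0, hk0b⟩ := h5 w hw0
    rw [hk0] at hX hY
    by_cases hkk : k = k0
    · subst hkk
      have hX' := Nat.eq_of_beq_eq_true hX
      cases hcb : Nat.beq cap 1 with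
      | true =>
        rw [hcb, cond_true] at hX'
        rw [← hX', tb_land, Bool.and_eq_true] at hi
        exact hi.2
      | false =>
        rw [hcb, cond_false] at hX'
        have hcap1 : cap ≠ 1 := by
          intro h
          rw [h] at hcb
          simp at hcb
        have hik : i ≠ k := by
          rcases hcap with h | h
          · exact absurd h hcap1
          · exact h
        have e1 := tb_sub_pow (hwm k hk) i
        rw [hi, decide_eq_false (fun h => hik h.symm)] at e1
        have e2 : Nat.testBit (Nat.sub m (2 ^ k)) i = true := e1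
        rw [← hX', tb_land, Bool.and_eq_true] at e2
        exact e2.2
    · refine ih _ ?_ hY k ?_ i hi hcap
      · intro j hj
        have e1 := tb_sub_pow hk0b j
        have hj' : Nat.testBit (w - 2 ^ k0) j = true := hj
        rw [e1, Bool.and_eq_true] at hj'
        exact hwm j hj'.1
      · have e1 := tb_sub_pow hk0b k
        rw [hk, decide_eq_false (fun h => hkk h.symm)] at e1
        exact e1

theorem cchecks_mem (P mc : ℕ) : ∀ (cl : List (ℕ × ℕ)), cchecks P mc cl = true → ∀ p ∈ cl,
    (p.2 = 1 ∨ mc ≤ p.2) ∧ ccheck P p.2 p.1 82 p.1 = true := by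
  intro cl
  induction cl with
  | nil => intro _ p hp; simp at hp
  | cons a L ih =>
    intro h p hp
    rw [cchecks, Bool.and_eq_true, Bool.and_eq_true, Bool.or_eq_true] at h
    obtain ⟨⟨h1, h2⟩, h3⟩ := h
    rcases List.mem_cons.mp hp with h4 | h4
    · subst h4
      refine ⟨?_, h2⟩
      rcases h1 with h1 | h1
      · exact Or.inl (Nat.eq_of_beq_eq_true h1)
      · exact Or.inr (Nat.le_of_ble_eq_true h1)
    · exact ih h3 p h4

/-- two elements of a class -/
theorem pair_bad {n olo ohi elo ehi F2 : ℕ} (hF2 : FOK2 n olo ohi elo ehi F2) (h1 : StmtCode)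
    (h2 : StmtTrSound) (h6 : StmtFold) {A B : Multiset V} {st : ℕ} (hn : card A + card B = n)
    (hC : Cfg olo ohi elo ehi A B) (hI : Inv A 0 st) {x y : V} (hxy : x ::ₘ {y} ≤ B)
    (hb : Nat.testBit (tr (2 ^ code x) (fold (Nat.land st F2))) (code y) = true) : False := by
  obtain ⟨p', hp1, hp2, hp3⟩ := h2 _ (h1.1 x) _ _ hb
  have hy81 := h1.1 y
  have hp81 : p' < 81 := by
    rw [Nat.div_eq_of_lt hy81] at hp2
    omega
  rw [Nat.mod_eq_of_lt hp81, Nat.mod_eq_of_lt hy81, h1.2.1, h1.2.1] at hp3
  obtain ⟨b, hbb⟩ := h6 _ _ hp1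
  rw [tb_land, Bool.and_eq_true] at hbb
  obtain ⟨hb1, hb2⟩ := hbb
  have hbb : b = 2 * (b / 2) + b % 2 := by omega
  rw [hbb] at hb1 hb2
  have hc2 : b % 2 < 2 := Nat.mod_lt _ (by norm_num)
  obtain ⟨hj, hf0, hf1⟩ := hF2 _ _ _ hc2 hp81 hb2
  obtain ⟨A', hA', B', hB', hcard, hpar, hsum⟩ := hI _ _ _ hc2 hp81 hb1
  have hB0 : B' = 0 := Multiset.le_zero.mp hB'
  rw [hp3, hB0] at hsum
  have hs : A'.sum + (x ::ₘ {y}).sum = 0 := by
    rw [Multiset.sum_cons, Multiset.sum_singleton]
    have : A'.sum + (0 : Multiset V).sum = A'.sum := by simp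
    rw [this] at hsum
    rw [hsum]
    abel
  have hcc : card (x ::ₘ {y}) = 2 := by simp
  have hcB : card B' = 0 := by rw [hB0]; simp
  have hev : Even (card (x ::ₘ {y})) := by rw [hcc]; exact even_two
  have hres := hC.ev A' hA' _ hxy hs hev (by omega) (by omega)
  apply hf0 (by omega)
  constructor <;> omega

end RootP

open RootP in
theorem stmtRoot (h1 : StmtCode) (h2 : StmtTrSound) (h3 : StmtTrComp) (h4 : StmtNeg)
    (h5 : StmtLow) (h6 : StmtFold) (h7 : StmtInv) (h8 : StmtSel) : StmtRoot := by
  intro n olo ohi elo ehi F F2 mc s st q cl A B hF hF2 hmc hs hn7 hn hcs hC hI hq hroot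
  rw [root, Bool.and_eq_true] at hroot
  obtain ⟨hcc, hgo⟩ := hroot
  -- multiplicities
  have hmul : ∀ x : V, ∀ k, Multiset.replicate k x ≤ B → k ≤ mc := by
    intro x k hk
    by_contra hcon
    push Not at hcon
    rcases hmc with ⟨hmc, ho⟩ | ⟨hmc, he⟩
    · have hle : Multiset.replicate 3 x ≤ B :=
        le_trans (Multiset.replicate_le_replicate x |>.mpr (by omega)) hk
      have hsum : (0 : Multiset V).sum + (Multiset.replicate 3 x).sum = 0 := by
        rw [Multiset.sum_replicate, Multiset.sum_zero, zero_add]
        funext i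
        have : ∀ a : ZMod 3, (3 : ℕ) • a = 0 := by decide
        exact this (x i)
      have := hC.od 0 (Multiset.zero_le _) _ hle hsum (by rw [Multiset.card_replicate]; decide)
        (by rw [Multiset.card_replicate]; omega) (by rw [Multiset.card_replicate]; simp; omega)
      rw [Multiset.card_replicate] at this
      simp at this
      omega
    · have hle : Multiset.replicate 6 x ≤ B :=
        le_trans (Multiset.replicate_le_replicate x |>.mpr (by omega)) hk
      have hsum : (0 : Multiset V).sum + (Multiset.replicate 6 x).sum = 0 := by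
        rw [Multiset.sum_replicate, Multiset.sum_zero, zero_add]
        funext i
        have : ∀ a : ZMod 3, (6 : ℕ) • a = 0 := by decide
        exact this (x i)
      have := hC.ev 0 (Multiset.zero_le _) _ hle hsum (by rw [Multiset.card_replicate]; decide)
        (by rw [Multiset.card_replicate]; omega) (by rw [Multiset.card_replicate]; simp; omega)
      rw [Multiset.card_replicate] at this
      simp at this
      omega
  -- classes
  have hcl : ∀ p ∈ cl, card (B.filter (fun z => Nat.testBit p.1 (code z) = true)) ≤ p.2 := by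
    intro p hp
    obtain ⟨hp2, hpc⟩ := cchecks_mem _ _ _ hcc p hp
    have hkey : ∀ x y : V, x ::ₘ {y} ≤ B → Nat.testBit p.1 (code x) = true →
        Nat.testBit p.1 (code y) = true → (p.2 = 1 ∨ code y ≠ code x) → False := by
      intro x y hxy hx hy hor
      exact pair_bad hF2 h1 h2 h6 hn hC hI hxy
        (ccheck_sound h5 _ _ _ _ _ (fun i hi => hi) hpc (code x) hx (code y) hy hor)
    have hinj : ∀ x y : V, code y = code x → y = x := by
      intro x y h
      rw [← h1.2.1 y, h, h1.2.1]
    set D := B.filter (fun z => Nat.testBit p.1 (code z) = true) with hD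
    have hDle : D ≤ B := Multiset.filter_le _ _
    have hDm : ∀ z ∈ D, Nat.testBit p.1 (code z) = true := by
      intro z hz
      exact (Multiset.mem_filter.mp hz).2
    by_contra hcon
    push Not at hcon
    have hD1 : 0 < card D := by omega
    obtain ⟨x, hx⟩ := Multiset.card_pos_iff_exists_mem.mp hD1
    have hall : ∀ y ∈ D, y = x := by
      intro y hy
      by_contra hne
      have hle : x ::ₘ {y} ≤ D := by
        obtain ⟨D', hD'⟩ := Multiset.exists_cons_of_mem hx
        rw [hD'] at hy ⊢
        have hy' : y ∈ D' := by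
          rcases Multiset.mem_cons.mp hy with h | h
          · exact absurd h hne
          · exact h
        exact Multiset.cons_le_cons x (Multiset.singleton_le.mpr hy')
      exact hkey x y (le_trans hle hDle) (hDm x hx) (hDm y hy)
        (Or.inr (fun h => hne (hinj x y h)))
    have hrep : D = Multiset.replicate (card D) x := Multiset.eq_replicate.mpr ⟨rfl, hall⟩
    rcases hp2 with hp2 | hp2
    · have hle : x ::ₘ {x} ≤ B := by
        refine le_trans ?_ hDle
        rw [hrep]
        have : x ::ₘ {x} = Multiset.replicate 2 x := rfl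
        rw [this]
        exact Multiset.replicate_le_replicate x |>.mpr (by omega)
      exact hkey x x hle (hDm x hx) (hDm x hx) (Or.inl hp2)
    · have := hmul x (card D) (by rw [← hrep]; exact hDle)
      omega
  have hB : B = 0 + B := (zero_add B).symm
  have hal : ∀ z ∈ B, Nat.testBit (cand F full st) (code z) = true := by
    intro z hz
    rw [tb_cand, cand_ok hF h1 h6 hn hB hC hI hz, tb_full (h1.1 z)]
    rfl
  refine go_sound hF h1 h3 h4 h5 h6 h7 h8 hn hC hcl 100 st s q _ _ 0 B hB hcs (by omega) hI ?_
    hal ?_ ?_ hgo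
  · rw [hq]; simp
  · exact h8 cl (s - 1) _ B hal hcl (by rw [hcs]; omega)
  · intro i hi
    exact sel_sub _ _ _ _ hi

end Pool.Agent.R125.ZS
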