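import Pool.Agent.R125.ZS.Eng

/-! Semantics of the engine and statements of its soundness pieces. -/

namespace Pool.Agent.R125.ZS

open Multiset

/-- element of `V` with code `q < 81` -/
def dec (q : ℕ) : V := ![((q % 3 : ℕ) : ZMod 3), ((q / 3 % 3 : ℕ) : ZMod 3),
  ((q / 9 % 3 : ℕ) : ZMod 3), ((q / 27 % 3 : ℕ) : ZMod 3)]

/-- code of an element of `V` -/
def code (v : V) : ℕ := (v 0).val + 3 * (v 1).val + 9 * (v 2).val + 27 * (v 3).val

/-- Soundness invariant of a state. -/
def Inv (A B : Multiset V) (st : ℕ) : Prop :=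
  ∀ j c q : ℕ, c < 2 → q < 81 → Nat.testBit st (81 * (2 * j + c) + q) = true →
    ∃ A' ≤ A, ∃ B' ≤ B, card A' + card B' = j ∧ card B' % 2 = c ∧ A'.sum + B'.sum = - dec q

/-- Piece S1a: codes. -/
def StmtCode : Prop :=
  (∀ v : V, code v < 81) ∧ (∀ v : V, dec (code v) = v) ∧ (∀ q < 81, code (dec q) = q)

/-- Piece S1b: every bit of a translated set comes from a bit in the same block. -/
def StmtTrSound : Prop :=
  ∀ x < 81, ∀ A p : ℕ, Nat.testBit (tr (2 ^ x) A) p = true →
    ∃ p', Nat.testBit A p' = true ∧ p' / 81 = p / 81 ∧ dec (p' % 81) = dec (p % 81) + dec x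

/-- Piece S1c: translation of one-bit sets, and completeness on the block 0. -/
def StmtTrComp : Prop :=
  (∀ x y : V, tr (2 ^ code x) (2 ^ code y) = 2 ^ code (y - x)) ∧
  (∀ x y : V, ∀ A : ℕ, Nat.testBit A (code y) = true →
    Nat.testBit (tr (2 ^ code x) A) (code (y - x)) = true)

/-- Piece S1d: negation. -/
def StmtNeg : Prop :=
  ∀ (y : V) (A : ℕ), Nat.testBit A (code y) = true → Nat.testBit (neg A) (code (-y)) = true

/-- Piece S1e: the lowest bit. -/
def StmtLow : Prop :=
  ∀ b : ℕ, b ≠ 0 → ∃ k, low b = 2 ^ k ∧ Nat.testBit b k = true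

/-- Piece S1f: the fold. -/
def StmtFold : Prop :=
  ∀ y p : ℕ, Nat.testBit (fold y) p = true → ∃ b, Nat.testBit y (81 * b + p) = true

/-- Piece S1g: the invariant is preserved. -/
def StmtInv : Prop :=
  (∀ st A B, ∀ x : V, Inv A B st → Inv (x ::ₘ A) B (addE st (2 ^ code x))) ∧
  (∀ st A B, ∀ x : V, Inv A B st → Inv A (x ::ₘ B) (addO st (2 ^ code x))) ∧
  Inv 0 0 1

/-- Piece S1h: the class bound. -/
def StmtSel : Prop :=
  ∀ (cl : List (ℕ × ℕ)) (W c : ℕ) (D : Multiset V),
    (∀ z ∈ D, Nat.testBit c (code z) = true) →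
    (∀ p ∈ cl, card (D.filter (fun z => Nat.testBit p.1 (code z) = true)) ≤ p.2) →
    W < card D → ∃ z ∈ D, Nat.testBit (sel cl W c) (code z) = true

/-- `F` selects only blocks of sub-pairs of size `j` and parity `c` which may not be completed by one
more odd element. -/
def FOK (n olo ohi elo ehi F : ℕ) : Prop :=
  ∀ j c q, c < 2 → q < 81 → Nat.testBit F (81 * (2 * j + c) + q) = true →
    j + 2 ≤ n ∧ (c = 0 → ¬ (olo ≤ j + 1 ∧ j + 1 ≤ ohi)) ∧ (c = 1 → ¬ (elo ≤ j + 1 ∧ j + 1 ≤ ehi))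

/-- The same for two more odd elements. -/
def FOK2 (n olo ohi elo ehi F : ℕ) : Prop :=
  ∀ j c q, c < 2 → q < 81 → Nat.testBit F (81 * (2 * j + c) + q) = true →
    j + 3 ≤ n ∧ (c = 0 → ¬ (elo ≤ j + 2 ∧ j + 2 ≤ ehi)) ∧ (c = 1 → ¬ (olo ≤ j + 2 ∧ j + 2 ≤ ohi))

/-- Piece S2: soundness of the root check. -/
def StmtRoot : Prop :=
  ∀ (n olo ohi elo ehi F F2 mc s st q : ℕ) (cl : List (ℕ × ℕ)) (A B : Multiset V),
    FOK n olo ohi elo ehi F → FOK2 n olo ohi elo ehi F2 →
    ((mc = 2 ∧ 4 ≤ olo) ∨ (mc = 5 ∧ 7 ≤ elo)) → 3 ≤ s → 7 < n →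
    card A + card B = n → card B = s → Cfg olo ohi elo ehi A B → Inv A 0 st →
    q = 2 ^ code (- A.sum) → root F F2 mc s st q full cl = true → False

/-! ### Orbits -/

/-- `l` contains, up to injective linear maps, all sequences of length `k` in `V` without nonempty
zero-sum subsequences of length at most 6. -/
def Cover (k : ℕ) (l : List (List ℕ)) : Prop :=
  ∀ A : Multiset V, card A = k → Av6 A → ∃ φ : V →+ V, Function.Injective φ ∧
    ∃ v ∈ l, A.map φ = Multiset.map dec (v : Multiset ℕ)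

/-- Linear map on codes; `M` = images of the basis, digits in base 256. -/
def app (M : ℕ × ℕ × ℕ × ℕ) (x : ℕ) : ℕ :=
  let s := (x % 3) * M.1 + (x / 3 % 3) * M.2.1 + (x / 9 % 3) * M.2.2.1 + (x / 27 % 3) * M.2.2.2
  (s % 256) % 3 + 3 * ((s / 256 % 256) % 3) + 9 * ((s / 65536 % 256) % 3) +
    27 * ((s / 16777216 % 256) % 3)

/-- all digits in base 256 are at most 2, four digits -/
def wideOK (m : ℕ) : Bool :=
  Nat.ble (m % 256) 2 && Nat.ble (m / 256 % 256) 2 && Nat.ble (m / 65536 % 256) 2 &&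
    Nat.ble (m / 16777216) 2

/-- A certificate: new element `y`, matrix `M`, its inverse `N`, index of the image. -/
abbrev Cert := ℕ × (ℕ × ℕ × ℕ × ℕ) × (ℕ × ℕ × ℕ × ℕ) × ℕ

/-- check one certificate -/
def chkEdge (nxt : List (List ℕ)) (v : List ℕ) (e : Cert) : Bool :=
  let M := e.2.1
  let N := e.2.2.1
  (((e.1 :: v).map (app M)).isPerm (nxt.getD e.2.2.2 [])) && Nat.blt e.2.2.2 nxt.length &&
  (wideOK M.1 && wideOK M.2.1 && wideOK M.2.2.1 && wideOK M.2.2.2) &&
  (wideOK N.1 && wideOK N.2.1 && wideOK N.2.2.1 && wideOK N.2.2.2) &&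
  (Nat.beq (app N (app M 1)) 1 && Nat.beq (app N (app M 3)) 3 &&
    Nat.beq (app N (app M 9)) 9 && Nat.beq (app N (app M 27)) 27)

/-- union of the bits of the new elements of the certificates -/
def ybits : List Cert → ℕ
  | [] => 0
  | e :: L => Nat.lor (bit e.1) (ybits L)

/-- mask of the blocks `(j, 0)`, `j ≤ 5` -/
def F6 : ℕ := 0x7fffffffffffffffffffc00000000000000000001ffffffffffffffffffff000000000000000000007fffffffffffffffffffc00000000000000000001ffffffffffffffffffff000000000000000000007fffffffffffffffffffc00000000000000000001ffffffffffffffffffff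

/-- check of one representative: all candidates have a certificate -/
def chkRep (nxt : List (List ℕ)) (v : List ℕ) (cs : List Cert) : Bool :=
  let c := cand F6 full (List.foldl addE 1 (v.map bit))
  (v.all (fun x => Nat.blt x 81)) && Nat.beq (Nat.land c (ybits cs)) c && cs.all (chkEdge nxt v)

/-- check of a level -/
def chkLevel (nxt : List (List ℕ)) : List (List ℕ) → List (List Cert) → Bool
  | [], _ => true
  | _ :: _, [] => false
  | v :: cur, cs :: css => chkRep nxt v cs && chkLevel nxt cur css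

/-- Piece S3: soundness of the orbit enumeration (uses the other pieces as hypotheses). -/
def StmtOrb : Prop :=
  StmtCode → StmtFold → StmtInv →
  ∀ (k : ℕ) (cur nxt : List (List ℕ)) (css : List (List Cert)),
    chkLevel nxt cur css = true → Cover k cur → Cover (k + 1) nxt

end Pool.Agent.R125.ZS
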