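import Pool.Agent.R125.ZS.Stm2

/-! The second search (elements of both parities), lists of root checks. -/

namespace Pool.Agent.R125.ZS

open Multiset

/-- `2^81` -/
def two81 : ℕ := 0x200000000000000000000

/-- Candidates: bit `code` for odd elements, bit `81 + code` for even elements. -/
def cand2 (FO FE al st : ℕ) : ℕ :=
  Nat.sub al (Nat.land al (Nat.lor (Nat.land (fold (Nat.land st FO)) full)
    (Nat.shiftLeft (Nat.land (fold (Nat.land st FE)) full) 81)))

/-- Add the element of bit `L`. -/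
def add2 (st L : ℕ) : ℕ :=
  cond (Nat.ble two81 L) (addE st (Nat.shiftRight L 81)) (addO st L)

/-- The element of bit `L`. -/
def el2 (L : ℕ) : ℕ := cond (Nat.ble two81 L) (Nat.shiftRight L 81) L

/-- The search with elements of both parities. -/
def go2 (FO FE : ℕ) : ℕ → ℕ → ℕ → ℕ → ℕ → ℕ → Bool
  | 0, _, _, _, _, _ => false
  | f+1, st, r, q, al, br =>
    cond (Nat.beq br 0) true
    (and (cond (Nat.beq r 2)
          (Nat.beq (Nat.land (cand2 FO FE al (add2 st (low br)))
            (Nat.lor (tr (el2 (low br)) q) (Nat.shiftLeft (tr (el2 (low br)) q) 81))) 0)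
          (go2 FO FE f (add2 st (low br)) (Nat.sub r 1) (tr (el2 (low br)) q)
            (cand2 FO FE al (add2 st (low br))) (cand2 FO FE al (add2 st (low br)))))
      (go2 FO FE f st r q (Nat.sub al (low br)) (Nat.sub br (low br))))

/-- the root of the second search -/
def root2 (FO FE r st q al : ℕ) : Bool :=
  go2 FO FE 200 st r q (cand2 FO FE al st) (cand2 FO FE al st)

/-- `F` selects only blocks of sub-pairs of size `j` and parity `c` which may not be completed by one
more even element. -/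
def FOKE (n olo ohi elo ehi F : ℕ) : Prop :=
  ∀ j c q, c < 2 → q < 81 → Nat.testBit F (81 * (2 * j + c) + q) = true →
    j + 2 ≤ n ∧ (c = 0 → ¬ (elo ≤ j + 1 ∧ j + 1 ≤ ehi)) ∧ (c = 1 → ¬ (olo ≤ j + 1 ∧ j + 1 ≤ ohi))

/-- Piece S4: soundness of the second search. -/
def StmtRoot2 : Prop :=
  ∀ (n olo ohi elo ehi FO FE r st q al : ℕ) (A B A1 B1 A2 B2 : Multiset V),
    FOK n olo ohi elo ehi FO → FOKE n olo ohi elo ehi FE →
    A = A1 + A2 → B = B1 + B2 → card A + card B = n → card A2 + card B2 = r → 2 ≤ r →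
    Cfg olo ohi elo ehi A B → Inv A1 B1 st → q = 2 ^ code (- (A1.sum + B1.sum)) →
    (∀ z ∈ A2, Nat.testBit al (81 + code z) = true) → (∀ z ∈ B2, Nat.testBit al (code z) = true) →
    root2 FO FE r st q al = true → False

/-- state of a list of even elements -/
def stE (v : List ℕ) : ℕ := List.foldl addE 1 (v.map bit)

/-- state of a list of odd elements -/
def stO (v : List ℕ) : ℕ := List.foldl addO 1 (v.map bit)

/-- negated sum of a list -/
def qO (v : List ℕ) : ℕ := List.foldl (fun q L => tr L q) 1 (v.map bit)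

/-- all root checks of a list of representatives -/
def chkRoots (F F2 FZ mc s : ℕ) : List (List ℕ) → List (List (ℕ × ℕ)) → Bool
  | [], _ => true
  | _ :: _, [] => false
  | v :: vs, cl :: cls =>
    v.all (fun x => Nat.blt x 81) && (!(Nat.beq (Nat.land (stE v) FZ) 0) ||
      root F F2 mc s (stE v) (qO v) full cl) && chkRoots F F2 FZ mc s vs cls

/-- Boolean form of `FOK`. -/
def fokb (n olo ohi elo ehi F : ℕ) : Bool :=
  Nat.blt F (2 ^ 2754) && (List.range 2754).all (fun p =>
    Nat.beq (Nat.land (Nat.shiftRight F p) 1) 0 ||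
    (Nat.ble (p / 162 + 2) n &&
      (!(Nat.beq (p / 81 % 2) 0) || !(Nat.ble olo (p / 162 + 1) && Nat.ble (p / 162 + 1) ohi)) &&
      (!(Nat.beq (p / 81 % 2) 1) || !(Nat.ble elo (p / 162 + 1) && Nat.ble (p / 162 + 1) ehi))))

/-- Boolean form of `FOK2`. -/
def fok2b (n olo ohi elo ehi F : ℕ) : Bool :=
  Nat.blt F (2 ^ 2754) && (List.range 2754).all (fun p =>
    Nat.beq (Nat.land (Nat.shiftRight F p) 1) 0 ||
    (Nat.ble (p / 162 + 3) n &&
      (!(Nat.beq (p / 81 % 2) 0) || !(Nat.ble elo (p / 162 + 2) && Nat.ble (p / 162 + 2) ehi)) &&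
      (!(Nat.beq (p / 81 % 2) 1) || !(Nat.ble olo (p / 162 + 2) && Nat.ble (p / 162 + 2) ohi))))

/-- Boolean form of the condition on `FZ`. -/
def fzb (n elo ehi F : ℕ) : Bool :=
  Nat.blt F (2 ^ 2754) && (List.range 2754).all (fun p =>
    Nat.beq (Nat.land (Nat.shiftRight F p) 1) 0 ||
    (Nat.beq (p % 81) 0 && Nat.beq (p / 81 % 2) 0 && Nat.ble 1 (p / 162) &&
      Nat.ble (p / 162 + 1) n && !(Nat.ble elo (p / 162) && Nat.ble (p / 162) ehi)))

/-- Piece S5: no configuration if all root checks succeed. -/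
def StmtNo : Prop :=
  StmtCode → StmtTrComp → StmtInv → StmtRoot →
  ∀ (n t s olo ohi ehi F F2 FZ mc : ℕ) (lev : List (List ℕ)) (cls : List (List (ℕ × ℕ))),
    fokb n olo ohi 7 ehi F = true → fok2b n olo ohi 7 ehi F2 = true → fzb n 7 ehi FZ = true →
    ((mc = 2 ∧ 4 ≤ olo) ∨ mc = 5) → 3 ≤ s → t + s = n → 7 < n →
    Cover t lev → chkRoots F F2 FZ mc s lev cls = true →
    ∀ A B : Multiset V, card A = t → card B = s → Cfg olo ohi 7 ehi A B → False

/-- Piece S6: no configuration with an all-odd start. `B` contains a subsequence `B1` of length `k`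
with `Av6 B1`, and with sum 0 if `z = true`. -/
def StmtNo2 : Prop :=
  StmtCode → StmtTrComp → StmtInv → StmtRoot2 →
  ∀ (n k r olo ohi ehi FO FE : ℕ) (z : Bool) (lev : List (List ℕ)),
    fokb n olo ohi 7 ehi FO = true → fokb n 7 ehi olo ohi FE = true → k + r = n → 2 ≤ r →
    Cover k lev →
    (lev.all (fun v => v.all (fun x => Nat.blt x 81) && ((z && !(Nat.beq (qO v) 1)) ||
      root2 FO FE r (stO v) (qO v) (two81 * two81 - 1)))) = true →
    ∀ A B B1 : Multiset V, card A + card B = n → Cfg olo ohi 7 ehi A B → B1 ≤ B → card B1 = k →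
      Av6 B1 → (z = true → B1.sum = 0) → False

end Pool.Agent.R125.ZS
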